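import Pool.Agent.H90.DG.Code

/-!
MODULE Pad (about 150 lines, mostly a copy). More right labels.

GENERIC PART: copy `xE`, `sum_xE`, `ext`, `ext_pi_inl`, `ext_pi_inr`, `extSol`, `extSol_common` from
`Pool/Agent/H60/DTO/Ext.lean` (lines 20 to 130; do not import that file; rename with a suffix `G`).
VALUE: if the additional labels are mapped by `ρ e b = Φ.π e (τ b)` for a map
`τ : Fin (n * R) → Fin (s * R)` of labels, then every labelling of the extension satisfies the same
edges as the labelling of `Φ` in which each additional label `b` is replaced by `τ b`. So the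
fraction of the satisfied edges of the extension is at most (equal to) a fraction of `Φ`.
HERE: `Φ = inst m k`, `n = d - 2^m`, `labX : Fin (n * 2^k) ≃ AA k × Fin n`,
`τ b = (labW m k).symm (0, (labX b).1)`; `(inst m k).π e (τ b) = a` means
`(labX b).1 + tr c 0 + gam = labV a`, which has at most `n` solutions `b`
(`b ↦ (labX b).2` is injective on them, compare `pj_card` in `Code.lean`).
The type `LabelCover _ _ (2^m + n) _` is transported to `d` along `2^m + n = d` (`subst` after
`obtain ⟨n, rfl⟩ := Nat.exists_eq_add_of_le hd`).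
-/

namespace Pool.Agent.H90.DG

open Finset Pool.Agent.H76.DTO
open scoped Classical RealInnerProductSpace

noncomputable section

section Generic

variable {V W : Type} {s n R N : ℕ}

/-- right labels of the extension -/
def xEG (s n R : ℕ) : Fin (s * R) ⊕ Fin (n * R) ≃ Fin ((s + n) * R) :=
  finSumFinEquiv.trans (finCongr (add_mul s n R).symm)

/-- sums over the right labels of the extension -/
lemma sum_xEG {M : Type} [AddCommMonoid M] (h : Fin ((s + n) * R) → M) :
    ∑ b, h b = (∑ b, h (xEG s n R (Sum.inl b))) + ∑ b, h (xEG s n R (Sum.inr b)) := by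
  rw [← Equiv.sum_comp (xEG s n R), Fintype.sum_sum_type]

/-- **The extension of an instance by additional right labels.** -/
def extG (Φ : LabelCover V W s R) (ρ : V × W → Fin (n * R) → Fin R)
    (hρ : ∀ e ∈ Φ.E, ∀ a, (Finset.univ.filter (fun b => ρ e b = a)).card ≤ n) :
    LabelCover V W (s + n) R where
  E := Φ.E
  π e b := Sum.elim (Φ.π e) (ρ e) ((xEG s n R).symm b)
  dto1 := by
    intro e he a
    have h1 := Φ.dto1 e he a
    have h2 := hρ e he a
    rw [Finset.card_filter] at h1 h2 ⊢
    rw [sum_xEG]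
    simp only [Equiv.symm_apply_apply, Sum.elim_inl, Sum.elim_inr]
    exact Nat.add_le_add h1 h2

variable (Φ : LabelCover V W s R) (ρ : V × W → Fin (n * R) → Fin R)
    (hρ : ∀ e ∈ Φ.E, ∀ a, (Finset.univ.filter (fun b => ρ e b = a)).card ≤ n)

lemma extG_pi_inl (e : V × W) (b : Fin (s * R)) :
    (extG Φ ρ hρ).π e (xEG s n R (Sum.inl b)) = Φ.π e b := by
  simp only [extG, Equiv.symm_apply_apply, Sum.elim_inl]

lemma extG_pi_inr (e : V × W) (b : Fin (n * R)) :
    (extG Φ ρ hρ).π e (xEG s n R (Sum.inr b)) = ρ e b := by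
  simp only [extG, Equiv.symm_apply_apply, Sum.elim_inr]

/-- the semidefinite solution of the extension -/
def extSolG (P : PerfectSolution Φ N) : PerfectSolution (extG Φ ρ hρ) N where
  x := P.x
  y w b := Sum.elim (P.y w) (fun _ => 0) ((xEG s n R).symm b)
  orth_x := P.orth_x
  orth_y := by
    intro w b b' h
    obtain ⟨c, rfl⟩ := (xEG s n R).surjective b
    obtain ⟨c', rfl⟩ := (xEG s n R).surjective b'
    rcases c with b | b <;> rcases c' with b' | b' <;>
      simp only [Equiv.symm_apply_apply, Sum.elim_inl, Sum.elim_inr, inner_zero_left,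
        inner_zero_right]
    exact P.orth_y _ _ _ (by rintro rfl; exact h rfl)
  norm_x := P.norm_x
  norm_y := by
    intro w
    rw [sum_xEG]
    simp only [Equiv.symm_apply_apply, Sum.elim_inl, Sum.elim_inr, norm_zero]
    rw [P.norm_y]
    simp
  perfect := by
    intro e he
    rw [sum_xEG]
    simp only [extG_pi_inl, extG_pi_inr, Equiv.symm_apply_apply, Sum.elim_inl, Sum.elim_inr,
      inner_zero_right]
    rw [P.perfect e he]
    simp

lemma extSolG_common (P : PerfectSolution Φ N) (h : P.CommonSum) :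
    (extSolG Φ ρ hρ P).CommonSum := by
  obtain ⟨z, h1, h2, h3⟩ := h
  refine ⟨z, h1, h2, fun w => ?_⟩
  rw [sum_xEG]
  simp only [extSolG, Equiv.symm_apply_apply, Sum.elim_inl, Sum.elim_inr, Finset.sum_const_zero,
    add_zero]
  exact h3 w

/-- the fractions of the extension, if the additional labels copy old ones -/
lemma extG_frac (τ : Fin (n * R) → Fin (s * R))
    (hτ : ∀ e ∈ Φ.E, ∀ a, (Finset.univ.filter (fun b => Φ.π e (τ b) = a)).card ≤ n)
    (f : V → Fin R) (g : W → Fin ((s + n) * R)) :
    (extG Φ (fun e b => Φ.π e (τ b)) hτ).frac f g =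
      Φ.frac f fun w => Sum.elim id τ ((xEG s n R).symm (g w)) := by
  have h : ∀ e : V × W, (extG Φ (fun e b => Φ.π e (τ b)) hτ).π e (g e.2) =
      Φ.π e (Sum.elim id τ ((xEG s n R).symm (g e.2))) := by
    intro e
    obtain ⟨c, hc⟩ := (xEG s n R).surjective (g e.2)
    rw [← hc]
    rcases c with b | b
    · rw [extG_pi_inl, Equiv.symm_apply_apply]
      rfl
    · rw [extG_pi_inr, Equiv.symm_apply_apply]
      rfl
  simp only [LabelCover.frac, h]
  rfl

end Generic

/-- the additional labels -/
def labXG (k n : ℕ) : Fin (n * 2 ^ k) ≃ AA k × Fin n :=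
  (Fintype.equivFinOfCardEq (by
    rw [Fintype.card_prod, Fintype.card_fun, ZMod.card, Fintype.card_fin, Fintype.card_fin,
      mul_comm])).symm

/-- the old labels which are copied by the additional labels -/
def tauG (m k n : ℕ) (b : Fin (n * 2 ^ k)) : Fin (2 ^ m * 2 ^ k) :=
  (labW m k).symm (0, (labXG k n b).1)

lemma tauG_card (m k n : ℕ) (e : VV m k × WW m k) (a : Fin (2 ^ k)) :
    (Finset.univ.filter fun b => (inst m k).π e (tauG m k n b) = a).card ≤ n := by
  have h0 : n = (Finset.univ : Finset (Fin n)).card := by rw [Finset.card_univ, Fintype.card_fin]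
  refine (Finset.card_le_card_of_injOn (t := (Finset.univ : Finset (Fin n)))
    (fun b => (labXG k n b).2) (fun b _ => Finset.mem_univ _) ?_).trans h0.ge
  intro b hb b' hb' h
  have h1 : (inst m k).π e (tauG m k n b) = a := by simpa using hb
  have h2 : (inst m k).π e (tauG m k n b') = a := by simpa using hb'
  have h3 := h1.trans h2.symm
  rw [inst_pi, inst_pi, tauG, tauG, Equiv.apply_symm_apply, Equiv.apply_symm_apply] at h3
  have h4 := (labV k).symm.injective h3
  simp only [pj, add_left_inj] at h4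
  exact (labXG k n).injective (Prod.ext h4 h)

theorem pad (m k d : ℕ) (hd : 2 ^ m ≤ d) (σ B : ℝ) (N : ℕ)
    (h1 : (inst m k).SecondSingular σ)
    (h2 : ∃ S : PerfectSolution (inst m k) N, S.CommonSum)
    (h3 : ∀ (Fl : VV m k → Fin (2 ^ k)) (Gl : WW m k → Fin (2 ^ m * 2 ^ k)),
      (inst m k).frac Fl Gl ≤ B) :
    ∃ Φ : LabelCover (VV m k) (WW m k) d (2 ^ k), Φ.E = (inst m k).E ∧ Φ.SecondSingular σ ∧
      (∃ S : PerfectSolution Φ N, S.CommonSum) ∧
      ∀ (Fl : VV m k → Fin (2 ^ k)) (Gl : WW m k → Fin (d * 2 ^ k)), Φ.frac Fl Gl ≤ B := by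
  obtain ⟨n, rfl⟩ := Nat.exists_eq_add_of_le hd
  obtain ⟨S, hS⟩ := h2
  refine ⟨extG (inst m k) (fun e b => (inst m k).π e (tauG m k n b))
    (fun e _ a => tauG_card m k n e a), rfl, h1, ⟨extSolG _ _ _ S, extSolG_common _ _ _ S hS⟩, ?_⟩
  intro Fl Gl
  rw [extG_frac]
  exact h3 _ _

end

end Pool.Agent.H90.DG
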