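import Pool.Agent.H90.DG.Av

/-!
MODULE Avg (about 90 lines). Averages of products.

`av_blur`: write `mix g g' = fun x => if S x then g x else g' x`. By `hh`, `h g = h (mix g g')`, so
the right hand side is the average over the pairs `(g, g')` of `a (mix g g') * h (mix g g')`;
`(g, g') ↦ (mix g g', mix g' g)` is a bijection of pairs (its own inverse), so this is the average
over pairs of `a g * h g`, i.e. the left hand side.
`av_orbit`: translation invariance (`av_add_right`) and `av_comm`, `av_const`.
`av_holder`: Hölder (`Real.inner_le_Lp_mul_Lq_of_nonneg`) and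
`√(N2 s A) = (av A^s)^(1/s)` (`Real.sqrt_eq_rpow`), `√(N2 p B) = (av B^p)^(1/p)`.
-/

namespace Pool.Agent.H90.DG

open Finset
open scoped Classical

noncomputable section

private def avgMix {X : Type} (S : X → Prop) (g g' : X → F2) : X → F2 :=
  fun x => if S x then g x else g' x

private lemma avgMix_mix {X : Type} (S : X → Prop) (g g' : X → F2) :
    avgMix S (avgMix S g g') (avgMix S g' g) = g := by
  funext x
  by_cases hx : S x <;> simp [avgMix, hx]

private def avgSwap {X : Type} (S : X → Prop) :
    ((X → F2) × (X → F2)) ≃ ((X → F2) × (X → F2)) where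
  toFun p := (avgMix S p.1 p.2, avgMix S p.2 p.1)
  invFun p := (avgMix S p.1 p.2, avgMix S p.2 p.1)
  left_inv p := by
    simp only [avgMix_mix]
  right_inv p := by
    simp only [avgMix_mix]

theorem av_blur {X : Type} [Fintype X] (S : X → Prop) (a h : (X → F2) → ℝ)
    (hh : ∀ g g', (∀ x, S x → g x = g' x) → h g = h g') :
    (av fun g => a g * h g) = av fun g => blur S a g * h g := by
  have e1 : (av fun g => blur S a g * h g) =
      av fun g => av fun g' => a (avgMix S g g') * h (avgMix S g g') := by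
    apply av_congr
    intro g
    have e2 : blur S a g = av fun g' => a (avgMix S g g') := rfl
    rw [e2, ← av_mul_right]
    apply av_congr
    intro g'
    rw [hh g (avgMix S g g') fun x hx => by simp [avgMix, hx]]
  have e3 : (av fun g => av fun g' => a (avgMix S g g') * h (avgMix S g g')) =
      av fun p : (X → F2) × (X → F2) => a (avgSwap S p).1 * h (avgSwap S p).1 :=
    (av_prod fun p : (X → F2) × (X → F2) => a (avgSwap S p).1 * h (avgSwap S p).1).symm
  have e4 : (av fun p : (X → F2) × (X → F2) => a (avgSwap S p).1 * h (avgSwap S p).1) =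
      av fun p : (X → F2) × (X → F2) => a p.1 * h p.1 :=
    av_equiv (avgSwap S) fun p : (X → F2) × (X → F2) => a p.1 * h p.1
  rw [e1, e3, e4, av_prod]
  apply av_congr
  intro g
  exact (av_const _).symm

theorem av_orbit {M X : Type} [AddCommGroup M] [Module F2 M] [Fintype M] [Fintype X]
    (e : M →ₗ[F2] (X → F2)) (Φ : (X → F2) → ℝ) :
    av Φ = av fun g => av fun μ => Φ (g + e μ) := by
  rw [av_comm]
  have h : ∀ μ : M, (av fun g => Φ (g + e μ)) = av Φ := fun μ => av_add_right (e μ) Φ
  rw [av_congr h, av_const]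

private lemma avg_sqrt {M : Type} [Fintype M] {s : ℝ} (A : M → ℝ)
    (hA : ∀ μ, 0 ≤ A μ) : √(N2 s A) = (av fun μ => A μ ^ s) ^ (1 / s) := by
  unfold N2
  rw [Real.sqrt_eq_rpow, ← Real.rpow_mul (av_nonneg fun μ => Real.rpow_nonneg (hA μ) _)]
  congr 1
  ring

theorem av_holder {M : Type} [Fintype M] [Nonempty M] {s p : ℝ} (hs : 1 < s)
    (hsp : 1 / s + 1 / p = 1) (A B : M → ℝ) (hA : ∀ μ, 0 ≤ A μ) (hB : ∀ μ, 0 ≤ B μ) :
    (av fun μ => A μ * B μ) ≤ √(N2 s A) * √(N2 p B) := by
  have hpq : s.HolderConjugate p := by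
    rw [Real.holderConjugate_iff]
    exact ⟨hs, by simpa [one_div] using hsp⟩
  rw [avg_sqrt A hA, avg_sqrt B hB]
  have h := Real.inner_le_Lp_mul_Lq_of_nonneg (s := (Finset.univ : Finset M)) hpq
    (fun i _ => hA i) (fun i _ => hB i)
  have hn : (0 : ℝ) < (Fintype.card M : ℝ) := card_pos'
  have e1 : ((Fintype.card M : ℝ)) ^ (1 / s) * (Fintype.card M : ℝ) ^ (1 / p) =
      (Fintype.card M : ℝ) := by
    rw [← Real.rpow_add hn, hsp, Real.rpow_one]
  simp only [av]
  rw [Real.div_rpow (Finset.sum_nonneg fun i _ => Real.rpow_nonneg (hA i) _) hn.le,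
    Real.div_rpow (Finset.sum_nonneg fun i _ => Real.rpow_nonneg (hB i) _) hn.le,
    div_mul_div_comm, e1]
  exact div_le_div_of_nonneg_right h hn.le

end

end Pool.Agent.H90.DG
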