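import Pool.Agent.H90.DG.Defs

/-!
Basic properties of averages, of the squared norms `N2` and of the orbit norms `orb`.
-/

namespace Pool.Agent.H90.DG

open Finset
open scoped Classical

noncomputable section

set_option linter.unusedSectionVars false

section Av

variable {α β : Type} [Fintype α] [Fintype β]

lemma av_congr {f g : α → ℝ} (h : ∀ i, f i = g i) : av f = av g := by
  rw [show f = g from funext h]

lemma av_add (f g : α → ℝ) : av (fun i => f i + g i) = av f + av g := by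
  simp only [av, Finset.sum_add_distrib, add_div]

lemma av_sub (f g : α → ℝ) : av (fun i => f i - g i) = av f - av g := by
  simp only [av, Finset.sum_sub_distrib, sub_div]

lemma av_neg (f : α → ℝ) : av (fun i => -f i) = -av f := by
  simp only [av, Finset.sum_neg_distrib, neg_div]

lemma av_mul_left (c : ℝ) (f : α → ℝ) : av (fun i => c * f i) = c * av f := by
  simp only [av, ← Finset.mul_sum, mul_div_assoc]

lemma av_mul_right (f : α → ℝ) (c : ℝ) : av (fun i => f i * c) = av f * c := by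
  simp only [av, ← Finset.sum_mul]
  ring

lemma av_div (f : α → ℝ) (c : ℝ) : av (fun i => f i / c) = av f / c := by
  simp only [div_eq_mul_inv, av_mul_right]

lemma card_ne [Nonempty α] : (Fintype.card α : ℝ) ≠ 0 := by
  exact_mod_cast Fintype.card_ne_zero

lemma card_pos' [Nonempty α] : (0 : ℝ) < (Fintype.card α : ℝ) := by
  exact_mod_cast Fintype.card_pos

lemma av_const [Nonempty α] (c : ℝ) : av (fun _ : α => c) = c := by
  have := card_ne (α := α)
  simp only [av, Finset.sum_const, Finset.card_univ, nsmul_eq_mul]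
  field_simp

lemma av_zero : av (fun _ : α => (0 : ℝ)) = 0 := by simp [av]

lemma av_mono {f g : α → ℝ} (h : ∀ i, f i ≤ g i) : av f ≤ av g :=
  div_le_div_of_nonneg_right (Finset.sum_le_sum fun i _ => h i) (Nat.cast_nonneg _)

lemma av_nonneg {f : α → ℝ} (h : ∀ i, 0 ≤ f i) : 0 ≤ av f :=
  div_nonneg (Finset.sum_nonneg fun i _ => h i) (Nat.cast_nonneg _)

lemma av_pos [Nonempty α] {f : α → ℝ} (h : ∀ i, 0 < f i) : 0 < av f :=
  div_pos (Finset.sum_pos (fun i _ => h i) Finset.univ_nonempty) card_pos'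

lemma av_comm (f : α → β → ℝ) : (av fun i => av fun j => f i j) = av fun j => av fun i => f i j := by
  simp only [av, Finset.sum_div]
  rw [Finset.sum_comm]
  refine Finset.sum_congr rfl fun j _ => Finset.sum_congr rfl fun i _ => ?_
  ring

lemma av_equiv (σ : α ≃ β) (f : β → ℝ) : (av fun i => f (σ i)) = av f := by
  simp only [av]
  rw [Equiv.sum_comp σ f, Fintype.card_congr σ]

lemma av_prod (f : α × β → ℝ) : av f = av fun i => av fun j => f (i, j) := by
  simp only [av, Fintype.sum_prod_type, Fintype.card_prod, Nat.cast_mul, ← Finset.sum_div]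
  rw [div_div, mul_comm]

lemma av_add_left [AddGroup α] (c : α) (f : α → ℝ) : (av fun i => f (c + i)) = av f :=
  av_equiv (Equiv.addLeft c) f

lemma av_add_right [AddGroup α] (c : α) (f : α → ℝ) : (av fun i => f (i + c)) = av f :=
  av_equiv (Equiv.addRight c) f

/-- the average of a square root is at most the square root of the average -/
lemma av_sqrt_le (f : α → ℝ) (h : ∀ i, 0 ≤ f i) : (av fun i => √(f i)) ≤ √(av f) := by
  refine Real.le_sqrt_of_sq_le ?_
  simp only [av]
  rcases isEmpty_or_nonempty α with h0 | h0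
  · simp
  have hc := card_pos' (α := α)
  rw [div_pow, div_le_div_iff₀ (by positivity) hc]
  have h1 := sq_sum_le_card_mul_sum_sq (s := (Finset.univ : Finset α)) (f := fun i => √(f i))
  rw [Finset.card_univ] at h1
  have h2 : ∑ i, √(f i) ^ 2 = ∑ i, f i := Finset.sum_congr rfl fun i _ => Real.sq_sqrt (h i)
  rw [h2] at h1
  nlinarith

/-- averages over vectors with one more coordinate -/
lemma av_cons {n : ℕ} (f : (Fin (n + 1) → F2) → ℝ) :
    av f = ((av fun y => f (Fin.cons 0 y)) + av fun y => f (Fin.cons 1 y)) / 2 := by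
  have h1 : av f = av fun p : F2 × (Fin n → F2) => f (Fin.cons p.1 p.2) :=
    (av_equiv (Fin.consEquiv fun _ => F2) f).symm
  have h2 : ∀ g : F2 → ℝ, av g = (g 0 + g 1) / 2 := by
    intro g
    have h3 : (Fintype.card F2 : ℝ) = 2 := by rw [ZMod.card]; norm_num
    rw [av, h3]
    congr 1
    exact Fin.sum_univ_two g
  rw [h1, av_prod, h2]

end Av

section Norms

variable {M M' : Type} [Fintype M] [Fintype M']

lemma N2_nonneg (s : ℝ) (h : M → ℝ) (hh : ∀ μ, 0 ≤ h μ) : 0 ≤ N2 s h :=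
  Real.rpow_nonneg (av_nonneg fun μ => Real.rpow_nonneg (hh μ) _) _

lemma N2_mono {s : ℝ} (hs : 0 ≤ s) {h h' : M → ℝ} (hh : ∀ μ, 0 ≤ h μ) (hle : ∀ μ, h μ ≤ h' μ) :
    N2 s h ≤ N2 s h' :=
  Real.rpow_le_rpow (av_nonneg fun μ => Real.rpow_nonneg (hh μ) _)
    (av_mono fun μ => Real.rpow_le_rpow (hh μ) (hle μ) hs) (by positivity)

lemma N2_equiv (s : ℝ) (σ : M ≃ M') (h : M' → ℝ) : (N2 s fun μ => h (σ μ)) = N2 s h := by
  simp only [N2]
  rw [av_equiv σ fun μ => h μ ^ s]

lemma N2_const [Nonempty M] {s : ℝ} (hs : s ≠ 0) {c : ℝ} (hc : 0 ≤ c) :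
    N2 s (fun _ : M => c) = c ^ 2 := by
  rw [N2, av_const, ← Real.rpow_mul hc, mul_div_cancel₀ _ hs, Real.rpow_two]

lemma N2_smul {s : ℝ} (hs : s ≠ 0) {c : ℝ} (hc : 0 ≤ c) (h : M → ℝ) (hh : ∀ μ, 0 ≤ h μ) :
    (N2 s fun μ => c * h μ) = c ^ 2 * N2 s h := by
  simp only [N2]
  have h1 : (av fun μ => (c * h μ) ^ s) = c ^ s * av fun μ => h μ ^ s := by
    rw [← av_mul_left]
    exact av_congr fun μ => Real.mul_rpow hc (hh μ)
  rw [h1, Real.mul_rpow (Real.rpow_nonneg hc _)
    (av_nonneg fun μ => Real.rpow_nonneg (hh μ) _), ← Real.rpow_mul hc, mul_div_cancel₀ _ hs,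
    Real.rpow_two]

lemma pp_nonneg (v : M → ℝ) (μ : M) : 0 ≤ pp v μ := le_max_right _ _

lemma np_nonneg (v : M → ℝ) (μ : M) : 0 ≤ np v μ := le_max_right _ _

end Norms

section Orb

variable {M X : Type} [AddCommGroup M] [Module F2 M] [Fintype M] [Fintype X]

lemma orb_mono {s : ℝ} (hs : 0 ≤ s) (e : M →ₗ[F2] (X → F2)) {h h' : (X → F2) → ℝ}
    (hh : ∀ f, 0 ≤ h f) (hle : ∀ f, h f ≤ h' f) : orb s e h ≤ orb s e h' :=
  av_mono fun _ => N2_mono hs (fun _ => hh _) fun _ => hle _

lemma orb_nonneg (s : ℝ) (e : M →ₗ[F2] (X → F2)) {h : (X → F2) → ℝ}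
    (hh : ∀ f, 0 ≤ h f) : 0 ≤ orb s e h :=
  av_nonneg fun _ => N2_nonneg _ _ fun _ => hh _

end Orb

end

end Pool.Agent.H90.DG
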