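import Pool.Agent.H90.DG.Chr
import Pool.Agent.H90.DG.Av

/-!
MODULE Fou (about 150 lines). Fourier coefficients of functions of finitely many bits.

`parseval`: `Σ_a ft G a ^ 2 = Σ_a av_g av_g' G g G g' chi (a ⬝ᵥ (g + g')) = av_g G g ^ 2` by
`sum_chi` (`g + g' = 0` iff `g = g'`).
`ft_blur`: with `mix g g' = fun x => if S x then g x else g' x`,
`ft (blur S G) a = av_(g, g') G (mix g g') chi (a ⬝ᵥ g)`; `(g, g') ↦ (mix g g', mix g' g)` is an
involution on pairs, so this equals `av_(g, g') G g chi (a ⬝ᵥ mix g g')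
= av_g G g chi (a_S ⬝ᵥ g) * av_g' chi (a_T ⬝ᵥ g')` with `a_S`, `a_T` the restrictions of `a` to `S`
and its complement; the last average is `1` if `a_T = 0`, else `0` (`sum_chi'`).
`ft_oa`: `av_g av_μ G (g + e μ) chi (a ⬝ᵥ g) = av_μ av_g G g chi (a ⬝ᵥ g + a ⬝ᵥ e μ)
= ft G a * av_μ chi (a ⬝ᵥ e μ)`; `μ ↦ a ⬝ᵥ e μ` is a homomorphism to `F2`: if it is not zero, say
`1` at `μ₀`, translation by `μ₀` changes the sign, so the average is `0`.
-/

namespace Pool.Agent.H90.DG

open Finset
open scoped Classical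

noncomputable section

/-- the Fourier coefficient of `G` at `a` -/
def ft {X : Type} [Fintype X] (G : (X → F2) → ℝ) (a : X → F2) : ℝ :=
  av fun g => G g * chi (a ⬝ᵥ g)

/-- the average over the orbit -/
def oa {M X : Type} [AddCommGroup M] [Module F2 M] [Fintype M] [Fintype X]
    (e : M →ₗ[F2] (X → F2)) (G : (X → F2) → ℝ) : (X → F2) → ℝ :=
  fun g => av fun μ => G (g + e μ)

private lemma fo_f2 (a : F2) : a = 0 ∨ a = 1 := by
  fin_cases a
  · exact Or.inl rfl
  · exact Or.inr rfl

private lemma fo_add_self {X : Type} (g : X → F2) : g + g = 0 := by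
  funext x
  exact CharTwo.add_self_eq_zero _

private lemma fo_add_eq_zero {X : Type} (g g' : X → F2) : g' + g = 0 ↔ g' = g := by
  constructor
  · intro h
    calc g' = g' + (g + g) := by rw [fo_add_self, add_zero]
      _ = (g' + g) + g := by rw [add_assoc]
      _ = g := by rw [h, zero_add]
  · rintro rfl
    exact fo_add_self _

theorem parseval {X : Type} [Fintype X] (G : (X → F2) → ℝ) :
    ∑ a, ft G a ^ 2 = av fun g => G g ^ 2 := by
  have hN : (Fintype.card (X → F2) : ℝ) ≠ 0 := card_ne
  have h1 : ∀ a : X → F2, ft G a ^ 2 =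
      (∑ g, ∑ g', G g * G g' * chi (a ⬝ᵥ (g' + g))) / (Fintype.card (X → F2) : ℝ) ^ 2 := by
    intro a
    unfold ft av
    rw [div_pow, sq, Finset.sum_mul_sum]
    congr 1
    refine Finset.sum_congr rfl fun g _ => Finset.sum_congr rfl fun g' _ => ?_
    rw [dotProduct_add, chi_add]
    ring
  rw [Finset.sum_congr rfl fun a _ => h1 a, ← Finset.sum_div, Finset.sum_comm]
  have h2 : ∀ g : X → F2, ∑ a : X → F2, ∑ g', G g * G g' * chi (a ⬝ᵥ (g' + g)) =
      G g ^ 2 * (Fintype.card (X → F2) : ℝ) := by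
    intro g
    rw [Finset.sum_comm]
    have h3 : ∀ g' : X → F2, ∑ a : X → F2, G g * G g' * chi (a ⬝ᵥ (g' + g)) =
        if g' = g then G g ^ 2 * (Fintype.card (X → F2) : ℝ) else 0 := by
      intro g'
      rw [← Finset.mul_sum, sum_chi]
      by_cases h : g' = g
      · subst h
        rw [if_pos (fo_add_self _), if_pos rfl]
        ring
      · rw [if_neg (fun h' => h ((fo_add_eq_zero g g').1 h')), if_neg h, mul_zero]
    rw [Finset.sum_congr rfl fun g' _ => h3 g', Finset.sum_ite_eq' Finset.univ g,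
      if_pos (Finset.mem_univ _)]
  rw [Finset.sum_congr rfl fun g _ => h2 g, ← Finset.sum_mul]
  unfold av
  field_simp

/-- average of a character -/
private lemma fo_av_chi {X : Type} [Fintype X] (y : X → F2) :
    (av fun g : X → F2 => chi (y ⬝ᵥ g)) = if y = 0 then 1 else 0 := by
  have hN : (Fintype.card (X → F2) : ℝ) ≠ 0 := card_ne
  unfold av
  rw [sum_chi']
  split_ifs
  · exact div_self hN
  · exact zero_div _

/-- exchange of the coordinates outside `S` -/
private def foMix {X : Type} (S : X → Prop) : ((X → F2) × (X → F2)) ≃ ((X → F2) × (X → F2)) where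
  toFun p := (fun x => if S x then p.1 x else p.2 x, fun x => if S x then p.2 x else p.1 x)
  invFun p := (fun x => if S x then p.1 x else p.2 x, fun x => if S x then p.2 x else p.1 x)
  left_inv := by
    rintro ⟨g, g'⟩
    refine Prod.ext ?_ ?_ <;>
    · funext x
      by_cases h : S x <;> simp [h]
  right_inv := by
    rintro ⟨g, g'⟩
    refine Prod.ext ?_ ?_ <;>
    · funext x
      by_cases h : S x <;> simp [h]


theorem ft_blur {X : Type} [Fintype X] (S : X → Prop) (G : (X → F2) → ℝ) (a : X → F2) :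
    ft (blur S G) a = if ∀ x, a x ≠ 0 → S x then ft G a else 0 := by
  have h1 : ft (blur S G) a = av fun p : (X → F2) × (X → F2) =>
      G (foMix S p).1 * chi (a ⬝ᵥ p.1) := by
    rw [av_prod]
    unfold ft blur
    refine av_congr fun g => ?_
    rw [← av_mul_right]
    rfl
  have h2 : (av fun p : (X → F2) × (X → F2) => G (foMix S p).1 * chi (a ⬝ᵥ p.1)) =
      av fun p : (X → F2) × (X → F2) => G p.1 * chi (a ⬝ᵥ (foMix S p).1) := by
    rw [← av_equiv (foMix S) fun p : (X → F2) × (X → F2) => G p.1 * chi (a ⬝ᵥ (foMix S p).1)]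
    refine av_congr fun p => ?_
    have h3 : (foMix S) ((foMix S) p) = p := (foMix S).left_inv p
    rw [h3]
  have h3 : ∀ p : (X → F2) × (X → F2), a ⬝ᵥ (foMix S p).1 =
      (fun x => if S x then a x else 0) ⬝ᵥ p.1 + (fun x => if S x then 0 else a x) ⬝ᵥ p.2 := by
    intro p
    unfold dotProduct
    rw [← Finset.sum_add_distrib]
    refine Finset.sum_congr rfl fun x _ => ?_
    change a x * (if S x then p.1 x else p.2 x) = _
    by_cases h : S x <;> simp [h]
  rw [h1, h2]
  have h4 : (av fun p : (X → F2) × (X → F2) => G p.1 * chi (a ⬝ᵥ (foMix S p).1)) =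
      (av fun g : X → F2 => G g * chi ((fun x => if S x then a x else 0) ⬝ᵥ g)) *
      (av fun g' : X → F2 => chi ((fun x => if S x then 0 else a x) ⬝ᵥ g')) := by
    rw [av_prod, ← av_mul_right]
    refine av_congr fun g => ?_
    rw [← av_mul_left]
    refine av_congr fun g' => ?_
    rw [h3, chi_add]
    ring
  rw [h4, fo_av_chi]
  by_cases h : ∀ x, a x ≠ 0 → S x
  · have h5 : (fun x => if S x then 0 else a x) = (0 : X → F2) := by
      funext x
      by_cases hx : S x
      · simp [hx]
      · have : a x = 0 := by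
          by_contra hne
          exact hx (h x hne)
        simp [this]
    have h6 : (fun x => if S x then a x else 0) = a := by
      funext x
      by_cases hx : S x
      · simp [hx]
      · have : a x = 0 := by
          by_contra hne
          exact hx (h x hne)
        simp [this]
    rw [if_pos h5, if_pos h, mul_one, h6]
    rfl
  · have h5 : (fun x => if S x then 0 else a x) ≠ (0 : X → F2) := by
      intro h0
      apply h
      intro x hx
      by_contra hS
      have := congrFun h0 x
      simp only [hS, if_false, Pi.zero_apply] at this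
      exact hx this
    rw [if_neg h5, if_neg h, mul_zero]

theorem ft_oa {M X : Type} [AddCommGroup M] [Module F2 M] [Fintype M] [Fintype X]
    (e : M →ₗ[F2] (X → F2)) (G : (X → F2) → ℝ) (a : X → F2) :
    ft (oa e G) a = if ∀ μ, a ⬝ᵥ e μ = 0 then ft G a else 0 := by
  have h1 : ft (oa e G) a = ft G a * av fun μ => chi (a ⬝ᵥ e μ) := by
    unfold ft oa
    have h2 : (av fun g : X → F2 => (av fun μ => G (g + e μ)) * chi (a ⬝ᵥ g)) =
        av fun μ => av fun g : X → F2 => G (g + e μ) * chi (a ⬝ᵥ g) := by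
      rw [av_comm (fun (μ : M) (g : X → F2) => G (g + e μ) * chi (a ⬝ᵥ g))]
      refine av_congr fun g => ?_
      rw [← av_mul_right]
    rw [h2, ← av_mul_left]
    refine av_congr fun μ => ?_
    rw [← av_add_right (e μ) fun g : X → F2 => G g * chi (a ⬝ᵥ g), ← av_mul_right]
    refine av_congr fun g => ?_
    rw [dotProduct_add, chi_add, mul_assoc, mul_assoc, chi_sq, mul_one]
  rw [h1]
  by_cases h : ∀ μ, a ⬝ᵥ e μ = 0
  · rw [if_pos h]
    have h2 : (av fun μ => chi (a ⬝ᵥ e μ)) = 1 := by
      rw [av_congr (g := fun _ => 1) fun μ => by rw [h μ, chi_zero], av_const]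
    rw [h2, mul_one]
  · rw [if_neg h]
    push Not at h
    obtain ⟨μ₀, hμ₀⟩ := h
    have h2 : (av fun μ => chi (a ⬝ᵥ e μ)) = -av fun μ => chi (a ⬝ᵥ e μ) := by
      rw [← av_neg]
      conv_lhs => rw [← av_add_right μ₀ fun μ => chi (a ⬝ᵥ e μ)]
      refine av_congr fun μ => ?_
      have h3 : a ⬝ᵥ e μ₀ = 1 := (fo_f2 _).resolve_left hμ₀
      rw [map_add, dotProduct_add, chi_add, h3]
      have h4 : chi 1 = -1 := by
        unfold chi
        rw [if_neg one_ne_zero]
      rw [h4]
      ring
    have h3 : (av fun μ => chi (a ⬝ᵥ e μ)) = 0 := by linarith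
    rw [h3, mul_zero]

end

end Pool.Agent.H90.DG
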