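import Pool.Agent.H90.DG.Geo

/-!
MODULE Prb (about 130 lines). The probability that a character survives the restriction.

`good c a`: the support of `a` lies in the graph of `c` and `Σ_z a z z.2 = 0` (in the form
`a ⬝ᵥ code (0, β) = 0` for all `β`). If no `c` is good there is nothing to prove. Let `c₀` be good and
`a z ≠ 0`, `z = (ap c₀ x, x)`, `x ≠ 0` (else `z = 0`). There is a second `z' ≠ z` in the support,
`z' = (ap c₀ x', x')`: otherwise `a ⬝ᵥ code (0, β) = β ⬝ᵥ x` for all `β`, so `x = 0`. Then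
`x' ≠ 0` and `x ≠ x'` (same graph). Choose `β₁, β₂` with `β₁ ⬝ᵥ x = 1`, `β₁ ⬝ᵥ x' = 0`,
`β₂ ⬝ᵥ x = 0`, `β₂ ⬝ᵥ x' = 1` (`dual_pair`: two different nonzero vectors over `F2`: some
coordinate `i` differs, say `x i = 1`, `x' i = 0`: `β₁ = unit i`; `x' j = 1` for some `j`:
`β₂ = unit j` if `x j = 0`, else `unit j + unit i`; the other case by symmetry). For `c` good,
`ap c x = z.1.1`, `ap c x' = z'.1.1`. The map
`(c, s, t) ↦ (fun j => c j + s j • β₁ + t j • β₂)` from `good × AA m × AA m` to `CC` is injective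
(the product of row `j` with `x` is `z.1.1 j + s j`, with `x'` it is `z'.1.1 j + t j`). So
`#good * 2^m * 2^m ≤ card CC`.
-/

namespace Pool.Agent.H90.DG

open Finset
open scoped Classical

noncomputable section

variable {m k : ℕ}

private lemma prb_cases : ∀ a : F2, a = 0 ∨ a = 1 := by decide

private lemma prb_dual (x x' : AA k) (hx' : x' ≠ 0) (i : Fin k) (h : x i = 1) (h' : x' i = 0) :
    ∃ β₁ β₂ : AA k, β₁ ⬝ᵥ x = 1 ∧ β₁ ⬝ᵥ x' = 0 ∧ β₂ ⬝ᵥ x = 0 ∧ β₂ ⬝ᵥ x' = 1 := by
  obtain ⟨j, hj⟩ := Function.ne_iff.1 hx'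
  have hj1 : x' j = 1 := (prb_cases (x' j)).resolve_left hj
  rcases prb_cases (x j) with h0 | h1
  · refine ⟨Pi.single i 1, Pi.single j 1, ?_, ?_, ?_, ?_⟩
    · rw [single_one_dotProduct, h]
    · rw [single_one_dotProduct, h']
    · rw [single_one_dotProduct, h0]
    · rw [single_one_dotProduct, hj1]
  · refine ⟨Pi.single i 1, Pi.single j 1 + Pi.single i 1, ?_, ?_, ?_, ?_⟩
    · rw [single_one_dotProduct, h]
    · rw [single_one_dotProduct, h']
    · rw [add_dotProduct, single_one_dotProduct, single_one_dotProduct, h1, h]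
      exact CharTwo.add_self_eq_zero _
    · rw [add_dotProduct, single_one_dotProduct, single_one_dotProduct, hj1, h', add_zero]

theorem dual_pair (x x' : AA k) (hx : x ≠ 0) (hx' : x' ≠ 0) (hne : x ≠ x') :
    ∃ β₁ β₂ : AA k, β₁ ⬝ᵥ x = 1 ∧ β₁ ⬝ᵥ x' = 0 ∧ β₂ ⬝ᵥ x = 0 ∧ β₂ ⬝ᵥ x' = 1 := by
  obtain ⟨i, hi⟩ := Function.ne_iff.1 hne
  rcases prb_cases (x i) with h | h
  · have h' : x' i = 1 := (prb_cases (x' i)).resolve_left fun h0 => hi (h.trans h0.symm)
    obtain ⟨β₁, β₂, h1, h2, h3, h4⟩ := prb_dual x' x hx i h' h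
    exact ⟨β₂, β₁, h4, h3, h2, h1⟩
  · have h' : x' i = 0 := (prb_cases (x' i)).resolve_right fun h0 => hi (h.trans h0.symm)
    exact prb_dual x x' hx' i h h'

theorem prob_good (a : XG m k → F2) (ha : a ≠ 0) :
    (av fun c : CC m k => if (∀ z, a z ≠ 0 → z.1.1 = ap c z.1.2) ∧
      (∀ β : AA k, a ⬝ᵥ code m k (0, β) = 0) then (1 : ℝ) else 0) ≤ (1 / 2 ^ m) ^ 2 := by
  rw [av, Finset.sum_boole]
  set G : Finset (CC m k) := Finset.univ.filter fun c => (∀ z, a z ≠ 0 → z.1.1 = ap c z.1.2) ∧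
    (∀ β : AA k, a ⬝ᵥ code m k (0, β) = 0) with hG
  rcases G.eq_empty_or_nonempty with h0 | ⟨c₀, hc₀⟩
  · rw [h0, Finset.card_empty, Nat.cast_zero, zero_div]
    positivity
  obtain ⟨hg, hb⟩ : (∀ z, a z ≠ 0 → z.1.1 = ap c₀ z.1.2) ∧
      (∀ β : AA k, a ⬝ᵥ code m k (0, β) = 0) := by simpa [hG] using hc₀
  obtain ⟨z, hz⟩ := Function.ne_iff.1 ha
  have hnz : ∀ w : XG m k, a w ≠ 0 → w.1.2 ≠ 0 := by
    intro w hw h
    have h1 := hg w hw
    have h2 : ap c₀ w.1.2 = 0 := by
      funext j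
      rw [ap, h, dotProduct_zero]
      rfl
    exact w.2 (Prod.ext (h1.trans h2) h)
  have hx := hnz z hz
  obtain ⟨z', hz', hne'⟩ : ∃ z', a z' ≠ 0 ∧ z' ≠ z := by
    by_contra hcon
    push Not at hcon
    obtain ⟨i, hi⟩ := Function.ne_iff.1 hx
    have h1 := hb (Pi.single i 1)
    rw [dotProduct, Finset.sum_eq_single z, code_apply, zero_dotProduct, zero_add,
      single_one_dotProduct] at h1
    · exact (mul_ne_zero hz hi) h1
    · intro w _ hw
      have : a w = 0 := by
        by_contra hw'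
        exact hw (hcon w hw')
      rw [this, zero_mul]
    · intro h
      exact absurd (Finset.mem_univ z) h
  have hx' := hnz z' hz'
  have hxx : z.1.2 ≠ z'.1.2 := by
    intro h
    refine hne' (Subtype.ext (Prod.ext ?_ h.symm))
    rw [hg z hz, hg z' hz', h]
  obtain ⟨β₁, β₂, h11, h12, h21, h22⟩ := dual_pair _ _ hx hx' hxx
  have hcard : G.card * (2 ^ m * 2 ^ m) ≤ Fintype.card (CC m k) := by
    have hc : Fintype.card (AA m) = 2 ^ m := by
      rw [Fintype.card_fun, ZMod.card, Fintype.card_fin]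
    have := Finset.card_le_card_of_injOn (s := G ×ˢ ((Finset.univ : Finset (AA m)) ×ˢ
      (Finset.univ : Finset (AA m)))) (t := (Finset.univ : Finset (CC m k)))
      (fun p => fun j => p.1 j + p.2.1 j • β₁ + p.2.2 j • β₂) (fun _ _ => Finset.mem_univ _) ?_
    · rwa [Finset.card_product, Finset.card_product, Finset.card_univ, Finset.card_univ, hc] at this
    · rintro ⟨c, s, t⟩ hp ⟨c', s', t'⟩ hp' he
      have hcg : (∀ z, a z ≠ 0 → z.1.1 = ap c z.1.2) := by
        have := (Finset.mem_product.1 hp).1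
        rw [hG, Finset.mem_filter] at this
        exact this.2.1
      have hcg' : (∀ z, a z ≠ 0 → z.1.1 = ap c' z.1.2) := by
        have := (Finset.mem_product.1 hp').1
        rw [hG, Finset.mem_filter] at this
        exact this.2.1
      have he' : ∀ j, c j + s j • β₁ + t j • β₂ = c' j + s' j • β₁ + t' j • β₂ :=
        fun j => congrFun he j
      have hs : s = s' := by
        funext j
        have h := congrArg (fun v => v ⬝ᵥ z.1.2) (he' j)
        simp only [add_dotProduct, smul_dotProduct, h11, h21, smul_eq_mul, mul_one, mul_zero,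
          add_zero] at h
        have h1 : c j ⬝ᵥ z.1.2 = c' j ⬝ᵥ z.1.2 :=
          (congrFun (hcg z hz) j).symm.trans (congrFun (hcg' z hz) j)
        rw [h1] at h
        exact add_left_cancel h
      have ht : t = t' := by
        funext j
        have h := congrArg (fun v => v ⬝ᵥ z'.1.2) (he' j)
        simp only [add_dotProduct, smul_dotProduct, h12, h22, smul_eq_mul, mul_one, mul_zero,
          add_zero] at h
        have h1 : c j ⬝ᵥ z'.1.2 = c' j ⬝ᵥ z'.1.2 :=
          (congrFun (hcg z' hz') j).symm.trans (congrFun (hcg' z' hz') j)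
        rw [h1] at h
        exact add_left_cancel h
      subst hs ht
      have hcc : c = c' := by
        funext j
        exact add_right_cancel (add_right_cancel (he' j))
      rw [hcc]
  have hpos : (0 : ℝ) < Fintype.card (CC m k) := by exact_mod_cast Fintype.card_pos
  have h2m : (0 : ℝ) < 2 ^ m := by positivity
  rw [div_le_iff₀ hpos]
  have hR : (G.card : ℝ) * (2 ^ m * 2 ^ m) ≤ (Fintype.card (CC m k) : ℝ) := by exact_mod_cast hcard
  have hmul : (G.card : ℝ) = (1 / 2 ^ m) ^ 2 * ((G.card : ℝ) * (2 ^ m * 2 ^ m)) := by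
    field_simp
  rw [hmul]
  exact mul_le_mul_of_nonneg_left hR (by positivity)

end

end Pool.Agent.H90.DG
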