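import Pool.Agent.H90.DG.Edg
import Pool.Agent.H90.DG.Avg
import Pool.Agent.H90.DG.Fou
import Pool.Agent.H90.DG.Prb

/-!
MODULE Sng (about 150 lines). The second singular value.

`K = card CC * card WW * card (AA k) = |E|`, `eB = (code m k).comp (iB m k)` (so
`eB β = code (0, β)`), `S c = kept code (tw iB bB c)`, `P c G = blur (S c) (oa eB G)`.
`sng_sum`: by `sum_E`, the shift `g ↦ g + eB γ` (`res c (g + eB γ) = res c g + codeB γ` by
`res_code`, `codeB γ + codeB γ = 0`) and `av_blur` (`res_congr`):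
`Σ_E f(e.1) G(e.2) = K av_c av_g f(c, res c g) * P c G g`. With `G = 1`, resp. `f^2` and
`G = 1`: `Σ_E f(e.1) = K av_c av_g f(c, res c g)`, `Σ_E f(e.1)^2 = K av_c av_g f(c, res c g)^2`
(`P c 1 = 1`), and `Σ_E G(e.2)^2 = K av_g G^2` directly from `sum_E`.
`sng_P`: if `av G = 0` (so `ft G 0 = 0`), then `av_c av_g (P c G g)^2 = av_c Σ_a ft (P c G) a ^ 2`
(`parseval`) `= Σ_a ft G a ^ 2 * Pr_c[good c a]` (`ft_blur`, `ft_oa`, `kept_iff`)
`≤ (1/2^m)^2 Σ_a ft G a ^ 2 = (1/2^m)^2 av G^2` (`prob_good`).
`sng`: replace `G` by `G - av G` (changes nothing on the left because `Σ_E f(e.1) = 0`, and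
`av (G - av G)^2 ≤ av G^2`), Cauchy-Schwarz for the averages over `c` and `g`
(`Finset.sum_mul_sq_le_sq_mul_sq` or `Real.inner_le_Lp_mul_Lq`).
-/

namespace Pool.Agent.H90.DG

open Finset Pool.Agent.H76.DTO
open scoped Classical

noncomputable section

variable {m k : ℕ}

/-- averages do not depend on the enumeration of the type -/
private lemma sng_inst {α : Type} (i1 i2 : Fintype α) (f : α → ℝ) :
    @av α i1 f = @av α i2 f := by
  rw [Subsingleton.elim i1 i2]

private lemma sng_sum_inst {α : Type} (i1 i2 : Fintype α) (f : α → ℝ) :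
    (@Finset.univ α i1).sum f = (@Finset.univ α i2).sum f := by
  rw [Subsingleton.elim i1 i2]

private lemma sng_card {α : Type} [Fintype α] [Nonempty α] (f : α → ℝ) :
    ∑ i, f i = (Fintype.card α : ℝ) * av f := by
  rw [av, mul_div_cancel₀ _ (card_ne (α := α))]

private lemma sng_avsum {α β : Type} [Fintype α] [Fintype β] (F : α → β → ℝ) :
    (av fun c => ∑ a, F c a) = ∑ a, av fun c => F c a := by
  simp only [av]
  rw [Finset.sum_comm, Finset.sum_div]

private lemma sng_shift (f : VV m k → ℝ) (G : WW m k → ℝ) (c : CC m k) (γ : AA k) :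
    ∑ g : WW m k, f (c, res c g + codeB k γ) * G g =
      ∑ g : WW m k, f (c, res c g) * G (g + code m k (0, γ)) := by
  rw [← Equiv.sum_comp (Equiv.addRight (code m k (0, γ)))]
  refine Finset.sum_congr rfl fun g _ => ?_
  have h1 : (0 : AA k) = γ + γ := by
    funext j
    exact (CharTwo.add_self_eq_zero _).symm
  have h0 : tr c (0 : AA m) = 0 := by simp [tr]
  have h2 : res c (g + code m k (0, γ)) + codeB k γ = res c g := by
    rw [res_code, h0, add_zero, add_assoc, ← map_add, ← h1, map_zero, add_zero]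
  simp only [Equiv.coe_addRight]
  rw [h2]

private lemma sng_one (f : VV m k → ℝ) (G : WW m k → ℝ) (c : CC m k) :
    ∑ g : WW m k, ∑ γ : AA k, f (c, res c g + codeB k γ) * G g =
      ((Fintype.card (WW m k) : ℝ) * (Fintype.card (AA k) : ℝ)) *
        av fun g : WW m k => f (c, res c g) *
          blur (kept (code m k) (tw (iB m k) (bB m k) c)) (oa ((code m k).comp (iB m k)) G) g := by
  rw [Finset.sum_comm]
  simp only [sng_shift]
  rw [Finset.sum_comm]
  have h1 : ∀ g : WW m k, ∑ γ : AA k, f (c, res c g) * G (g + code m k (0, γ)) =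
      (Fintype.card (AA k) : ℝ) * (oa ((code m k).comp (iB m k)) G g * f (c, res c g)) := by
    intro g
    rw [← Finset.mul_sum, sng_card]
    have h2 : oa ((code m k).comp (iB m k)) G g = av fun γ : AA k => G (g + code m k (0, γ)) := rfl
    rw [h2]
    ring
  simp only [h1]
  have hb : (av fun g : WW m k => oa ((code m k).comp (iB m k)) G g * f (c, res c g)) =
      av fun g : WW m k => blur (kept (code m k) (tw (iB m k) (bB m k) c))
        (oa ((code m k).comp (iB m k)) G) g * f (c, res c g) := by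
    exact (sng_inst _ _ _).trans ((av_blur (kept (code m k) (tw (iB m k) (bB m k) c))
      (oa ((code m k).comp (iB m k)) G) (fun g => f (c, res c g))
      (fun g g' h => by rw [res_congr c g g' h])).trans (sng_inst _ _ _))
  rw [← Finset.mul_sum, sng_card, hb]
  have h3 : (av fun g : WW m k =>
      blur (kept (code m k) (tw (iB m k) (bB m k) c)) (oa ((code m k).comp (iB m k)) G) g *
        f (c, res c g)) = av fun g : WW m k => f (c, res c g) *
      blur (kept (code m k) (tw (iB m k) (bB m k) c)) (oa ((code m k).comp (iB m k)) G) g :=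
    av_congr fun g => mul_comm _ _
  rw [h3]
  ring

theorem sng_sum (f : VV m k → ℝ) (G : WW m k → ℝ) :
    ∑ e ∈ (inst m k).E, f e.1 * G e.2 =
      ((Fintype.card (CC m k) : ℝ) * (Fintype.card (WW m k) : ℝ) * (Fintype.card (AA k) : ℝ)) *
        av fun c : CC m k => av fun g : WW m k => f (c, res c g) *
          blur (kept (code m k) (tw (iB m k) (bB m k) c)) (oa ((code m k).comp (iB m k)) G) g := by
  rw [sum_E fun v g => f v * G g]
  simp only [sng_one]
  rw [← Finset.mul_sum, sng_card]
  ring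

private lemma sng_ft (G : WW m k → ℝ) (c : CC m k) (a : XG m k → F2) :
    ft (blur (kept (code m k) (tw (iB m k) (bB m k) c)) (oa ((code m k).comp (iB m k)) G)) a ^ 2 =
      ft G a ^ 2 * (if (∀ z, a z ≠ 0 → z.1.1 = ap c z.1.2) ∧
        (∀ β : AA k, a ⬝ᵥ code m k (0, β) = 0) then (1 : ℝ) else 0) := by
  rw [ft_blur, ft_oa]
  simp only [kept_iff]
  have h2 : (∀ μ, a ⬝ᵥ ((code m k).comp (iB m k)) μ = 0) ↔
      (∀ β : AA k, a ⬝ᵥ code m k (0, β) = 0) := Iff.rfl
  by_cases h1 : ∀ z : XG m k, a z ≠ 0 → z.1.1 = ap c z.1.2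
  · by_cases h3 : ∀ β : AA k, a ⬝ᵥ code m k (0, β) = 0
    · rw [if_pos h1, if_pos (h2.2 h3), if_pos ⟨h1, h3⟩, mul_one]
    · rw [if_pos h1, if_neg fun h => h3 (h2.1 h), if_neg fun h => h3 h.2, mul_zero,
        zero_pow two_ne_zero]
  · rw [if_neg h1, if_neg fun h => h1 h.1, mul_zero, zero_pow two_ne_zero]

private lemma sng_pars (G : WW m k → ℝ) :
    ∑ a : XG m k → F2, ft G a ^ 2 = av fun g : WW m k => G g ^ 2 := by
  exact (sng_sum_inst _ _ _).trans ((parseval G).trans (sng_inst _ _ _))

theorem sng_P (G : WW m k → ℝ) (hG : av G = 0) :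
    (av fun c : CC m k => av fun g : WW m k =>
      (blur (kept (code m k) (tw (iB m k) (bB m k) c)) (oa ((code m k).comp (iB m k)) G) g) ^ 2) ≤
      (1 / 2 ^ m) ^ 2 * av fun g => G g ^ 2 := by
  simp only [← sng_pars, sng_ft]
  rw [sng_avsum, Finset.mul_sum]
  refine Finset.sum_le_sum fun a _ => ?_
  rw [av_mul_left, mul_comm]
  by_cases ha : a = 0
  · have h0 : ft G a = 0 := by
      rw [ha, ft]
      simp only [zero_dotProduct, chi_zero, mul_one]
      rw [← hG]
      exact sng_inst _ _ _
    rw [h0, zero_pow two_ne_zero, mul_zero, mul_zero]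
  · exact mul_le_mul_of_nonneg_right (prob_good a ha) (sq_nonneg _)

private lemma sng_cs {α : Type} [Fintype α] (A B : α → ℝ) :
    (av fun i => A i * B i) ≤ √(av fun i => A i ^ 2) * √(av fun i => B i ^ 2) := by
  refine le_trans (Real.le_sqrt_of_sq_le ?_)
    (Real.sqrt_mul (av_nonneg fun i => sq_nonneg (A i)) _).le
  simp only [av]
  rw [div_pow, div_mul_div_comm, ← sq]
  exact div_le_div_of_nonneg_right (Finset.sum_mul_sq_le_sq_mul_sq _ _ _) (by positivity)

private lemma sng_var {α : Type} [Fintype α] [Nonempty α] (G : α → ℝ) :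
    (av fun g => (G g - av G) ^ 2) ≤ av fun g => G g ^ 2 := by
  have h : (av fun g => (G g - av G) ^ 2) = (av fun g => G g ^ 2) - av G ^ 2 := by
    have h1 : (av fun g => (G g - av G) ^ 2) =
        av fun g => (G g ^ 2 - 2 * av G * G g) + av G ^ 2 := av_congr fun g => by ring
    rw [h1, av_add, av_sub, av_mul_left, av_const]
    ring
  rw [h]
  linarith [sq_nonneg (av G)]

private lemma sng_blur_gen {X : Type} [Fintype X] (S : X → Prop) (g : X → F2) :
    blur S (fun _ => (1 : ℝ)) g = 1 := by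
  rw [blur, av_const]

private lemma sng_blur_one (c : CC m k) (g : WW m k) :
    blur (kept (code m k) (tw (iB m k) (bB m k) c))
      (oa ((code m k).comp (iB m k)) fun _ => 1) g = 1 := by
  have h1 : (oa ((code m k).comp (iB m k)) fun _ : WW m k => (1 : ℝ)) = fun _ => 1 := by
    funext g
    exact av_const (α := AA k) 1
  rw [h1, sng_blur_gen]

theorem sng (m k : ℕ) : (inst m k).SecondSingular (1 / 2 ^ m) := by
  intro f G hf
  set K : ℝ := (Fintype.card (CC m k) : ℝ) * (Fintype.card (WW m k) : ℝ) *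
    (Fintype.card (AA k) : ℝ) with hK
  have hK0 : 0 ≤ K := by positivity
  -- the sum of the squares on the left
  have hF : ∑ e ∈ (inst m k).E, f e.1 ^ 2 =
      K * av fun p : CC m k × WW m k => f (p.1, res p.1 p.2) ^ 2 := by
    have h := sng_sum (m := m) (k := k) (fun v => f v ^ 2) fun _ => 1
    simp only [sng_blur_one, mul_one] at h
    rw [h, av_prod]
  -- the sum of the squares on the right
  have hGs : ∑ e ∈ (inst m k).E, G e.2 ^ 2 = K * av fun g => G g ^ 2 := by
    rw [sum_E fun _ g => G g ^ 2]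
    simp only [Finset.sum_const, Finset.card_univ, nsmul_eq_mul]
    rw [← Finset.mul_sum, sng_card]
    ring
  -- the mean of the right function is removed
  have hL : ∑ e ∈ (inst m k).E, f e.1 * G e.2 =
      ∑ e ∈ (inst m k).E, f e.1 * (G e.2 - av G) := by
    simp only [mul_sub, Finset.sum_sub_distrib]
    rw [← Finset.sum_mul, hf, zero_mul, sub_zero]
  have hS := sng_sum (m := m) (k := k) f fun g => G g - av G
  have hm : (av fun g => G g - av G) = 0 := by rw [av_sub, av_const, sub_self]
  have hP := sng_P (m := m) (k := k) (fun g => G g - av G) hm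
  set P : CC m k → WW m k → ℝ := fun c g =>
    blur (kept (code m k) (tw (iB m k) (bB m k) c))
      (oa ((code m k).comp (iB m k)) fun g => G g - av G) g with hPdef
  have hcs := sng_cs (fun p : CC m k × WW m k => f (p.1, res p.1 p.2)) fun p => P p.1 p.2
  have hB : (av fun p : CC m k × WW m k => P p.1 p.2 ^ 2) ≤
      (1 / 2 ^ m) ^ 2 * av fun g => G g ^ 2 := by
    rw [av_prod]
    exact hP.trans (mul_le_mul_of_nonneg_left (sng_var G) (by positivity))
  have hB' : √(av fun p : CC m k × WW m k => P p.1 p.2 ^ 2) ≤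
      (1 / 2 ^ m) * √(av fun g => G g ^ 2) := by
    refine (Real.sqrt_le_sqrt hB).trans (le_of_eq ?_)
    rw [Real.sqrt_mul (by positivity), Real.sqrt_sq (by positivity)]
  have hmain : (av fun c : CC m k => av fun g : WW m k => f (c, res c g) * P c g) ≤
      √(av fun p : CC m k × WW m k => f (p.1, res p.1 p.2) ^ 2) *
        ((1 / 2 ^ m) * √(av fun g => G g ^ 2)) := by
    rw [av_prod] at hcs
    exact hcs.trans (mul_le_mul_of_nonneg_left hB' (Real.sqrt_nonneg _))
  rw [hL, hS, hF, hGs, Real.sqrt_mul hK0, Real.sqrt_mul hK0]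
  refine (mul_le_mul_of_nonneg_left hmain hK0).trans (le_of_eq ?_)
  have hsq : √K * √K = K := Real.mul_self_sqrt hK0
  calc K * (√(av fun p : CC m k × WW m k => f (p.1, res p.1 p.2) ^ 2) *
        ((1 / 2 ^ m) * √(av fun g => G g ^ 2)))
      = (√K * √K) * (√(av fun p : CC m k × WW m k => f (p.1, res p.1 p.2) ^ 2) *
        ((1 / 2 ^ m) * √(av fun g => G g ^ 2))) := by rw [hsq]
    _ = _ := by ring

end

end Pool.Agent.H90.DG
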