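import Pool.Agent.H90.DG.SolD

/-!
MODULE SolY (about 90 lines). The vectors of the right labels.

Write `D R = 2^m 2^k`, `β_b = labW m k b`. `⟪yv g b, yv g b'⟫ = Σ_i (1/(DR))^2 chi(ex g z_i)^2
chi((β_b + β_b') · z_i)` with `z_i = labW m k i` running over all points (`Equiv.sum_comp`), by
`chi_add`, `chi_sq` and `sum_chi2` equal to `(1/(DR))^2 * DR` if `β_b = β_b'`
(`β_b + β_b' = 0` iff equal, characteristic two) and `0` otherwise.
`yv_sum`: the coordinate `i` of the sum is `(1/(DR)) chi(ex g z_i) Σ_β chi(β · z_i)`, which is `0` if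
`z_i ≠ 0` and `1` if `z_i = 0` (`ex g 0 = 0`).
-/

namespace Pool.Agent.H90.DG

open Finset Pool.Agent.H76.DTO
open scoped Classical RealInnerProductSpace

noncomputable section

variable {m k : ℕ}

private theorem yv_chi (a s s' : F2) : chi (a + s) * chi (a + s') = chi (s + s') := by
  rw [chi_add, chi_add, chi_add]
  have h := chi_sq a
  calc chi a * chi s * (chi a * chi s') = chi a * chi a * (chi s * chi s') := by ring
    _ = chi s * chi s' := by rw [h, one_mul]

theorem yv_inner (g : WW m k) (b b' : Fin (2 ^ m * 2 ^ k)) :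
    ⟪yv g b, yv g b'⟫ = if b = b' then 1 / ((2 ^ m * 2 ^ k : ℕ) : ℝ) else 0 := by
  have hc : ((2 ^ m * 2 ^ k : ℕ) : ℝ) = (2 : ℝ) ^ m * 2 ^ k := by push_cast; rfl
  have h0 : (0 : ℝ) < (2 : ℝ) ^ m * 2 ^ k := by positivity
  rw [hc]
  have h1 : ⟪yv g b, yv g b'⟫ = ∑ i, (1 / ((2 : ℝ) ^ m * 2 ^ k)) ^ 2 *
      chi (((labW m k b) + (labW m k b')).1 ⬝ᵥ (labW m k i).1 +
        ((labW m k b) + (labW m k b')).2 ⬝ᵥ (labW m k i).2) := by
    rw [PiLp.inner_apply]
    refine Finset.sum_congr rfl fun i _ => ?_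
    have h2 := yv_chi (ex g (labW m k i))
      ((labW m k b).1 ⬝ᵥ (labW m k i).1 + (labW m k b).2 ⬝ᵥ (labW m k i).2)
      ((labW m k b').1 ⬝ᵥ (labW m k i).1 + (labW m k b').2 ⬝ᵥ (labW m k i).2)
    have e : ((labW m k b) + (labW m k b')).1 ⬝ᵥ (labW m k i).1 +
        ((labW m k b) + (labW m k b')).2 ⬝ᵥ (labW m k i).2 =
        ((labW m k b).1 ⬝ᵥ (labW m k i).1 + (labW m k b).2 ⬝ᵥ (labW m k i).2) +
        ((labW m k b').1 ⬝ᵥ (labW m k i).1 + (labW m k b').2 ⬝ᵥ (labW m k i).2) := by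
      rw [Prod.fst_add, Prod.snd_add, add_dotProduct, add_dotProduct]
      ring
    rw [e, ← h2, real_inner_eq_re_inner]
    simp only [yv, RCLike.inner_apply, conj_trivial, RCLike.re_to_real]
    ring
  rw [h1, ← Finset.mul_sum, Equiv.sum_comp (labW m k) fun z =>
    chi (((labW m k b) + (labW m k b')).1 ⬝ᵥ z.1 + ((labW m k b) + (labW m k b')).2 ⬝ᵥ z.2),
    sum_chi2]
  have h3 : (labW m k b) + (labW m k b') = 0 ↔ b = b' := by
    constructor
    · intro h
      apply (labW m k).injective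
      have h4 : ∀ x : AA m × AA k, x + x = 0 := fun x => by
        ext i
        · exact CharTwo.add_self_eq_zero _
        · exact CharTwo.add_self_eq_zero _
      have h5 := h4 (labW m k b')
      exact add_right_cancel (h.trans h5.symm)
    · rintro rfl
      ext i
      · exact CharTwo.add_self_eq_zero _
      · exact CharTwo.add_self_eq_zero _
  by_cases hb : b = b'
  · rw [if_pos (h3.2 hb), if_pos hb]
    field_simp
  · rw [if_neg (fun h => hb (h3.1 h)), if_neg hb, mul_zero]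

theorem yv_sum (g : WW m k) :
    ∑ b, yv g b = EuclideanSpace.single ((labW m k).symm 0) (1 : ℝ) := by
  have h0 : (0 : ℝ) < (2 : ℝ) ^ m * 2 ^ k := by positivity
  ext i
  have h1 : (∑ b, yv g b) i = ∑ b, yv g b i := by
    simp
  rw [h1]
  have h2 : ∀ b, yv g b i = 1 / ((2 : ℝ) ^ m * 2 ^ k) * chi (ex g (labW m k i)) *
      chi ((labW m k i).1 ⬝ᵥ (labW m k b).1 + (labW m k i).2 ⬝ᵥ (labW m k b).2) := by
    intro b
    show 1 / ((2 : ℝ) ^ m * 2 ^ k) *
      chi (ex g (labW m k i) + ((labW m k b).1 ⬝ᵥ (labW m k i).1 +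
        (labW m k b).2 ⬝ᵥ (labW m k i).2)) = _
    rw [chi_add, dotProduct_comm (labW m k b).1, dotProduct_comm (labW m k b).2, mul_assoc]
  rw [Finset.sum_congr rfl fun b _ => h2 b, ← Finset.mul_sum,
    Equiv.sum_comp (labW m k) fun z => chi ((labW m k i).1 ⬝ᵥ z.1 + (labW m k i).2 ⬝ᵥ z.2),
    sum_chi2]
  have h3 : labW m k i = 0 ↔ i = (labW m k).symm 0 := by
    rw [Equiv.eq_symm_apply]
  by_cases hi : labW m k i = 0
  · rw [if_pos hi, ← h3.1 hi]
    have h4 : ex g (labW m k i) = 0 := by rw [ex, dif_pos hi]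
    rw [h4, chi_zero, mul_one, one_div, inv_mul_cancel₀ h0.ne']
    simp
  · rw [if_neg hi, mul_zero]
    have h5 : i ≠ (labW m k).symm 0 := fun h => hi (h3.2 h)
    simp [h5]

end

end Pool.Agent.H90.DG
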