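import Pool.Agent.H90.DG.SolX
import Pool.Agent.H90.DG.SolY

/-!
The perfect solution of the basic semidefinite relaxation of the instance.
-/

namespace Pool.Agent.H90.DG

open Finset Pool.Agent.H76.DTO
open scoped Classical RealInnerProductSpace

noncomputable section

section Generic

variable {V W : Type} {d R N : ℕ} (Φ : LabelCover V W d R)

/-- a perfect solution from orthogonal vectors of equal lengths on the right -/
def mkSolG (x : V → Fin R → EuclideanSpace ℝ (Fin N))
    (y : W → Fin (d * R) → EuclideanSpace ℝ (Fin N))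
    (hR : 0 < d * R)
    (hy : ∀ w b b', ⟪y w b, y w b'⟫ = if b = b' then 1 / ((d * R : ℕ) : ℝ) else 0)
    (hv : ∀ v, ∃ w, (v, w) ∈ Φ.E)
    (hx : ∀ e ∈ Φ.E, ∀ a, x e.1 a =
      ∑ b ∈ Finset.univ.filter (fun b => Φ.π e b = a), y e.2 b) :
    PerfectSolution Φ N := by
  have hsum : ∑ _b : Fin (d * R), 1 / ((d * R : ℕ) : ℝ) = 1 := by
    rw [Finset.sum_const, Finset.card_univ, Fintype.card_fin, nsmul_eq_mul]
    have : ((d * R : ℕ) : ℝ) ≠ 0 := by exact_mod_cast hR.ne'
    field_simp
  exact
  { x := x
    y := y
    orth_x := by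
      intro v a a' h
      obtain ⟨w, hw⟩ := hv v
      rw [hx (v, w) hw a, hx (v, w) hw a', sum_inner]
      refine Finset.sum_eq_zero fun b hb => ?_
      rw [inner_sum]
      refine Finset.sum_eq_zero fun b' hb' => ?_
      rw [hy, if_neg]
      rintro rfl
      exact h ((Finset.mem_filter.1 hb).2.symm.trans (Finset.mem_filter.1 hb').2)
    orth_y := by
      intro w b b' h
      rw [hy, if_neg h]
    norm_x := by
      intro v
      obtain ⟨w, hw⟩ := hv v
      rw [← hsum, ← Finset.sum_fiberwise Finset.univ (fun b => Φ.π (v, w) b)]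
      refine Finset.sum_congr rfl fun a _ => ?_
      rw [hx (v, w) hw a, ← real_inner_self_eq_norm_sq, sum_inner]
      refine Finset.sum_congr rfl fun b hb => ?_
      rw [inner_sum, Finset.sum_eq_single b]
      · rw [hy, if_pos rfl]
      · intro b' _ hne; rw [hy, if_neg (Ne.symm hne)]
      · intro h; exact absurd hb h
    norm_y := by
      intro w
      rw [← hsum]
      refine Finset.sum_congr rfl fun b _ => ?_
      rw [← real_inner_self_eq_norm_sq, hy, if_pos rfl]
    perfect := by
      intro e he
      rw [← hsum]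
      refine Finset.sum_congr rfl fun b _ => ?_
      rw [hx e he, sum_inner, Finset.sum_eq_single b]
      · rw [hy, if_pos rfl]
      · intro b' _ hne; rw [hy, if_neg hne]
      · intro h
        exact absurd (Finset.mem_filter.2 ⟨Finset.mem_univ b, rfl⟩ :
          b ∈ Finset.univ.filter (fun b' => Φ.π e b' = Φ.π e b)) h }

end Generic

/-- **The instance has a perfect solution with common vertex sums.** -/
theorem sol (m k : ℕ) :
    ∃ S : PerfectSolution (inst m k) (2 ^ m * 2 ^ k), S.CommonSum := by
  refine ⟨mkSolG (inst m k) xv yv (by positivity) yv_inner edge_ex xv_eq,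
    EuclideanSpace.single ((labW m k).symm 0) (1 : ℝ), ?_, ?_, ?_⟩
  · rw [PiLp.norm_single]
    simp
  · intro v
    obtain ⟨g, hg⟩ := edge_ex v
    rw [← yv_sum g, ← Finset.sum_fiberwise Finset.univ (fun b => (inst m k).π (v, g) b)]
    exact Finset.sum_congr rfl fun a _ => xv_eq (v, g) hg a
  · intro g
    exact yv_sum g

end

end Pool.Agent.H90.DG
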