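import Pool.Agent.H90.DG.Snd
import Pool.Agent.H90.DG.Sol
import Pool.Agent.H90.DG.Sng
import Pool.Agent.H90.DG.Pad

/-!
The main theorem.
-/

namespace Pool.Agent.H90.DG

open Finset Pool.Agent.H76.DTO
open scoped Classical

noncomputable section

theorem main (m k d : ℕ) (hd : 2 ^ m ≤ d) :
    ∃ (V W : Type) (_ : Fintype V) (_ : Fintype W) (Φ : LabelCover V W d (2 ^ k)) (N : ℕ),
      Φ.E.Nonempty ∧ Φ.SecondSingular (1 / 2 ^ m) ∧ (∃ S : PerfectSolution Φ N, S.CommonSum) ∧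
        Φ.value ≤
          2 * ((2 : ℝ) ^ k) ^ (-((√((2 : ℝ) ^ m) - 1) / (√((2 : ℝ) ^ m) + 1))) := by
  obtain ⟨Φ, hE, h1, h2, h3⟩ := pad m k d hd (1 / 2 ^ m)
    (2 * ((2 : ℝ) ^ k) ^ (-((√((2 : ℝ) ^ m) - 1) / (√((2 : ℝ) ^ m) + 1)))) _
    (sng m k) (sol m k) frac_le
  refine ⟨VV m k, WW m k, inferInstance, inferInstance, Φ, _, ?_, h1, h2, ?_⟩
  · rw [hE]
    obtain ⟨g, hg⟩ := edge_ex (0 : VV m k)
    exact ⟨_, hg⟩
  · have hd0 : 0 < d := lt_of_lt_of_le (by positivity) hd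
    have : Nonempty (Fin (2 ^ k)) := ⟨⟨0, by positivity⟩⟩
    have : Nonempty (Fin (d * 2 ^ k)) := ⟨⟨0, Nat.mul_pos hd0 (by positivity)⟩⟩
    exact ciSup_le fun fg => h3 fg.1 fg.2

end

end Pool.Agent.H90.DG
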