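import Mathlib

/-!
MODULE Blk (about 120 lines, Mathlib only). Two inequalities between real numbers.

`blkS`. Write `A = w ^ β > 0`, `τ = 2 ^ (-β)`. Facts:
(y) Young (`Real.geom_mean_le_arith_mean2_weighted`): `Q ^ (1/(1+β)) (X^2) ^ (β/(1+β)) =
 (A Q) ^ (1/(1+β)) (X^2/w) ^ (β/(1+β)) ≤ (A Q + β X^2 / w) / (1+β)`
 (the powers of `w` cancel: `w ^ (β/(1+β)) w ^ (-β/(1+β)) = 1`), so `(1+β) α ≤ A Q + β X^2 / w`;
(c) `A ≤ 1 ≤ (1+β) τ`, i.e. `2 ^ β ≤ 1 + β` (Bernoulli, `Real.rpow_one_add_le_one_add_mul_self`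
 or concavity of `β ↦ 1 + β` against `2 ^ β` on `[0, 1]`);
(d) Bernoulli for the negative exponent `-β` at `2 w`: `(2 w) ^ (-β) ≥ 1 + β (1 - 2 w)`
 (`Real.one_add_mul_self_le_rpow_one_add` in the version for exponents `≤ 0`:
 `one_add_mul_self_le_rpow_one_add` for `p ≤ 0` may be absent; then use
 `Real.add_pow_le_pow_mul_pow_of_add_eq_one` or `exp`/`log`:
 `(2w)^(-β) = exp (-β log (2w)) ≥ 1 - β log (2w) ≥ 1 - β (2w - 1)`), multiplied by `A`:
 `τ ≥ A (1 + β (1 - 2 w))`.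
Let `ξ = X^2 / (w A)`; the hypothesis `hX` says `ξ ≤ Q`, and `ξ ≥ 0`. Then
`(1+β) τ Q + β (1+β) X^2 (2 - 1/w) - A Q - β X^2 / w
  = Q ((1+β) τ - A) + β ξ A ((1+β)(2w - 1) - 1)
  ≥ ξ ((1+β) τ - A) + β ξ A ((1+β)(2w - 1) - 1)   [by (c) and ξ ≤ Q]
  = ξ (1+β) (τ - A (1 + β (1 - 2w))) ≥ 0          [by (d)].`

`blkP`. Write `A = w ^ b > 0`, `τ = 2 ^ b`. Facts:
(y) Young: `Q ≤ α ^ (1-b) (X^2) ^ b = (A α) ^ (1-b) (X^2 A / w) ^ b ≤ (1-b) A α + b X^2 A / w`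
 (powers of `w`: `b (1-b) + (b-1) b = 0`);
(c) `(1-b) τ ≤ 1 ≤ 1/A` (`1 - b ≤ 2 ^ (-b)`: `2^(-b) = exp (-b log 2) ≥ 1 - b log 2 ≥ 1 - b`);
(d) `(2w) ^ b ≤ 1 + b (2w - 1)` (`0 ≤ b ≤ 1`; `Real.rpow_one_add_le_one_add_mul_self` or the
 weighted arithmetic geometric mean inequality of `2w` and `1`), i.e. `τ A ≤ 1 + b (2w - 1)`.
Let `ξ = X^2 A / w` (`hX` says `X^2 ≤ w^(1-b) Q = w Q / A`, so `0 ≤ ξ ≤ Q`). From (y):
`(1-b) α ≥ (Q - b ξ)/A`, and
`(1-b) α - (1-b) τ Q + b (1-b) X^2 (2 - 1/w)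
  ≥ Q (1/A - (1-b) τ) - b ξ/A + b (1-b) (ξ/A)(2w - 1)
  ≥ ξ (1/A - (1-b) τ) - b ξ/A + b (1-b) (ξ/A)(2w - 1)
  = (ξ/A) (1-b) (1 + b (2w-1) - τ A) ≥ 0.`
Degenerate exponents `β = 0`, `b = 0` are included (`x ^ 0 = 1`).
-/

namespace Pool.Agent.H90.DG

noncomputable section

theorem blkS {β w α Q X : ℝ} (hβ0 : 0 ≤ β) (hβ1 : β ≤ 1) (hw0 : 0 < w) (hw1 : w ≤ 1)
    (hQ : 0 ≤ Q) (hα : α ≤ Q ^ (1 / (1 + β)) * (X ^ 2) ^ (β / (1 + β)))
    (hX : X ^ 2 ≤ w ^ (1 + β) * Q) :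
    α ≤ 2 ^ (-β) * Q + β * X ^ 2 * (2 - 1 / w) := by
  have hb : (0 : ℝ) < 1 + β := by linarith
  obtain ⟨A, hAd⟩ : ∃ A, A = w ^ β := ⟨_, rfl⟩
  have hA : 0 < A := by rw [hAd]; exact Real.rpow_pos_of_pos hw0 _
  have hA1 : A ≤ 1 := by rw [hAd]; exact Real.rpow_le_one hw0.le hw1 hβ0
  obtain ⟨τ, hτd⟩ : ∃ τ : ℝ, τ = 2 ^ (-β) := ⟨_, rfl⟩
  have hτ0 : 0 < τ := by rw [hτd]; positivity
  obtain ⟨η, hη⟩ : ∃ η, η = X ^ 2 / w := ⟨_, rfl⟩
  have hη0 : 0 ≤ η := by rw [hη]; positivity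
  have hXη : X ^ 2 = w * η := by rw [hη]; field_simp
  -- Young
  have hy : (1 + β) * α ≤ A * Q + β * η := by
    have h := Real.geom_mean_le_arith_mean2_weighted (w₁ := 1 / (1 + β)) (w₂ := β / (1 + β))
      (p₁ := A * Q) (p₂ := η) (by positivity) (by positivity) (by positivity) hη0
      (by field_simp)
    have e : (A * Q) ^ (1 / (1 + β)) * η ^ (β / (1 + β)) =
        Q ^ (1 / (1 + β)) * (X ^ 2) ^ (β / (1 + β)) := by
      rw [hXη, Real.mul_rpow hA.le hQ, Real.mul_rpow hw0.le hη0, hAd, ← Real.rpow_mul hw0.le,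
        show β * (1 / (1 + β)) = β / (1 + β) by ring]
      ring
    rw [e] at h
    have h2 := hα.trans h
    have h3 : (1 + β) * (1 / (1 + β) * (A * Q) + β / (1 + β) * η) = A * Q + β * η := by
      field_simp
    calc (1 + β) * α ≤ (1 + β) * (1 / (1 + β) * (A * Q) + β / (1 + β) * η) :=
          mul_le_mul_of_nonneg_left h2 hb.le
      _ = A * Q + β * η := h3
  -- (c)
  have hc : 1 ≤ (1 + β) * τ := by
    have h1 := rpow_one_add_le_one_add_mul_self (s := 1) (p := β) (by norm_num) hβ0 hβ1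
    have h2 : ((1 : ℝ) + 1) ^ β * τ = 1 := by
      rw [hτd, show (1 : ℝ) + 1 = 2 by norm_num, ← Real.rpow_add (by norm_num)]
      simp
    rw [← h2]
    exact mul_le_mul_of_nonneg_right (by linarith) hτ0.le
  -- (d)
  have hd : A * (1 - β * (2 * w - 1)) ≤ τ := by
    have h1 : Real.log (2 * w) ≤ 2 * w - 1 := Real.log_le_sub_one_of_pos (by positivity)
    have h3 : 1 - β * (2 * w - 1) ≤ (2 * w) ^ (-β) := by
      rw [Real.rpow_def_of_pos (by positivity)]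
      have h2 := Real.add_one_le_exp (Real.log (2 * w) * (-β))
      nlinarith [mul_le_mul_of_nonneg_left h1 hβ0]
    have h4 : τ = A * (2 * w) ^ (-β) := by
      have h5 : w ^ β * w ^ (-β) = 1 := by
        rw [← Real.rpow_add hw0]
        simp
      rw [Real.mul_rpow (by norm_num) hw0.le, hAd, hτd]
      calc (2 : ℝ) ^ (-β) = 2 ^ (-β) * 1 := by ring
        _ = 2 ^ (-β) * (w ^ β * w ^ (-β)) := by rw [h5]
        _ = _ := by ring
    rw [h4]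
    exact mul_le_mul_of_nonneg_left h3 hA.le
  have hηQ : η ≤ A * Q := by
    have h1 : w * η ≤ w * (A * Q) := by
      rw [← hXη]
      refine hX.trans (le_of_eq ?_)
      rw [Real.rpow_add hw0, Real.rpow_one, hAd]
      ring
    exact le_of_mul_le_mul_left h1 hw0
  have hD : 0 ≤ (1 + β) * τ - A := by linarith
  have e1 : X ^ 2 * (2 - 1 / w) = η * (2 * w - 1) := by
    rw [hXη]
    field_simp
  have key : 0 ≤ A * ((1 + β) * (τ * Q + β * (η * (2 * w - 1))) - (A * Q + β * η)) := by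
    have h1 : η * ((1 + β) * τ - A) ≤ A * Q * ((1 + β) * τ - A) :=
      mul_le_mul_of_nonneg_right hηQ hD
    have h2 : 0 ≤ η * ((1 + β) * (τ - A * (1 - β * (2 * w - 1)))) :=
      mul_nonneg hη0 (mul_nonneg hb.le (by linarith))
    nlinarith
  have h6 : A * Q + β * η ≤ (1 + β) * (τ * Q + β * (η * (2 * w - 1))) := by
    have := nonneg_of_mul_nonneg_right key hA
    linarith
  have h7 : (1 + β) * α ≤ (1 + β) * (τ * Q + β * (η * (2 * w - 1))) := hy.trans h6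
  have h8 := le_of_mul_le_mul_left h7 hb
  rw [hτd] at h8
  rw [mul_assoc β, e1]
  exact h8

theorem blkP {b w α Q X : ℝ} (hb0 : 0 ≤ b) (hb1 : b < 1) (hw0 : 0 < w) (hw1 : w ≤ 1)
    (hα0 : 0 ≤ α) (hα : Q ≤ α ^ (1 - b) * (X ^ 2) ^ b)
    (hX : X ^ 2 ≤ w ^ (1 - b) * Q) :
    2 ^ b * Q - b * X ^ 2 * (2 - 1 / w) ≤ α := by
  have hb : (0 : ℝ) < 1 - b := by linarith
  obtain ⟨A, hAd⟩ : ∃ A, A = w ^ b := ⟨_, rfl⟩
  have hA : 0 < A := by rw [hAd]; exact Real.rpow_pos_of_pos hw0 _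
  have hA1 : A ≤ 1 := by rw [hAd]; exact Real.rpow_le_one hw0.le hw1 hb0
  obtain ⟨τ, hτd⟩ : ∃ τ : ℝ, τ = 2 ^ b := ⟨_, rfl⟩
  have hτ0 : 0 < τ := by rw [hτd]; positivity
  obtain ⟨η, hη⟩ : ∃ η, η = X ^ 2 / w := ⟨_, rfl⟩
  have hη0 : 0 ≤ η := by rw [hη]; positivity
  have hXη : X ^ 2 = w * η := by rw [hη]; field_simp
  -- Young
  have hy : Q ≤ (1 - b) * (A * α) + b * (A * η) := by
    have h := Real.geom_mean_le_arith_mean2_weighted (w₁ := 1 - b) (w₂ := b)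
      (p₁ := A * α) (p₂ := A * η) hb.le hb0 (by positivity) (by positivity) (by ring)
    have e : (A * α) ^ (1 - b) * (A * η) ^ b = α ^ (1 - b) * (X ^ 2) ^ b := by
      have h5 : A ^ (1 - b) * A ^ b = A := by
        rw [← Real.rpow_add hA]
        simp
      rw [hXη, Real.mul_rpow hA.le hα0, Real.mul_rpow hA.le hη0, Real.mul_rpow hw0.le hη0, ← hAd]
      calc A ^ (1 - b) * α ^ (1 - b) * (A ^ b * η ^ b) =
            (A ^ (1 - b) * A ^ b) * (α ^ (1 - b) * η ^ b) := by ring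
        _ = _ := by rw [h5]; ring
    rw [e] at h
    exact hα.trans h
  -- (c)
  have hc : (1 - b) * τ ≤ 1 := by
    have h1 : 1 - b ≤ (2 : ℝ) ^ (-b) := by
      rw [Real.rpow_def_of_pos (by norm_num)]
      have h2 := Real.add_one_le_exp (Real.log 2 * (-b))
      have h3 : Real.log 2 ≤ 1 := by
        have := Real.log_le_sub_one_of_pos (x := 2) (by norm_num)
        linarith
      nlinarith [mul_le_mul_of_nonneg_left h3 hb0]
    have h2 : (2 : ℝ) ^ (-b) * τ = 1 := by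
      rw [hτd, ← Real.rpow_add (by norm_num)]
      simp
    calc (1 - b) * τ ≤ (2 : ℝ) ^ (-b) * τ := mul_le_mul_of_nonneg_right h1 hτ0.le
      _ = 1 := h2
  -- (d)
  have hd : τ * A ≤ 1 + b * (2 * w - 1) := by
    have h1 := rpow_one_add_le_one_add_mul_self (s := 2 * w - 1) (p := b) (by linarith) hb0
      hb1.le
    rw [show 1 + (2 * w - 1) = 2 * w by ring, Real.mul_rpow (by norm_num) hw0.le] at h1
    rw [hτd, hAd]
    exact h1
  have hηQ : A * η ≤ Q := by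
    have e : w ^ (1 - b) * w ^ b = w := by
      rw [← Real.rpow_add hw0]
      simp
    have h1 : w * (A * η) ≤ w * Q := by
      calc w * (A * η) = w ^ b * X ^ 2 := by rw [hXη, hAd]; ring
        _ ≤ w ^ b * (w ^ (1 - b) * Q) :=
          mul_le_mul_of_nonneg_left hX (Real.rpow_nonneg hw0.le _)
        _ = (w ^ (1 - b) * w ^ b) * Q := by ring
        _ = w * Q := by rw [e]
    exact le_of_mul_le_mul_left h1 hw0
  have e1 : X ^ 2 * (2 - 1 / w) = η * (2 * w - 1) := by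
    rw [hXη]
    field_simp
  have hD : 0 ≤ 1 - (1 - b) * τ * A := by
    have : (1 - b) * τ * A ≤ 1 * 1 := mul_le_mul hc hA1 hA.le zero_le_one
    linarith
  have key : 0 ≤ A * ((1 - b) * (α - (τ * Q - b * (η * (2 * w - 1))))) := by
    have h1 : A * η * (1 - (1 - b) * τ * A) ≤ Q * (1 - (1 - b) * τ * A) :=
      mul_le_mul_of_nonneg_right hηQ hD
    have h2 : 0 ≤ A * η * ((1 - b) * (1 + b * (2 * w - 1) - τ * A)) :=
      mul_nonneg (by positivity) (mul_nonneg hb.le (by linarith))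
    nlinarith
  have h6 := nonneg_of_mul_nonneg_right key hA
  have h7 := nonneg_of_mul_nonneg_right h6 hb
  rw [hτd] at h7
  rw [mul_assoc b, e1]
  linarith

end

end Pool.Agent.H90.DG
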