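import Pool.Agent.H90.DG.Stp

/-!
MODULE Blu (about 110 lines). Averaging over the coordinates outside `S` and the first coordinate.

All from `av_cons` and the pointwise identity: for `i = 0`, resp. `i = j.succ`,
`(if S i then cons t y i else cons t' y' i)` is `t` or `t'`, resp.
`if S j.succ then y j else y' j`; so the vector is `cons (if S 0 then t else t') (...)`.
`blur_kept`: `S 0`. `blur_lost`: not `S 0` (mean over `t'`).
`hs_blur`: `hs` of `blur S a` is `blur` of `hs a` (both cases; for `S 0` by linearity of averages).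
`pp_hd_blur`: for `S 0`, `hd (blur S a) = blur S' (hd a)` and `pp (blur S' q) ≤ blur S' (pp q)`
(an average of a function is at most the average of its positive part); the same for `np`.
`orb_lost`: not `S 0`: `blur S a (cons t z)` does not depend on `t`; use `av_cons` and
`cons_add_code`.
`orb_kept`: `S 0`: `stpS` for `h = blur S a` and monotonicity `orb_mono`.
-/

namespace Pool.Agent.H90.DG

open Finset
open scoped Classical

noncomputable section

section General

variable {X : Type} [Fintype X]

theorem blur_nonneg (S : X → Prop) (a : (X → F2) → ℝ) (ha : ∀ f, 0 ≤ a f) (f : X → F2) :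
    0 ≤ blur S a f := av_nonneg fun _ => ha _

theorem blur_mono (S : X → Prop) {a a' : (X → F2) → ℝ} (h : ∀ f, a f ≤ a' f) (f : X → F2) :
    blur S a f ≤ blur S a' f := av_mono fun _ => h _

end General

variable {M : Type} [AddCommGroup M] [Module F2 M] [Fintype M] {n : ℕ}

/-- the instance used in `blur` and `orb` -/
private abbrev bluI (X : Type) [Fintype X] : Fintype (X → F2) := inferInstance

private lemma blu_cons (i₁ : Fintype (Fin (n + 1) → F2)) (i₂ : Fintype (Fin n → F2))
    (f : (Fin (n + 1) → F2) → ℝ) :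
    @av _ i₁ f = ((@av _ i₂ fun y => f (Fin.cons 0 y)) + @av _ i₂ fun y => f (Fin.cons 1 y)) / 2 := by
  rw [Subsingleton.elim i₁ Pi.instFintype, Subsingleton.elim i₂ Pi.instFintype]
  exact av_cons f

private lemma blu_ext (S : Fin (n + 1) → Prop) (t c : F2) (y z : Fin n → F2) :
    (fun i => if S i then (Fin.cons t y : Fin (n + 1) → F2) i else
      (Fin.cons c z : Fin (n + 1) → F2) i) =
      (Fin.cons (if S 0 then t else c) (fun i => if S i.succ then y i else z i) :
        Fin (n + 1) → F2) := by
  funext i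
  refine Fin.cases ?_ (fun i => ?_) i
  · simp only [Fin.cons_zero]
  · simp only [Fin.cons_succ]

private lemma blu_add {X : Type} [Fintype X] (S : X → Prop) (a b : (X → F2) → ℝ) (f : X → F2) :
    (blur S a f + blur S b f) / 2 = blur S (fun z => (a z + b z) / 2) f := by
  unfold blur
  rw [← av_add, ← av_div]

private lemma blu_sub {X : Type} [Fintype X] (S : X → Prop) (a b : (X → F2) → ℝ) (f : X → F2) :
    (blur S a f - blur S b f) / 2 = blur S (fun z => (a z - b z) / 2) f := by
  unfold blur
  rw [← av_sub, ← av_div]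

private lemma blu_eq (S : Fin (n + 1) → Prop) (a : (Fin (n + 1) → F2) → ℝ) (t : F2)
    (y : Fin n → F2) :
    blur S a (Fin.cons t y) = (blur (fun i => S i.succ)
      (fun z => a (Fin.cons (if S 0 then t else 0) z)) y + blur (fun i => S i.succ)
      (fun z => a (Fin.cons (if S 0 then t else 1) z)) y) / 2 := by
  have h := blu_cons (bluI (Fin (n + 1))) (bluI (Fin n)) fun g : Fin (n + 1) → F2 =>
    a fun i => if S i then (Fin.cons t y : Fin (n + 1) → F2) i else g i
  simp only [blu_ext] at h
  exact h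

theorem blur_kept (S : Fin (n + 1) → Prop) (h0 : S 0) (a : (Fin (n + 1) → F2) → ℝ) (t : F2)
    (y : Fin n → F2) :
    blur S a (Fin.cons t y) = blur (fun i => S i.succ) (fun z => a (Fin.cons t z)) y := by
  rw [blu_eq, if_pos h0, if_pos h0]
  ring

theorem blur_lost (S : Fin (n + 1) → Prop) (h0 : ¬ S 0) (a : (Fin (n + 1) → F2) → ℝ) (t : F2)
    (y : Fin n → F2) :
    blur S a (Fin.cons t y) = blur (fun i => S i.succ) (hs a) y := by
  rw [blu_eq, if_neg h0, if_neg h0, blu_add]
  rfl

private lemma blu_orb (s : ℝ) (e : M →ₗ[F2] (Fin (n + 1) → F2)) (h : (Fin (n + 1) → F2) → ℝ) :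
    orb s e h = ((@av _ (bluI (Fin n)) fun y : Fin n → F2 => N2 s fun μ : M =>
        h (Fin.cons (0 + fst e μ) (y + del e μ))) +
      @av _ (bluI (Fin n)) fun y : Fin n → F2 => N2 s fun μ : M =>
        h (Fin.cons (1 + fst e μ) (y + del e μ))) / 2 := by
  have h1 := blu_cons (bluI (Fin (n + 1))) (bluI (Fin n)) fun f : Fin (n + 1) → F2 =>
    N2 s fun μ : M => h (f + e μ)
  simp only [cons_add_code] at h1
  exact h1

theorem orb_lost (s : ℝ) (e : M →ₗ[F2] (Fin (n + 1) → F2)) (S : Fin (n + 1) → Prop)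
    (h0 : ¬ S 0) (a : (Fin (n + 1) → F2) → ℝ) :
    orb s e (blur S a) = orb s (del e) (blur (fun i => S i.succ) (hs a)) := by
  rw [blu_orb]
  simp only [blur_lost S h0]
  unfold orb
  ring

private lemma blu_hs (S : Fin (n + 1) → Prop) (h0 : S 0) (a : (Fin (n + 1) → F2) → ℝ) :
    hs (blur S a) = blur (fun i => S i.succ) (hs a) := by
  funext y
  unfold hs
  rw [blur_kept S h0, blur_kept S h0, blu_add]

private lemma blu_hd (S : Fin (n + 1) → Prop) (h0 : S 0) (a : (Fin (n + 1) → F2) → ℝ) :
    hd (blur S a) = blur (fun i => S i.succ) (hd a) := by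
  funext y
  unfold hd
  rw [blur_kept S h0, blur_kept S h0, blu_sub]

private lemma blu_pp {X : Type} [Fintype X] (S : X → Prop) (q : (X → F2) → ℝ) (f : X → F2) :
    pp (blur S q) f ≤ blur S (pp q) f :=
  max_le (av_mono fun _ => le_max_left _ _) (av_nonneg fun _ => le_max_right _ _)

private lemma blu_np {X : Type} [Fintype X] (S : X → Prop) (q : (X → F2) → ℝ) (f : X → F2) :
    np (blur S q) f ≤ blur S (np q) f := by
  refine max_le ?_ (av_nonneg fun _ => le_max_right _ _)
  unfold blur
  rw [← av_neg]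
  exact av_mono fun _ => le_max_left _ _

theorem orb_kept {s : ℝ} (hs2 : 2 ≤ s) (e : M →ₗ[F2] (Fin (n + 1) → F2)) (μ₁ : M)
    (h₁ : fst e μ₁ = 1) (S : Fin (n + 1) → Prop) (h0 : S 0) (a : (Fin (n + 1) → F2) → ℝ)
    (ha : ∀ f, 0 ≤ a f) :
    orb s e (blur S a) ≤ orb s (del e) (blur (fun i => S i.succ) (hs a)) +
      (s - 1) * (orb s (con e) (blur (fun i => S i.succ) (pp (hd a))) +
        orb s (con e) (blur (fun i => S i.succ) (np (hd a)))) := by
  have h1 := stpS hs2 e μ₁ h₁ (blur S a) (blur_nonneg S a ha)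
  rw [blu_hs S h0, blu_hd S h0] at h1
  have hs0 : (0 : ℝ) ≤ s := by linarith
  have h2 : orb s (con e) (pp (blur (fun i => S i.succ) (hd a))) ≤
      orb s (con e) (blur (fun i => S i.succ) (pp (hd a))) :=
    orb_mono hs0 _ (fun f => pp_nonneg _ f) fun f => blu_pp _ _ f
  have h3 : orb s (con e) (np (blur (fun i => S i.succ) (hd a))) ≤
      orb s (con e) (blur (fun i => S i.succ) (np (hd a))) :=
    orb_mono hs0 _ (fun f => np_nonneg _ f) fun f => blu_np _ _ f
  refine h1.trans ?_
  have h4 : (s - 1) * (orb s (con e) (pp (blur (fun i => S i.succ) (hd a))) +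
      orb s (con e) (np (blur (fun i => S i.succ) (hd a)))) ≤
      (s - 1) * (orb s (con e) (blur (fun i => S i.succ) (pp (hd a))) +
        orb s (con e) (blur (fun i => S i.succ) (np (hd a)))) :=
    mul_le_mul_of_nonneg_left (add_le_add h2 h3) (by linarith)
  linarith

theorem orb_loop (s : ℝ) (e : M →ₗ[F2] (Fin (n + 1) → F2)) (he : ∀ μ, fst e μ = 0)
    (h : (Fin (n + 1) → F2) → ℝ) :
    orb s e h = (orb s (del e) (fun y => h (Fin.cons 0 y)) +
      orb s (del e) (fun y => h (Fin.cons 1 y))) / 2 := by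
  rw [blu_orb]
  simp only [he, add_zero]
  rfl

end

end Pool.Agent.H90.DG
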