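import Pool.Agent.H90.DG.Code

/-!
MODULE Chr (about 90 lines). Characters of vector spaces over the field of two elements.

`chi_add`, `chi_sq` by cases (`decide` on `F2`). `sum_chi`: if `y j ≠ 0`, adding the unit vector
`j` to `α` is a bijection which changes the sign of `chi (α ⬝ᵥ y)`; so the sum is its own negative.
`sum_chi2`: the sum over pairs is the product of two sums (`chi_add`), or the same argument.
-/

namespace Pool.Agent.H90.DG

open Finset
open scoped Classical

noncomputable section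

private lemma Chr_cases : ∀ a : F2, a = 0 ∨ a = 1 := by decide

private lemma Chr_one_add : (1 : F2) + 1 = 0 := by decide

theorem chi_zero : chi 0 = 1 := by simp [chi]

theorem chi_add (a b : F2) : chi (a + b) = chi a * chi b := by
  rcases Chr_cases a with rfl | rfl <;> rcases Chr_cases b with rfl | rfl <;>
    simp [chi, Chr_one_add]

theorem chi_sq (a : F2) : chi a * chi a = 1 := by
  rcases Chr_cases a with rfl | rfl <;> simp [chi]

/-- sum of a character over the linear functions, on any finite set of coordinates -/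
theorem sum_chi {X : Type} [Fintype X] (y : X → F2) :
    ∑ α : X → F2, chi (α ⬝ᵥ y) = if y = 0 then (Fintype.card (X → F2) : ℝ) else 0 := by
  split_ifs with h
  · subst h
    simp [chi_zero]
  · obtain ⟨j, hj⟩ := Function.ne_iff.1 h
    have hj1 : y j = 1 := (Chr_cases (y j)).resolve_left hj
    have hd : (Pi.single j (1 : F2) : X → F2) ⬝ᵥ y = 1 := by
      rw [single_dotProduct, one_mul, hj1]
    generalize (Pi.single j (1 : F2) : X → F2) = u at hd
    have e : ∑ α : X → F2, chi ((α + u) ⬝ᵥ y) = ∑ α : X → F2, chi (α ⬝ᵥ y) :=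
      Fintype.sum_equiv (Equiv.addRight u) _ _ fun α => by
        rw [Equiv.coe_addRight]
    have e2 : ∀ α : X → F2, chi ((α + u) ⬝ᵥ y) = -chi (α ⬝ᵥ y) := by
      intro α
      rw [add_dotProduct, chi_add, hd]
      simp [chi]
    simp only [e2, Finset.sum_neg_distrib] at e
    linarith

theorem sum_chi' {X : Type} [Fintype X] (y : X → F2) :
    ∑ α : X → F2, chi (y ⬝ᵥ α) = if y = 0 then (Fintype.card (X → F2) : ℝ) else 0 := by
  rw [← sum_chi y]
  exact Finset.sum_congr rfl fun α _ => by rw [dotProduct_comm]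

private lemma Chr_sum {n : ℕ} (q : AA n) :
    ∑ x : AA n, chi (q ⬝ᵥ x) = if q = 0 then (2 : ℝ) ^ n else 0 := by
  have h := sum_chi' q
  rw [Fintype.card_eq_nat_card, Nat.card_fun, Nat.card_zmod, Nat.card_eq_fintype_card,
    Fintype.card_fin] at h
  push_cast at h
  refine Eq.trans (Finset.sum_congr (Finset.ext fun _ => by simp) fun _ _ => rfl) (h.trans ?_)
  by_cases hq : q = 0 <;> simp [hq]

theorem sum_chi2 {m k : ℕ} (p : AA m × AA k) :
    ∑ z : AA m × AA k, chi (p.1 ⬝ᵥ z.1 + p.2 ⬝ᵥ z.2) =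
      if p = 0 then (2 : ℝ) ^ m * 2 ^ k else 0 := by
  simp only [chi_add]
  have e : ∑ z : AA m × AA k, chi (p.1 ⬝ᵥ z.1) * chi (p.2 ⬝ᵥ z.2) =
      (∑ x : AA m, chi (p.1 ⬝ᵥ x)) * ∑ y : AA k, chi (p.2 ⬝ᵥ y) := by
    rw [Finset.sum_mul_sum, Fintype.sum_prod_type]
  rw [e, Chr_sum, Chr_sum]
  rcases p with ⟨a, b⟩
  by_cases ha : a = 0 <;> by_cases hb : b = 0 <;> simp [ha, hb, Prod.ext_iff]

end

end Pool.Agent.H90.DG
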