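import Pool.Agent.H90.DG.Av
import Pool.Agent.H76.DTO.SharpDefs

/-!
The instances: functions on the nonzero points of `F2 ^ m × F2 ^ k`, restricted to graphs of linear
maps `F2 ^ k → F2 ^ m`, with the linear functions as labels.
-/

namespace Pool.Agent.H90.DG

open Finset Pool.Agent.H76.DTO
open scoped Classical

noncomputable section

set_option linter.unusedSectionVars false

/-- vectors of length `m` -/
abbrev AA (m : ℕ) : Type := Fin m → F2

/-- the nonzero points of `F2 ^ m × F2 ^ k` -/
abbrev XG (m k : ℕ) : Type := {z : AA m × AA k // z ≠ 0}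

/-- the nonzero points of `F2 ^ k` -/
abbrev XB (k : ℕ) : Type := {x : AA k // x ≠ 0}

/-- matrices with `m` rows of length `k` -/
abbrev CC (m k : ℕ) : Type := Fin m → AA k

variable {m k : ℕ}

/-- the product of a matrix and a vector -/
def ap (c : CC m k) (x : AA k) : AA m := fun j => c j ⬝ᵥ x

/-- the product of the transposed matrix and a vector -/
def tr (c : CC m k) (α : AA m) : AA k := ∑ j, α j • c j

/-- the linear functions on the nonzero points of `F2 ^ m × F2 ^ k` -/
def code (m k : ℕ) : (AA m × AA k) →ₗ[F2] (XG m k → F2) where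
  toFun p z := p.1 ⬝ᵥ z.1.1 + p.2 ⬝ᵥ z.1.2
  map_add' p q := by
    funext z
    simp only [Prod.fst_add, Prod.snd_add, add_dotProduct, Pi.add_apply]
    ring
  map_smul' t p := by
    funext z
    simp only [Prod.smul_fst, Prod.smul_snd, smul_dotProduct, Pi.smul_apply, smul_eq_mul,
      RingHom.id_apply]
    ring

/-- the linear functions on the nonzero points of `F2 ^ k` -/
def codeB (k : ℕ) : AA k →ₗ[F2] (XB k → F2) where
  toFun β x := β ⬝ᵥ x.1
  map_add' p q := by
    funext z
    simp only [add_dotProduct, Pi.add_apply]
  map_smul' t p := by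
    funext z
    simp only [smul_dotProduct, Pi.smul_apply, smul_eq_mul, RingHom.id_apply]

lemma code_apply (p : AA m × AA k) (z : XG m k) :
    code m k p z = p.1 ⬝ᵥ z.1.1 + p.2 ⬝ᵥ z.1.2 := rfl

lemma codeB_apply (β : AA k) (x : XB k) : codeB k β x = β ⬝ᵥ x.1 := rfl

/-- the point over `x` in the graph of `c` -/
def up (c : CC m k) (x : XB k) : XG m k :=
  ⟨(ap c x.1, x.1), fun h => x.2 (congrArg Prod.snd h)⟩

/-- the restriction of a function to the graph of `c` -/
def res (c : CC m k) (g : XG m k → F2) : XB k → F2 := fun x => g (up c x)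

/-- left vertices: a matrix and a function on the nonzero points of `F2 ^ k` -/
abbrev VV (m k : ℕ) : Type := CC m k × (XB k → F2)

/-- right vertices: functions on the nonzero points of `F2 ^ m × F2 ^ k` -/
abbrev WW (m k : ℕ) : Type := XG m k → F2

/-- adjacency: the restriction of the right function differs from the left function by a linear
function -/
def Adj (v : VV m k) (g : WW m k) : Prop := ∃ γ : AA k, res v.1 g = v.2 + codeB k γ

/-- the linear function by which the two functions of an edge differ -/
def gam (v : VV m k) (g : WW m k) : AA k := if h : Adj v g then Classical.choose h else 0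

lemma gam_spec {v : VV m k} {g : WW m k} (h : Adj v g) : res v.1 g = v.2 + codeB k (gam v g) := by
  rw [gam, dif_pos h]
  exact Classical.choose_spec h

/-- the left labels -/
def labV (k : ℕ) : Fin (2 ^ k) ≃ AA k :=
  (Fintype.equivFinOfCardEq (by rw [Fintype.card_fun, ZMod.card, Fintype.card_fin])).symm

/-- the right labels -/
def labW (m k : ℕ) : Fin (2 ^ m * 2 ^ k) ≃ AA m × AA k :=
  (Fintype.equivFinOfCardEq (by
    rw [Fintype.card_prod, Fintype.card_fun, Fintype.card_fun, ZMod.card, Fintype.card_fin,
      Fintype.card_fin])).symm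

/-- the map of an edge -/
def pj (v : VV m k) (g : WW m k) (p : AA m × AA k) : AA k := p.2 + tr v.1 p.1 + gam v g

lemma pj_card (v : VV m k) (g : WW m k) (a : Fin (2 ^ k)) :
    (Finset.univ.filter fun b => (labV k).symm (pj v g (labW m k b)) = a).card ≤ 2 ^ m := by
  have h0 : 2 ^ m = (Finset.univ : Finset (AA m)).card := by
    rw [Finset.card_univ, Fintype.card_fun, ZMod.card, Fintype.card_fin]
  refine (Finset.card_le_card_of_injOn (t := (Finset.univ : Finset (AA m)))
    (fun b => (labW m k b).1) (fun b _ => Finset.mem_univ _) ?_).trans h0.ge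
  intro b hb b' hb' h
  have h1 : (labV k).symm (pj v g (labW m k b)) = a := by simpa using hb
  have h2 : (labV k).symm (pj v g (labW m k b')) = a := by simpa using hb'
  have h3 := (labV k).symm.injective (h1.trans h2.symm)
  have h4 : (labW m k b).1 = (labW m k b').1 := h
  rw [pj, pj, h4] at h3
  exact (labW m k).injective (Prod.ext h4 (by simpa using h3))

/-- **The instance.** -/
def inst (m k : ℕ) : LabelCover (VV m k) (WW m k) (2 ^ m) (2 ^ k) where
  E := Finset.univ.filter fun e => Adj e.1 e.2
  π e b := (labV k).symm (pj e.1 e.2 (labW m k b))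
  dto1 := fun e _ a => pj_card e.1 e.2 a

lemma mem_inst (e : VV m k × WW m k) : e ∈ (inst m k).E ↔ Adj e.1 e.2 := by
  simp [inst]

lemma inst_pi (e : VV m k × WW m k) (b : Fin (2 ^ m * 2 ^ k)) :
    (inst m k).π e b = (labV k).symm (pj e.1 e.2 (labW m k b)) := rfl

/-- the map `c ↦ (0, c)` of the twists -/
def iB (m k : ℕ) : AA k →ₗ[F2] (AA m × AA k) := LinearMap.inr F2 (AA m) (AA k)

/-- the base point of the twists -/
def bB (m k : ℕ) : Fin m → AA m × AA k := fun j => (Pi.single j 1, 0)

/-- the number of functions which are moved to `g'` by the linear functions `T g` -/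
def cnt {M X : Type} [AddCommGroup M] [Module F2 M] [Fintype M] [Fintype X]
    (e : M →ₗ[F2] (X → F2)) (T : (X → F2) → M) (g' : X → F2) : ℝ :=
  ((Finset.univ.filter fun g => g + e (T g) = g').card : ℝ)

/-- the sign of an element of the field of two elements -/
def chi (t : F2) : ℝ := if t = 0 then 1 else -1

end

end Pool.Agent.H90.DG
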