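import Pool.Agent.H90.DG.Av

/-!
MODULE Cos (about 120 lines). Splitting the code into the two cosets of the words with first
coordinate zero.

`av_split`: `m ↦ (first coordinate, m - (first coordinate) μ₁)` is a bijection of `M` with
`F2 × ker`; see `sum_split`, `card_split` in `Pool/Agent/H18/DTO/Orb.lean` for a proof over any
field (copy and adapt; there the second coset is `1 • μ₁ + m`).
`cosS`: for fixed `y` let `x = av_{μ in ker} (max (q (y + con e μ)) 0)^s` and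
`x' = av_{μ in ker} (max (-q (y + del e μ₁ + con e μ)) 0)^s`. By `av_split` the average of
`(pp (sg e q y))^s` is `(x + x')/2` (`fst e μ = 0` on the first coset, `fst e (μ₁ + μ) = 1` on the
second), so `2^(2/s-1) N2 s (pp (sg e q y)) = 2^(2/s-1) ((x + x')/2)^(2/s) = (x + x')^(2/s)/2
≤ (x^(2/s) + x'^(2/s))/2` (`2/s ≤ 1`: `Real.rpow_add_le_add_rpow` or
`NNReal.rpow_add_le_add_rpow`). Average over `y`; the translation by `del e μ₁` disappears
(`av_add_right`): the first terms give `orb s (con e) (pp q) / 2`, the second ones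
`orb s (con e) (np q) / 2`. The same for `np (sg e q y)` with `pp` and `np` exchanged.
`cosP`: the same with `x^(2/p) + x'^(2/p) ≤ (x + x')^(2/p)` (`2/p ≥ 1`: `Real.add_rpow_le_rpow_add`
or `NNReal.add_rpow_le_rpow_add`).
-/

namespace Pool.Agent.H90.DG

open Finset
open scoped Classical

noncomputable section

variable {M : Type} [AddCommGroup M] [Module F2 M] [Fintype M] {n : ℕ}

private lemma cos_sum (e : M →ₗ[F2] (Fin (n + 1) → F2)) (m₁ : M) (h₁ : fst e m₁ = 1)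
    (Ψ : M → ℝ) : ∑ m, Ψ m = ∑ s : F2, ∑ m : LinearMap.ker (fst e), Ψ (s • m₁ + m.1) := by
  rw [← Fintype.sum_prod_type' (f := fun (s : F2) (m : LinearMap.ker (fst e)) =>
    Ψ (s • m₁ + m.1))]
  refine (Fintype.sum_equiv
    { toFun := fun p : F2 × LinearMap.ker (fst e) => p.1 • m₁ + p.2.1
      invFun := fun m => (fst e m, ⟨m - fst e m • m₁, by
        rw [LinearMap.mem_ker, map_sub, map_smul, h₁]
        simp⟩)
      left_inv := ?_
      right_inv := ?_ } _ _ (fun p => rfl)).symm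
  · rintro ⟨s, m, hm⟩
    have hm' : fst e m = 0 := hm
    have h2 : fst e (s • m₁ + m) = s := by
      rw [map_add, map_smul, h₁, hm']
      simp
    refine Prod.ext h2 (Subtype.ext ?_)
    simp only [h2]
    abel
  · intro m
    simp

private lemma cos_two (g : F2 → ℝ) : ∑ s, g s = g 0 + g 1 := Fin.sum_univ_two g

private lemma cos_card (e : M →ₗ[F2] (Fin (n + 1) → F2)) (m₁ : M) (h₁ : fst e m₁ = 1) :
    (Fintype.card M : ℝ) = 2 * (Fintype.card (LinearMap.ker (fst e)) : ℝ) := by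
  have h := cos_sum e m₁ h₁ (fun _ => 1)
  rw [cos_two] at h
  simp only [Finset.sum_const, Finset.card_univ, nsmul_eq_mul, mul_one] at h
  rw [h, two_mul]

theorem av_split (e : M →ₗ[F2] (Fin (n + 1) → F2)) (μ₁ : M) (h₁ : fst e μ₁ = 1) (Ψ : M → ℝ) :
    av Ψ = ((av fun μ : LinearMap.ker (fst e) => Ψ μ.1) +
      av fun μ : LinearMap.ker (fst e) => Ψ (μ₁ + μ.1)) / 2 := by
  simp only [av]
  rw [cos_sum e μ₁ h₁, cos_card e μ₁ h₁, cos_two]
  simp only [zero_smul, one_smul, zero_add]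
  rw [← add_div, div_div, mul_comm (2 : ℝ)]

/-- the average of the power over the orbit of the subcode -/
private def cosA (s : ℝ) (e : M →ₗ[F2] (Fin (n + 1) → F2)) (h : (Fin n → F2) → ℝ)
    (y : Fin n → F2) : ℝ := av fun μ : LinearMap.ker (fst e) => h (y + con e μ) ^ s

private lemma cosA_nonneg (s : ℝ) (e : M →ₗ[F2] (Fin (n + 1) → F2)) {h : (Fin n → F2) → ℝ}
    (hh : ∀ y, 0 ≤ h y) (y : Fin n → F2) : 0 ≤ cosA s e h y :=
  av_nonneg fun _ => Real.rpow_nonneg (hh _) _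

private lemma cos_inst {α : Type} (i j : Fintype α) (f : α → ℝ) : @av α i f = @av α j f := by
  rw [Subsingleton.elim i j]

private lemma cosA_orb (s : ℝ) (e : M →ₗ[F2] (Fin (n + 1) → F2)) (h : (Fin n → F2) → ℝ) :
    orb s (con e) h = av fun y => cosA s e h y ^ (2 / s) := cos_inst _ _ _

private lemma cos_sg0 (e : M →ₗ[F2] (Fin (n + 1) → F2)) (q : (Fin n → F2) → ℝ)
    (y : Fin n → F2) (μ : LinearMap.ker (fst e)) : sg e q y μ.1 = q (y + con e μ) := by
  have h : fst e μ.1 = 0 := μ.2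
  unfold sg
  rw [if_pos h, con_apply]

private lemma cos_sg1 (e : M →ₗ[F2] (Fin (n + 1) → F2)) (μ₁ : M) (h₁ : fst e μ₁ = 1)
    (q : (Fin n → F2) → ℝ) (y : Fin n → F2) (μ : LinearMap.ker (fst e)) :
    sg e q y (μ₁ + μ.1) = -q (y + del e μ₁ + con e μ) := by
  have h : fst e μ.1 = 0 := μ.2
  have h2 : fst e (μ₁ + μ.1) = 1 := by rw [map_add, h₁, h, add_zero]
  unfold sg
  rw [if_neg (by rw [h2]; exact one_ne_zero), con_apply, map_add, add_assoc]

private lemma cos_pp (s : ℝ) (e : M →ₗ[F2] (Fin (n + 1) → F2)) (μ₁ : M) (h₁ : fst e μ₁ = 1)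
    (q : (Fin n → F2) → ℝ) (y : Fin n → F2) : N2 s (pp (sg e q y)) =
      ((cosA s e (pp q) y + cosA s e (np q) (y + del e μ₁)) / 2) ^ (2 / s) := by
  unfold N2
  rw [av_split e μ₁ h₁]
  have e1 : (av fun μ : LinearMap.ker (fst e) => pp (sg e q y) μ.1 ^ s) =
      cosA s e (pp q) y := av_congr fun μ => by
    unfold pp
    rw [cos_sg0]
  have e2 : (av fun μ : LinearMap.ker (fst e) => pp (sg e q y) (μ₁ + μ.1) ^ s) =
      cosA s e (np q) (y + del e μ₁) := av_congr fun μ => by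
    unfold pp np
    rw [cos_sg1 e μ₁ h₁]
  rw [e1, e2]

private lemma cos_np (s : ℝ) (e : M →ₗ[F2] (Fin (n + 1) → F2)) (μ₁ : M) (h₁ : fst e μ₁ = 1)
    (q : (Fin n → F2) → ℝ) (y : Fin n → F2) : N2 s (np (sg e q y)) =
      ((cosA s e (np q) y + cosA s e (pp q) (y + del e μ₁)) / 2) ^ (2 / s) := by
  unfold N2
  rw [av_split e μ₁ h₁]
  have e1 : (av fun μ : LinearMap.ker (fst e) => np (sg e q y) μ.1 ^ s) =
      cosA s e (np q) y := av_congr fun μ => by
    unfold np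
    rw [cos_sg0]
  have e2 : (av fun μ : LinearMap.ker (fst e) => np (sg e q y) (μ₁ + μ.1) ^ s) =
      cosA s e (pp q) (y + del e μ₁) := av_congr fun μ => by
    unfold pp np
    rw [cos_sg1 e μ₁ h₁, neg_neg]
  rw [e1, e2]

private lemma cos_half {t x : ℝ} (hx : 0 ≤ x) : 2 ^ (t - 1) * (x / 2) ^ t = x ^ t / 2 := by
  rw [Real.div_rpow hx (by norm_num), Real.rpow_sub (by norm_num), Real.rpow_one]
  have h : (0 : ℝ) < 2 ^ t := Real.rpow_pos_of_pos (by norm_num) _
  field_simp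

private lemma cos_lhs {s : ℝ} (e : M →ₗ[F2] (Fin (n + 1) → F2)) (μ₁ : M)
    (h₁ : fst e μ₁ = 1) (q : (Fin n → F2) → ℝ) (y : Fin n → F2) :
    2 ^ (2 / s - 1) * (N2 s (pp (sg e q y)) + N2 s (np (sg e q y))) =
      ((cosA s e (pp q) y + cosA s e (np q) (y + del e μ₁)) ^ (2 / s) +
        (cosA s e (np q) y + cosA s e (pp q) (y + del e μ₁)) ^ (2 / s)) / 2 := by
  have n1 := fun y => cosA_nonneg s e (h := pp q) (fun y => pp_nonneg q y) y
  have n2 := fun y => cosA_nonneg s e (h := np q) (fun y => np_nonneg q y) y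
  rw [cos_pp s e μ₁ h₁, cos_np s e μ₁ h₁, mul_add, cos_half (add_nonneg (n1 _) (n2 _)),
    cos_half (add_nonneg (n2 _) (n1 _)), add_div]

private lemma cos_rhs {s : ℝ} (e : M →ₗ[F2] (Fin (n + 1) → F2)) (μ₁ : M)
    (q : (Fin n → F2) → ℝ) :
    (av fun y => ((cosA s e (pp q) y ^ (2 / s) + cosA s e (np q) (y + del e μ₁) ^ (2 / s)) +
        (cosA s e (np q) y ^ (2 / s) + cosA s e (pp q) (y + del e μ₁) ^ (2 / s))) / 2) =
      orb s (con e) (pp q) + orb s (con e) (np q) := by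
  rw [av_div, av_add, av_add, av_add, cosA_orb, cosA_orb,
    av_add_right (del e μ₁) (fun y => cosA s e (np q) y ^ (2 / s)),
    av_add_right (del e μ₁) (fun y => cosA s e (pp q) y ^ (2 / s))]
  ring

theorem cosS {s : ℝ} (hs : 2 ≤ s) (e : M →ₗ[F2] (Fin (n + 1) → F2)) (μ₁ : M)
    (h₁ : fst e μ₁ = 1) (q : (Fin n → F2) → ℝ) :
    (av fun y => 2 ^ (2 / s - 1) * (N2 s (pp (sg e q y)) + N2 s (np (sg e q y)))) ≤
      orb s (con e) (pp q) + orb s (con e) (np q) := by
  rw [← cos_rhs e μ₁ q]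
  refine av_mono fun y => ?_
  rw [cos_lhs e μ₁ h₁]
  have n1 := fun y => cosA_nonneg s e (h := pp q) (fun y => pp_nonneg q y) y
  have n2 := fun y => cosA_nonneg s e (h := np q) (fun y => np_nonneg q y) y
  have t0 : 0 ≤ 2 / s := by positivity
  have t1 : 2 / s ≤ 1 := (div_le_one (by linarith)).2 hs
  have a1 := Real.rpow_add_le_add_rpow (n1 y) (n2 (y + del e μ₁)) t0 t1
  have a2 := Real.rpow_add_le_add_rpow (n2 y) (n1 (y + del e μ₁)) t0 t1
  linarith

theorem cosP {p : ℝ} (hp1 : 1 < p) (hp2 : p ≤ 2) (e : M →ₗ[F2] (Fin (n + 1) → F2)) (μ₁ : M)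
    (h₁ : fst e μ₁ = 1) (q : (Fin n → F2) → ℝ) :
    orb p (con e) (pp q) + orb p (con e) (np q) ≤
      av fun y => 2 ^ (2 / p - 1) * (N2 p (pp (sg e q y)) + N2 p (np (sg e q y))) := by
  rw [← cos_rhs e μ₁ q]
  refine av_mono fun y => ?_
  rw [cos_lhs e μ₁ h₁]
  have n1 := fun y => cosA_nonneg p e (h := pp q) (fun y => pp_nonneg q y) y
  have n2 := fun y => cosA_nonneg p e (h := np q) (fun y => np_nonneg q y) y
  have t1 : 1 ≤ 2 / p := (one_le_div (by linarith)).2 hp2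
  have a1 := Real.add_rpow_le_rpow_add (n1 y) (n2 (y + del e μ₁)) t1
  have a2 := Real.add_rpow_le_rpow_add (n2 y) (n1 (y + del e μ₁)) t1
  linarith

end

end Pool.Agent.H90.DG
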