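import Pool.Agent.H90.DG.Av

/-!
MODULE Cvx (about 120 lines). The square of the `L ^ r` norm along a line.

`g t = N2 r (u + t v)`, `w = u + t v > 0` for `|t| < 1` (because `u > 0`, `|v| ≤ u`). With
`S = av (w ^ r) > 0`, `X = av (w ^ (r - 1) v)`, `α = av (w ^ (r - 2) v ^ 2)` one has
`S' = r X`, `X' = (r - 1) α`, hence for `g = S ^ (2 / r)`:
`g' = 2 S ^ (2 / r - 1) X` and
`g'' = 2 ((r - 1) S ^ (2 / r - 1) α + (2 - r) S ^ (2 / r - 2) X ^ 2) = 2 HS r w v`.
So `t ↦ g t - K t ^ 2` is continuous on `[-1, 1]` with second derivative `2 HS r w v - 2 K` on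
`(-1, 1)`; if this is `≤ 0` the function is concave on `[-1, 1]` and its value at the midpoint `0`
is at least the mean of its values at `1` and `-1`. Similarly convex if `≥ 0`.
-/

namespace Pool.Agent.H90.DG

open Finset
open scoped Classical

noncomputable section

set_option linter.unusedSectionVars false

variable {M : Type} [Fintype M] [Nonempty M]

private lemma cvx_av {p : ℝ} (c u v : M → ℝ) {t : ℝ} (hw : ∀ μ, 0 < u μ + t * v μ) :
    HasDerivAt (fun t : ℝ => av fun μ => (u μ + t * v μ) ^ p * c μ)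
      (p * av fun μ => (u μ + t * v μ) ^ (p - 1) * (v μ * c μ)) t := by
  have h1 : ∀ μ, HasDerivAt (fun t : ℝ => (u μ + t * v μ) ^ p * c μ)
      (p * ((u μ + t * v μ) ^ (p - 1) * (v μ * c μ))) t := by
    intro μ
    have h2 : HasDerivAt (fun t : ℝ => u μ + t * v μ) (v μ) t := by
      simpa using ((hasDerivAt_id t).mul_const (v μ)).const_add (u μ)
    have h3 := (h2.rpow_const (p := p) (Or.inl (hw μ).ne')).mul_const (c μ)
    have e : v μ * p * (u μ + t * v μ) ^ (p - 1) * c μ =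
        p * ((u μ + t * v μ) ^ (p - 1) * (v μ * c μ)) := by ring
    rw [← e]
    exact h3
  have h4 := (HasDerivAt.fun_sum (u := Finset.univ) fun μ _ => h1 μ).div_const
    (Fintype.card M : ℝ)
  have e : (∑ μ, p * ((u μ + t * v μ) ^ (p - 1) * (v μ * c μ))) / (Fintype.card M : ℝ) =
      p * av fun μ => (u μ + t * v μ) ^ (p - 1) * (v μ * c μ) := by
    rw [av, ← Finset.mul_sum, mul_div_assoc]
  rw [← e]
  exact h4

private lemma cvx_pos (u v : M → ℝ) (hu : ∀ μ, 0 < u μ) (hv : ∀ μ, |v μ| ≤ u μ) {t : ℝ}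
    (ht : |t| < 1) (μ : M) : 0 < u μ + t * v μ := by
  have h1 : |t * v μ| < u μ := by
    rw [abs_mul]
    rcases (abs_nonneg (v μ)).eq_or_lt with h | h
    · rw [← h, mul_zero]
      exact hu μ
    · calc |t| * |v μ| < 1 * |v μ| := mul_lt_mul_of_pos_right ht h
        _ ≤ u μ := by rw [one_mul]; exact hv μ
  have h2 := neg_abs_le (t * v μ)
  linarith

private lemma cvx_der {r : ℝ} (hr : 1 < r) (u v : M → ℝ) (hu : ∀ μ, 0 < u μ)
    (hv : ∀ μ, |v μ| ≤ u μ) {t : ℝ} (ht : |t| < 1) :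
    HasDerivAt (fun t : ℝ => N2 r fun μ => u μ + t * v μ)
      (2 * (av fun μ => (u μ + t * v μ) ^ r) ^ (2 / r - 1) *
        av fun μ => (u μ + t * v μ) ^ (r - 1) * v μ) t ∧
    HasDerivAt (fun t : ℝ => 2 * (av fun μ => (u μ + t * v μ) ^ r) ^ (2 / r - 1) *
        av fun μ => (u μ + t * v μ) ^ (r - 1) * v μ)
      (2 * HS r (fun μ => u μ + t * v μ) v) t := by
  have hw := cvx_pos u v hu hv ht
  have hr0 : r ≠ 0 := by linarith
  have hS : 0 < av fun μ => (u μ + t * v μ) ^ r := av_pos fun μ => Real.rpow_pos_of_pos (hw μ) _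
  have d1 : HasDerivAt (fun t : ℝ => av fun μ => (u μ + t * v μ) ^ r)
      (r * av fun μ => (u μ + t * v μ) ^ (r - 1) * v μ) t := by
    have := cvx_av (p := r) (fun _ => 1) u v hw
    simpa using this
  have d2 : HasDerivAt (fun t : ℝ => av fun μ => (u μ + t * v μ) ^ (r - 1) * v μ)
      ((r - 1) * av fun μ => (u μ + t * v μ) ^ (r - 2) * v μ ^ 2) t := by
    have := cvx_av (p := r - 1) v u v hw
    have e1 : r - 1 - 1 = r - 2 := by ring
    have e2 : ∀ μ, v μ * v μ = v μ ^ 2 := fun μ => by ring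
    simpa only [e1, e2] using this
  constructor
  · have h := d1.rpow_const (p := 2 / r) (Or.inl hS.ne')
    have e : r * (av fun μ => (u μ + t * v μ) ^ (r - 1) * v μ) * (2 / r) *
        (av fun μ => (u μ + t * v μ) ^ r) ^ (2 / r - 1) =
        2 * (av fun μ => (u μ + t * v μ) ^ r) ^ (2 / r - 1) *
        av fun μ => (u μ + t * v μ) ^ (r - 1) * v μ := by
      field_simp
    rw [← e]
    exact h
  · have h := ((d1.rpow_const (p := 2 / r - 1) (Or.inl hS.ne')).const_mul 2).mul d2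
    have e0 : 2 / r - 1 - 1 = 2 / r - 2 := by ring
    rw [e0] at h
    have e : 2 * (r * (av fun μ => (u μ + t * v μ) ^ (r - 1) * v μ) * (2 / r - 1) *
        (av fun μ => (u μ + t * v μ) ^ r) ^ (2 / r - 2)) *
        (av fun μ => (u μ + t * v μ) ^ (r - 1) * v μ) +
        2 * (av fun μ => (u μ + t * v μ) ^ r) ^ (2 / r - 1) *
        ((r - 1) * av fun μ => (u μ + t * v μ) ^ (r - 2) * v μ ^ 2) =
        2 * HS r (fun μ => u μ + t * v μ) v := by
      unfold HS
      field_simp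
      ring
    rw [← e]
    exact h

private lemma cvx_cont {r : ℝ} (hr : 1 < r) (u v : M → ℝ) :
    Continuous (fun t : ℝ => N2 r fun μ => u μ + t * v μ) := by
  have hr0 : 0 ≤ r := by linarith
  unfold N2 av
  refine Continuous.rpow_const (Continuous.div_const (continuous_finsetSum _ fun μ _ =>
    Continuous.rpow_const (by fun_prop) fun _ => Or.inr hr0) _) fun _ => Or.inr (by positivity)

theorem cvx_upper {r : ℝ} (hr : 1 < r) (u v : M → ℝ) (hu : ∀ μ, 0 < u μ)
    (hv : ∀ μ, |v μ| ≤ u μ) (K : ℝ)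
    (hK : ∀ t : ℝ, |t| < 1 → HS r (fun μ => u μ + t * v μ) v ≤ K) :
    ((N2 r fun μ => u μ + v μ) + N2 r fun μ => u μ - v μ) / 2 ≤ N2 r u + K := by
  have hint : ∀ x ∈ interior (Set.Icc (-1 : ℝ) 1), |x| < 1 := by
    intro x hx
    rw [interior_Icc] at hx
    exact abs_lt.mpr hx
  have hc : ConcaveOn ℝ (Set.Icc (-1 : ℝ) 1)
      (fun t : ℝ => (N2 r fun μ => u μ + t * v μ) - K * t ^ 2) := by
    refine concaveOn_of_hasDerivWithinAt2_nonpos (convex_Icc _ _)
      (f' := fun t => 2 * (av fun μ => (u μ + t * v μ) ^ r) ^ (2 / r - 1) *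
        (av fun μ => (u μ + t * v μ) ^ (r - 1) * v μ) - K * (2 * t))
      (f'' := fun t => 2 * HS r (fun μ => u μ + t * v μ) v - K * 2)
      ((cvx_cont hr u v).sub (by fun_prop)).continuousOn ?_ ?_ ?_
    · intro x hx
      have h2 : HasDerivAt (fun t : ℝ => K * t ^ 2) (K * (2 * x)) x := by
        simpa using (hasDerivAt_pow 2 x).const_mul K
      exact ((cvx_der hr u v hu hv (hint x hx)).1.sub h2).hasDerivWithinAt
    · intro x hx
      have h2 : HasDerivAt (fun t : ℝ => K * (2 * t)) (K * 2) x := by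
        simpa using ((hasDerivAt_id x).const_mul 2).const_mul K
      exact ((cvx_der hr u v hu hv (hint x hx)).2.sub h2).hasDerivWithinAt
    · intro x hx
      have := hK x (hint x hx)
      linarith
  have h := hc.2 (show (1 : ℝ) ∈ Set.Icc (-1 : ℝ) 1 by norm_num)
    (show (-1 : ℝ) ∈ Set.Icc (-1 : ℝ) 1 by norm_num) (show (0 : ℝ) ≤ 1 / 2 by norm_num)
    (show (0 : ℝ) ≤ 1 / 2 by norm_num) (by norm_num)
  norm_num at h
  have e1 : (fun μ => u μ + -v μ) = fun μ => u μ - v μ := by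
    funext μ
    ring
  rw [e1] at h
  have e2 : (N2 r fun μ => u μ) = N2 r u := rfl
  rw [e2] at h
  linarith

theorem cvx_lower {r : ℝ} (hr : 1 < r) (u v : M → ℝ) (hu : ∀ μ, 0 < u μ)
    (hv : ∀ μ, |v μ| ≤ u μ) (K : ℝ)
    (hK : ∀ t : ℝ, |t| < 1 → K ≤ HS r (fun μ => u μ + t * v μ) v) :
    N2 r u + K ≤ ((N2 r fun μ => u μ + v μ) + N2 r fun μ => u μ - v μ) / 2 := by
  have hint : ∀ x ∈ interior (Set.Icc (-1 : ℝ) 1), |x| < 1 := by
    intro x hx
    rw [interior_Icc] at hx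
    exact abs_lt.mpr hx
  have hc : ConvexOn ℝ (Set.Icc (-1 : ℝ) 1)
      (fun t : ℝ => (N2 r fun μ => u μ + t * v μ) - K * t ^ 2) := by
    refine convexOn_of_hasDerivWithinAt2_nonneg (convex_Icc _ _)
      (f' := fun t => 2 * (av fun μ => (u μ + t * v μ) ^ r) ^ (2 / r - 1) *
        (av fun μ => (u μ + t * v μ) ^ (r - 1) * v μ) - K * (2 * t))
      (f'' := fun t => 2 * HS r (fun μ => u μ + t * v μ) v - K * 2)
      ((cvx_cont hr u v).sub (by fun_prop)).continuousOn ?_ ?_ ?_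
    · intro x hx
      have h2 : HasDerivAt (fun t : ℝ => K * t ^ 2) (K * (2 * x)) x := by
        simpa using (hasDerivAt_pow 2 x).const_mul K
      exact ((cvx_der hr u v hu hv (hint x hx)).1.sub h2).hasDerivWithinAt
    · intro x hx
      have h2 : HasDerivAt (fun t : ℝ => K * (2 * t)) (K * 2) x := by
        simpa using ((hasDerivAt_id x).const_mul 2).const_mul K
      exact ((cvx_der hr u v hu hv (hint x hx)).2.sub h2).hasDerivWithinAt
    · intro x hx
      have := hK x (hint x hx)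
      linarith
  have h := hc.2 (show (1 : ℝ) ∈ Set.Icc (-1 : ℝ) 1 by norm_num)
    (show (-1 : ℝ) ∈ Set.Icc (-1 : ℝ) 1 by norm_num) (show (0 : ℝ) ≤ 1 / 2 by norm_num)
    (show (0 : ℝ) ≤ 1 / 2 by norm_num) (by norm_num)
  norm_num at h
  have e1 : (fun μ => u μ + -v μ) = fun μ => u μ - v μ := by
    funext μ
    ring
  rw [e1] at h
  have e2 : (N2 r fun μ => u μ) = N2 r u := rfl
  rw [e2] at h
  linarith

end

end Pool.Agent.H90.DG
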