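import Mathlib

/-!
Averages, mixed norms along the orbits of a linear code over the field of two elements, random
restrictions given by random elements of the code, and the two functionals which are compared in
the main inequality.
-/

namespace Pool.Agent.H90.DG

open Finset
open scoped Classical

noncomputable section

set_option linter.unusedSectionVars false

/-- the field of two elements -/
abbrev F2 : Type := ZMod 2

/-- the average of a real function on a finite type -/
def av {α : Type} [Fintype α] (f : α → ℝ) : ℝ := (∑ i, f i) / (Fintype.card α : ℝ)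

/-- the square of the normalised `L ^ s` norm of a nonnegative function -/
def N2 (s : ℝ) {M : Type} [Fintype M] (h : M → ℝ) : ℝ := (av fun μ => h μ ^ s) ^ (2 / s)

/-- the positive part -/
def pp {M : Type} (v : M → ℝ) : M → ℝ := fun μ => max (v μ) 0

/-- the negative part -/
def np {M : Type} (v : M → ℝ) : M → ℝ := fun μ => max (-v μ) 0

section Orbits

variable {M M' X : Type} [AddCommGroup M] [Module F2 M] [Fintype M]
  [AddCommGroup M'] [Module F2 M'] [Fintype M'] [Fintype X] {m n : ℕ}

/-- the average over all vectors of the square of the `L ^ s` norm of `h` along the orbit of the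
vector under the translations by the words `e μ` -/
def orb (s : ℝ) (e : M →ₗ[F2] (X → F2)) (h : (X → F2) → ℝ) : ℝ :=
  av fun f : X → F2 => N2 s fun μ : M => h (f + e μ)

/-- averaging over the coordinates outside `S` -/
def blur (S : X → Prop) (a : (X → F2) → ℝ) : (X → F2) → ℝ :=
  fun f => av fun g : X → F2 => a fun i => if S i then f i else g i

/-- the twists `b j + i (c j)` -/
def tw (i : M' →ₗ[F2] M) (b : Fin m → M) (c : Fin m → M') : Fin m → M := fun j => b j + i (c j)

/-- the coordinates on which all words `e (θ j)` vanish -/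
def kept (e : M →ₗ[F2] (X → F2)) (θ : Fin m → M) : X → Prop := fun x => ∀ j, e (θ j) x = 0

/-- the average over the twists of the orbit norms of the restrictions -/
def Psi (s : ℝ) (e : M →ₗ[F2] (X → F2)) (i : M' →ₗ[F2] M) (b : Fin m → M)
    (a : (X → F2) → ℝ) : ℝ :=
  av fun c : Fin m → M' => orb s e (blur (kept e (tw i b c)) a)

/-- a functional which vanishes on all possible twists vanishes -/
def Inj (i : M' →ₗ[F2] M) (b : Fin m → M) : Prop :=
  ∀ x : M →ₗ[F2] F2, (∀ μ, x (i μ) = 0) → (∀ j, x (b j) = 0) → x = 0

/-- the code without its first coordinate -/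
def del (e : M →ₗ[F2] (Fin (n + 1) → F2)) : M →ₗ[F2] (Fin n → F2) :=
  (LinearMap.funLeft F2 F2 Fin.succ).comp e

/-- the first coordinate of the code -/
def fst (e : M →ₗ[F2] (Fin (n + 1) → F2)) : M →ₗ[F2] F2 := (LinearMap.proj 0).comp e

/-- the subcode of the words with first coordinate zero, without this coordinate -/
def con (e : M →ₗ[F2] (Fin (n + 1) → F2)) : LinearMap.ker (fst e) →ₗ[F2] (Fin n → F2) :=
  (del e).comp (LinearMap.ker (fst e)).subtype

/-- the half sum of the two fibres over the first coordinate -/
def hs (h : (Fin (n + 1) → F2) → ℝ) : (Fin n → F2) → ℝ :=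
  fun y => (h (Fin.cons 0 y) + h (Fin.cons 1 y)) / 2

/-- the half difference of the two fibres over the first coordinate -/
def hd (h : (Fin (n + 1) → F2) → ℝ) : (Fin n → F2) → ℝ :=
  fun y => (h (Fin.cons 0 y) - h (Fin.cons 1 y)) / 2

/-- the Hessian of half the square of the normalised `L ^ r` norm at `w` in the direction `v` -/
def HS (r : ℝ) {M : Type} [Fintype M] (w v : M → ℝ) : ℝ :=
  (r - 1) * (av fun μ => w μ ^ r) ^ (2 / r - 1) * (av fun μ => w μ ^ (r - 2) * v μ ^ 2) +
    (2 - r) * (av fun μ => w μ ^ r) ^ (2 / r - 2) * (av fun μ => w μ ^ (r - 1) * v μ) ^ 2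

/-- the values of `q` along the orbit of `y`, with sign according to the first coordinate -/
def sg (e : M →ₗ[F2] (Fin (n + 1) → F2)) (q : (Fin n → F2) → ℝ) (y : Fin n → F2) : M → ℝ :=
  fun μ => if fst e μ = 0 then q (y + del e μ) else -q (y + del e μ)

/-- the restriction of the map `i` to the twists with first coordinate zero -/
def kI (e : M →ₗ[F2] (Fin (n + 1) → F2)) (i : M' →ₗ[F2] M) :
    LinearMap.ker ((fst e).comp i) →ₗ[F2] LinearMap.ker (fst e) :=
  i.restrict fun x hx => by simpa using hx

/-- the base point of the twists with first coordinate zero -/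
def kB (e : M →ₗ[F2] (Fin (n + 1) → F2)) (i : M' →ₗ[F2] M) (b : Fin m → M) (ν : M')
    (h : fst e (i ν) = 1) : Fin m → LinearMap.ker (fst e) :=
  fun j => ⟨b j + fst e (b j) • i ν, by
    rw [LinearMap.mem_ker, map_add, map_smul, h, smul_eq_mul, mul_one]
    exact CharTwo.add_self_eq_zero _⟩

lemma del_apply (e : M →ₗ[F2] (Fin (n + 1) → F2)) (μ : M) (i : Fin n) :
    del e μ i = e μ i.succ := rfl

lemma fst_apply (e : M →ₗ[F2] (Fin (n + 1) → F2)) (μ : M) : fst e μ = e μ 0 := rfl

lemma con_apply (e : M →ₗ[F2] (Fin (n + 1) → F2)) (μ : LinearMap.ker (fst e)) :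
    con e μ = del e μ.1 := rfl

lemma cons_add_code (e : M →ₗ[F2] (Fin (n + 1) → F2)) (t : F2) (y : Fin n → F2) (μ : M) :
    (Fin.cons t y : Fin (n + 1) → F2) + e μ = Fin.cons (t + fst e μ) (y + del e μ) := by
  funext i
  refine Fin.cases ?_ (fun i => ?_) i
  · simp [fst_apply]
  · simp [del_apply]

end Orbits

end

end Pool.Agent.H90.DG
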