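import Pool.Agent.H90.DG.Code

/-!
MODULE OCnt (about 90 lines). The counting function `cnt e T g' = #{g : g + e (T g) = g'}`.

`cnt_sum`: `Σ_μ cnt (g' + e μ)` is the number of pairs `(μ, g)` with `g + e (T g) = g' + e μ`.
Here `g = g' + e (μ - T g)` lies in the orbit `g' + e M`, and for each `g = g' + e ν` of the orbit
there is exactly one `μ`, namely `μ = ν + T g` (`e` is injective); the orbit has `card M` elements.
So the sum is `card M`. (Write it as `Σ_g Σ_μ [g + e (T g) = g' + e μ]`, the inner sum is `1` if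
`g` is in the range of `ν ↦ g' + e ν` and `0` otherwise.)
`cnt_le`: all terms are nonnegative and `μ = 0` occurs.
`cnt_pow`: `x^p ≤ (card M)^(p-1) x` for `0 ≤ x ≤ card M`, then average (`x = 0`: `0^p = 0`).
`sum_cnt`: `Σ_g F (g + e (T g)) = Σ_{g'} cnt g' F g'` (`Finset.sum_fiberwise`, or `sum_comm`).
-/

namespace Pool.Agent.H90.DG

open Finset
open scoped Classical

noncomputable section

variable {M X : Type} [AddCommGroup M] [Module F2 M] [Fintype M] [Fintype X]

theorem cnt_nonneg (e : M →ₗ[F2] (X → F2)) (T : (X → F2) → M) (g' : X → F2) :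
    0 ≤ cnt e T g' := Nat.cast_nonneg _

theorem cnt_sum (e : M →ₗ[F2] (X → F2)) (he : Function.Injective e) (T : (X → F2) → M)
    (g' : X → F2) : ∑ μ, cnt e T (g' + e μ) = (Fintype.card M : ℝ) := by
  have _ := he
  have key : ∑ μ, (Finset.univ.filter fun g : X → F2 => g + e (T g) = g' + e μ).card =
      Fintype.card M := by
    rw [← Finset.card_sigma, ← Finset.card_univ]
    refine Finset.card_nbij' (fun q => q.1 - T q.2)
      (fun ν => ⟨ν + T (g' + e ν), g' + e ν⟩) ?_ ?_ ?_ ?_
    · intro q _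
      exact Finset.mem_coe.2 (Finset.mem_univ _)
    · intro ν _
      simp only [Finset.coe_sigma, Set.mem_sigma_iff, Finset.coe_univ, Set.mem_univ,
        Finset.mem_coe, Finset.mem_filter, Finset.mem_univ, true_and]
      rw [map_add, add_assoc]
    · rintro ⟨μ, g⟩ hq
      have hq' : g + e (T g) = g' + e μ := by
        simpa using hq
      have hg : g' + e (μ - T g) = g := by
        rw [map_sub, ← add_sub_assoc, ← hq', add_sub_cancel_right]
      simp only [hg, sub_add_cancel]
    · intro ν _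
      simp only [add_sub_cancel_right]
  rw [← key, Nat.cast_sum]
  rfl

theorem cnt_le (e : M →ₗ[F2] (X → F2)) (he : Function.Injective e) (T : (X → F2) → M)
    (g' : X → F2) : cnt e T g' ≤ (Fintype.card M : ℝ) := by
  rw [← cnt_sum e he T g']
  have h := Finset.single_le_sum (f := fun μ => cnt e T (g' + e μ))
    (fun μ _ => cnt_nonneg e T _) (Finset.mem_univ (0 : M))
  simpa using h

theorem cnt_pow (e : M →ₗ[F2] (X → F2)) (he : Function.Injective e) (T : (X → F2) → M)
    (g' : X → F2) {p : ℝ} (hp : 1 < p) :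
    (av fun μ => cnt e T (g' + e μ) ^ p) ≤ (Fintype.card M : ℝ) ^ (p - 1) := by
  have hle : ∀ μ, cnt e T (g' + e μ) ^ p ≤
      (Fintype.card M : ℝ) ^ (p - 1) * cnt e T (g' + e μ) := by
    intro μ
    have h0 := cnt_nonneg e T (g' + e μ)
    have h1 : cnt e T (g' + e μ) ^ p =
        cnt e T (g' + e μ) ^ (p - 1) * cnt e T (g' + e μ) := by
      have h2 := Real.rpow_add_one' h0 (y := p - 1) (by linarith)
      rwa [sub_add_cancel] at h2
    rw [h1]
    exact mul_le_mul_of_nonneg_right
      (Real.rpow_le_rpow h0 (cnt_le e he T _) (by linarith)) h0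
  refine (av_mono hle).trans ?_
  rw [av_mul_left, av, cnt_sum e he T g', div_self card_ne, mul_one]

theorem sum_cnt (e : M →ₗ[F2] (X → F2)) (T : (X → F2) → M) (Φ : (X → F2) → ℝ) :
    ∑ g, Φ (g + e (T g)) = ∑ g', cnt e T g' * Φ g' := by
  rw [← Finset.sum_fiberwise Finset.univ (fun g : X → F2 => g + e (T g))
    (fun g => Φ (g + e (T g)))]
  refine Finset.sum_congr rfl fun g' _ => ?_
  have h : ∀ g ∈ Finset.univ.filter (fun g : X → F2 => g + e (T g) = g'),
      Φ (g + e (T g)) = Φ g' := by
    intro g hg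
    rw [(Finset.mem_filter.1 hg).2]
  rw [Finset.sum_congr rfl h, Finset.sum_const, nsmul_eq_mul]
  rfl

end

end Pool.Agent.H90.DG
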