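import Pool.Agent.H90.DG.Geo
import Pool.Agent.H90.DG.OCnt

/-!
MODULE Edg (about 110 lines). Sums over the edges and over the satisfied edges.

`sum_E`: `((c, f), g) ↦ (c, g, γ)` with `f = res c g + codeB γ` is a bijection of the edges with
`CC × WW × AA k` (`codeB` is injective; characteristic two: `res c g = f + codeB γ` iff
`f = res c g + codeB γ`). `card_E`: `h = 1`.
`sat`: an edge `((c, f), g)` is satisfied by the labels `F (c, f)`, `T g` iff
`pj (c, f) g (T g) = F (c, f)`; by `gam_spec` and `res_code`,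
`res c (g + code (T g)) = res c g + codeB (T.2 + tr c T.1) = f + codeB (gam + T.2 + tr c T.1)
= f + codeB (pj (c, f) g (T g))`, so (`codeB_inj`) this is equivalent to
`res c (g + code (T g)) = f + codeB (F (c, f))`. Hence the number of satisfied edges is at most
(even equal to) `Σ_c Σ_g #{f : f + codeB (F (c, f)) = res c (g + code (T g))}
= Σ_c Σ_g cnt codeB (F (c, ·)) (res c (g + code (T g)))
= Σ_c Σ_{g'} cnt code T g' * cnt codeB (F (c, ·)) (res c g')` by `sum_cnt`.
-/

namespace Pool.Agent.H90.DG

open Finset Pool.Agent.H76.DTO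
open scoped Classical

noncomputable section

variable {m k : ℕ}

private lemma Edg_self {X : Type} (u : X → F2) : u + u = 0 := by
  funext x
  exact CharTwo.add_self_eq_zero (u x)

private lemma Edg_adj (c : CC m k) (g : WW m k) (γ : AA k) :
    res c g = (res c g + codeB k γ) + codeB k γ := by
  rw [add_assoc, Edg_self, add_zero]

private lemma Edg_gam (c : CC m k) (g : WW m k) (γ : AA k) :
    gam (c, res c g + codeB k γ) g = γ := by
  have h := gam_spec (v := (c, res c g + codeB k γ)) (g := g) ⟨γ, Edg_adj c g γ⟩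
  have h1 : (0 : XB k → F2) = codeB k γ + codeB k (gam (c, res c g + codeB k γ) g) := by
    have h2 : res c g + 0 =
        res c g + (codeB k γ + codeB k (gam (c, res c g + codeB k γ) g)) := by
      rw [add_zero, ← add_assoc]
      exact h
    exact add_left_cancel h2
  apply codeB_inj k
  have h3 : codeB k γ + codeB k γ =
      codeB k γ + codeB k (gam (c, res c g + codeB k γ) g) := by
    rw [Edg_self, ← h1]
  exact (add_left_cancel h3).symm

theorem sum_E (h : VV m k → WW m k → ℝ) :
    ∑ e ∈ (inst m k).E, h e.1 e.2 =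
      ∑ c : CC m k, ∑ g : WW m k, ∑ γ : AA k, h (c, res c g + codeB k γ) g := by
  have e1 : ∑ c : CC m k, ∑ g : WW m k, ∑ γ : AA k, h (c, res c g + codeB k γ) g =
      ∑ t : CC m k × WW m k × AA k, h (t.1, res t.1 t.2.1 + codeB k t.2.2) t.2.1 := by
    rw [Fintype.sum_prod_type]
    refine Finset.sum_congr rfl fun c _ => ?_
    rw [Fintype.sum_prod_type]
  rw [e1]
  refine Finset.sum_nbij' (fun e => (e.1.1, e.2, gam e.1 e.2))
    (fun t => ((t.1, res t.1 t.2.1 + codeB k t.2.2), t.2.1)) ?_ ?_ ?_ ?_ ?_
  · intro e _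
    exact Finset.mem_univ _
  · intro t _
    rw [mem_inst]
    exact ⟨t.2.2, Edg_adj _ _ _⟩
  · rintro ⟨⟨c, f⟩, g⟩ he
    rw [mem_inst] at he
    have h1 : res c g = f + codeB k (gam (c, f) g) := gam_spec he
    have h2 : res c g + codeB k (gam (c, f) g) = f := by
      rw [h1, add_assoc, Edg_self, add_zero]
    simp only [h2]
  · rintro ⟨c, g, γ⟩ _
    simp only [Edg_gam]
  · rintro ⟨⟨c, f⟩, g⟩ he
    rw [mem_inst] at he
    have h1 : res c g = f + codeB k (gam (c, f) g) := gam_spec he
    have h2 : res c g + codeB k (gam (c, f) g) = f := by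
      rw [h1, add_assoc, Edg_self, add_zero]
    simp only [h2]

theorem card_E (m k : ℕ) : ((inst m k).E.card : ℝ) =
    (Fintype.card (CC m k) : ℝ) * (Fintype.card (WW m k) : ℝ) * (Fintype.card (AA k) : ℝ) := by
  have h := sum_E (m := m) (k := k) fun _ _ => (1 : ℝ)
  simp only [Finset.sum_const, Finset.card_univ, nsmul_eq_mul, mul_one] at h
  rw [h]
  ring

theorem sat (F : VV m k → AA k) (T : WW m k → AA m × AA k) :
    ((((inst m k).E.filter fun e => pj e.1 e.2 (T e.2) = F e.1).card : ℕ) : ℝ) ≤
      ∑ c : CC m k, ∑ g : WW m k,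
        cnt (code m k) T g * cnt (codeB k) (fun f => F (c, f)) (res c g) := by
  have e1 : ((((inst m k).E.filter fun e => pj e.1 e.2 (T e.2) = F e.1).card : ℕ) : ℝ) =
      ∑ e ∈ (inst m k).E, (if pj e.1 e.2 (T e.2) = F e.1 then (1 : ℝ) else 0) := by
    rw [Finset.card_filter]
    push_cast
    rfl
  rw [e1, sum_E (fun v g => if pj v g (T g) = F v then (1 : ℝ) else 0)]
  refine Finset.sum_le_sum fun c _ => ?_
  have e3 : ∑ g : WW m k, cnt (code m k) T g * cnt (codeB k) (fun f => F (c, f)) (res c g) =
      ∑ g : WW m k, cnt (codeB k) (fun f => F (c, f)) (res c (g + code m k (T g))) := by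
    have h := sum_cnt (code m k) T (fun g' => cnt (codeB k) (fun f => F (c, f)) (res c g'))
    refine Eq.trans ?_ (h.symm.trans ?_) <;>
      exact Finset.sum_congr (Finset.ext fun _ => by simp) fun _ _ => rfl
  rw [e3]
  refine Finset.sum_le_sum fun g _ => ?_
  have e2 : ∑ γ : AA k, (if pj (c, res c g + codeB k γ) g (T g) = F (c, res c g + codeB k γ)
      then (1 : ℝ) else 0) =
      (((Finset.univ.filter fun γ : AA k =>
        pj (c, res c g + codeB k γ) g (T g) = F (c, res c g + codeB k γ)).card : ℕ) : ℝ) := by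
    rw [Finset.card_filter]
    push_cast
    rfl
  rw [e2]
  unfold cnt
  rw [Nat.cast_le]
  refine Finset.card_le_card_of_injOn (fun γ => res c g + codeB k γ) ?_ ?_
  · intro γ hγ
    simp only [Finset.coe_filter, Finset.mem_univ, true_and, Set.mem_ofPred_eq] at hγ ⊢
    rw [← hγ]
    unfold pj
    rw [Edg_gam, res_code, map_add, add_assoc, add_comm (codeB k γ), add_assoc,
      Edg_self, add_zero]
  · intro γ _ γ' _ h
    exact codeB_inj k (add_left_cancel h)

end

end Pool.Agent.H90.DG
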