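import Pool.Agent.H90.DG.Code

/-!
MODULE Geo (about 130 lines). The codes of linear functions and the graphs.

`code_inj`: if `code m k p = 0` then `p.1 ⬝ᵥ y + p.2 ⬝ᵥ x = 0` for all `(y, x) ≠ 0`; take unit
vectors. `codeB_inj`: the same. `res_code`: `(α, β)` at `(c x, x)` is
`α ⬝ᵥ ap c x + β ⬝ᵥ x = (tr c α + β) ⬝ᵥ x` (exchange of two finite sums).
`inj_code`: a functional `x` on `AA m × AA k` with `x (0, c) = 0` and `x (unit j, 0) = 0`
vanishes (`(α, β) = Σ α j • (unit j, 0) + (0, β)`).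
`kept_iff`: `tw (iB m k) (bB m k) c j = (unit j, c j)`, its word at `z` is
`z.1.1 j + c j ⬝ᵥ z.1.2`, zero iff `z.1.1 j = ap c z.1.2 j` (characteristic two).
`res_congr`: `up c x` is kept.
`av_tr`: for fixed `α`, `β ↦ β + tr c α` is a bijection.
-/

namespace Pool.Agent.H90.DG

open Finset Pool.Agent.H76.DTO
open scoped Classical

noncomputable section

variable {m k : ℕ}

theorem code_inj (m k : ℕ) : Function.Injective (code m k) := by
  rw [injective_iff_map_eq_zero]
  intro p hp
  have h : ∀ z : XG m k, p.1 ⬝ᵥ z.1.1 + p.2 ⬝ᵥ z.1.2 = 0 := fun z => by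
    rw [← code_apply, hp]
    rfl
  refine Prod.ext ?_ ?_
  · funext j
    have h1 := h ⟨(Pi.single j 1, 0), fun h0 => by
      have h2 := congrFun (congrArg Prod.fst h0) j
      simp at h2⟩
    simpa using h1
  · funext j
    have h1 := h ⟨(0, Pi.single j 1), fun h0 => by
      have h2 := congrFun (congrArg Prod.snd h0) j
      simp at h2⟩
    simpa using h1

theorem codeB_inj (k : ℕ) : Function.Injective (codeB k) := by
  rw [injective_iff_map_eq_zero]
  intro p hp
  have h : ∀ z : XB k, p ⬝ᵥ z.1 = 0 := fun z => by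
    rw [← codeB_apply, hp]
    rfl
  funext j
  have h1 := h ⟨Pi.single j 1, fun h0 => by
    have h2 := congrFun h0 j
    simp at h2⟩
  simpa using h1

theorem res_code (c : CC m k) (g : XG m k → F2) (p : AA m × AA k) :
    res c (g + code m k p) = res c g + codeB k (p.2 + tr c p.1) := by
  funext x
  have h : p.1 ⬝ᵥ ap c x.1 = tr c p.1 ⬝ᵥ x.1 := by
    simp only [ap, tr, dotProduct, Finset.sum_apply, Pi.smul_apply, smul_eq_mul,
      Finset.mul_sum, Finset.sum_mul]
    rw [Finset.sum_comm]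
    refine Finset.sum_congr rfl fun i _ => Finset.sum_congr rfl fun j _ => ?_
    ring
  show g (up c x) + (p.1 ⬝ᵥ ap c x.1 + p.2 ⬝ᵥ x.1) = g (up c x) + (p.2 + tr c p.1) ⬝ᵥ x.1
  rw [add_dotProduct, h]
  ring

theorem inj_code (m k : ℕ) : Inj (iB m k) (bB m k) := by
  intro x h1 h2
  refine LinearMap.prod_ext (LinearMap.pi_ext' fun j => LinearMap.ext_ring ?_)
    (LinearMap.ext fun μ => ?_)
  · simpa [bB] using h2 j
  · simpa [iB] using h1 μ

theorem kept_iff (c : CC m k) (z : XG m k) :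
    kept (code m k) (tw (iB m k) (bB m k) c) z ↔ z.1.1 = ap c z.1.2 := by
  have h : ∀ j, code m k (tw (iB m k) (bB m k) c j) z = z.1.1 j + c j ⬝ᵥ z.1.2 := by
    intro j
    rw [code_apply]
    simp [tw, iB, bB]
  constructor
  · intro hk
    funext j
    have h1 := hk j
    rw [h j] at h1
    exact CharTwo.add_eq_zero.1 h1
  · intro hz j
    rw [h j, hz]
    exact CharTwo.add_eq_zero.2 rfl

theorem res_congr (c : CC m k) (g g' : XG m k → F2)
    (h : ∀ z, kept (code m k) (tw (iB m k) (bB m k) c) z → g z = g' z) :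
    res c g = res c g' := by
  funext x
  exact h _ ((kept_iff c (up c x)).2 rfl)

theorem av_tr (c : CC m k) (Φ : AA k → ℝ) :
    (av fun p : AA m × AA k => Φ (p.2 + tr c p.1)) = av Φ := by
  unfold av
  rw [Fintype.sum_prod_type, Fintype.card_prod]
  have h : ∀ α : AA m, ∑ β : AA k, Φ (β + tr c α) = ∑ β : AA k, Φ β := fun α =>
    Fintype.sum_equiv (Equiv.addRight (tr c α)) _ _ fun β => rfl
  simp only [h, Finset.sum_const, Finset.card_univ, nsmul_eq_mul, Nat.cast_mul]
  have h1 : (Fintype.card (AA m) : ℝ) ≠ 0 := by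
    exact_mod_cast Fintype.card_ne_zero
  rw [mul_div_mul_left _ _ h1]

end

end Pool.Agent.H90.DG
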