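import Pool.Agent.H90.DG.Hol
import Pool.Agent.H90.DG.Blk

/-!
MODULE HesP (about 130 lines). The Hessian of the square of the `L ^ p` norm, `1 < p ≤ 2`, from
below.

NORMALISED CASE `av (w ^ p) = 1`. Let `b = 2/p - 1` (so `0 ≤ b < 1`, `1 - b = 2 - 2/p =
2 (p-1)/p`, `2 b/(1-b) = (2-p)/(p-1)`). For the block `+` take `B = {v ≥ 0}`, function `pp v`; for
the block `-` take `B = {v < 0}`, function `np v`. Put
`α_b = av (w^(p-2) v_b^2)`, `X_b = av (w^(p-1) v_b)`, `Q_b = N2 p v_b`,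
`W_b = av (1_B w^p)`; `W₊ + W₋ = 1`, `α = α₊ + α₋`, `X = X₊ - X₋`.
If `W_b > 0`, then `holP1`, `hol2` and `blkP` give
`α_b ≥ 2^b Q_b - b X_b^2 (2 - 1/W_b)`; if `W_b = 0` the block is empty (`w > 0`) and
`α_b = X_b = Q_b = 0` (`N2 p 0 = 0`).
Sum: `α ≥ 2^b (Q₊ + Q₋) - b Z` with `Z = Σ X_b^2 (2 - 1/W_b)`. Because `W₊ + W₋ = 1`:
`(X₊ - X₋)^2 - Z = X₊^2 (1/W₊ - 1) + X₋^2 (1/W₋ - 1) - 2 X₊ X₋
 = X₊^2 W₋/W₊ + X₋^2 W₊/W₋ - 2 X₊ X₋ ≥ 0` (if both are positive; if one block is empty,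
say `W₋ = 0`, `W₊ = 1`, then `X₋ = 0`, `Z = X₊^2` and equality holds).
Hence `b Z ≤ b X^2 ≤ (2b/(1-b)) X^2 = ((2-p)/(p-1)) X^2`, and multiplying by `p - 1`:
`HS p w v = (p-1) α + (2-p) X^2 ≥ (p-1) 2^b (Q₊ + Q₋)`.
GENERAL CASE: `c = (av (w^p))^(1/p) > 0`, `HS p w v = HS p (w / c) v` because
`av ((w/c)^(p-2) v^2) = c^(-(p-2)) α = S^(2/p-1) α` and
`(av ((w/c)^(p-1) v))^2 = c^(-2(p-1)) X^2 = S^(2/p-2) X^2`.
-/

namespace Pool.Agent.H90.DG

open Finset
open scoped Classical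

noncomputable section

variable {M : Type} [Fintype M] [Nonempty M]

/-- the weight of a block -/
private def HesP_W (p : ℝ) (w : M → ℝ) (B : M → Prop) : ℝ := av fun μ => if B μ then w μ ^ p else 0

omit [Nonempty M] in
private lemma HesP_W_nonneg (p : ℝ) (w : M → ℝ) (hw : ∀ μ, 0 < w μ) (B : M → Prop) :
    0 ≤ HesP_W p w B := by
  refine av_nonneg fun μ => ?_
  split_ifs
  · exact Real.rpow_nonneg (hw μ).le _
  · exact le_rfl

omit [Nonempty M] in
private lemma HesP_W_add (p : ℝ) (w : M → ℝ) (B : M → Prop) :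
    HesP_W p w B + HesP_W p w (fun μ => ¬ B μ) = av fun μ => w μ ^ p := by
  unfold HesP_W
  rw [← av_add]
  refine av_congr fun μ => ?_
  by_cases h : B μ <;> simp [h]

/-- the inequality for one block -/
private lemma HesP_blk {p : ℝ} (hp1 : 1 < p) (hp2 : p ≤ 2) (w u : M → ℝ) (hw : ∀ μ, 0 < w μ)
    (hu : ∀ μ, 0 ≤ u μ) (B : M → Prop) (hB : ∀ μ, ¬ B μ → u μ = 0)
    (hS : (av fun μ => w μ ^ p) = 1) :
    2 ^ (2 / p - 1) * N2 p u - (2 / p - 1) * (av fun μ => w μ ^ (p - 1) * u μ) ^ 2 *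
      (2 - 1 / HesP_W p w B) ≤
      (av fun μ => w μ ^ (p - 2) * u μ ^ 2) ∧
    (HesP_W p w B = 0 → (av fun μ => w μ ^ (p - 1) * u μ) = 0) := by
  unfold HesP_W
  have hW0 : 0 ≤ av fun μ => if B μ then w μ ^ p else 0 := by
    refine av_nonneg fun μ => ?_
    split_ifs
    · exact Real.rpow_nonneg (hw μ).le _
    · exact le_rfl
  have hW1 : (av fun μ => if B μ then w μ ^ p else 0) ≤ 1 := by
    rw [← hS]
    refine av_mono fun μ => ?_
    split_ifs
    · exact le_rfl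
    · exact Real.rpow_nonneg (hw μ).le _
  have hp0 : 0 < p := by linarith
  have hb0 : 0 ≤ 2 / p - 1 := by
    rw [sub_nonneg, le_div_iff₀ hp0]; linarith
  have hb1 : 2 / p - 1 < 1 := by
    have : 2 / p < 2 := by rw [div_lt_iff₀ hp0]; linarith
    linarith
  have he : 1 - (2 / p - 1) = 2 - 2 / p := by ring
  rcases hW0.eq_or_lt with h0 | h0
  · have hz : ∀ μ, u μ = 0 := by
      intro μ
      apply hB
      intro hBμ
      have h1 : (av fun μ => if B μ then w μ ^ p else 0) * (Fintype.card M : ℝ) =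
          ∑ μ, if B μ then w μ ^ p else 0 := by
        rw [av, div_mul_cancel₀ _ card_ne]
      rw [← h0, zero_mul] at h1
      have h2 := (Finset.sum_eq_zero_iff_of_nonneg (fun μ _ => by
        split_ifs
        · exact Real.rpow_nonneg (hw μ).le _
        · exact le_rfl)).1 h1.symm μ (Finset.mem_univ μ)
      rw [if_pos hBμ] at h2
      exact (Real.rpow_pos_of_pos (hw μ) p).ne' h2
    have e1 : (av fun μ => w μ ^ (p - 1) * u μ) = 0 := by
      rw [← av_zero (α := M)]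
      exact av_congr fun μ => by rw [hz μ, mul_zero]
    have e2 : (av fun μ => w μ ^ (p - 2) * u μ ^ 2) = 0 := by
      rw [← av_zero (α := M)]
      exact av_congr fun μ => by rw [hz μ]; ring
    have e3 : N2 p u = 0 := by
      unfold N2
      have : (av fun μ => u μ ^ p) = 0 := by
        rw [← av_zero (α := M)]
        exact av_congr fun μ => by rw [hz μ, Real.zero_rpow hp0.ne']
      rw [this, Real.zero_rpow (by positivity)]
    refine ⟨?_, fun _ => e1⟩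
    rw [e1, e2, e3]
    norm_num
  · refine ⟨?_, fun h => absurd h h0.ne'⟩
    refine blkP hb0 hb1 h0 hW1 ?_ ?_ ?_
    · exact av_nonneg fun μ => mul_nonneg (Real.rpow_nonneg (hw μ).le _) (sq_nonneg _)
    · rw [he]
      exact holP1 hp1 hp2 w u hw hu
    · rw [he]
      exact hol2 hp1 w u hw hu B hB

private lemma HesP_norm {p : ℝ} (hp1 : 1 < p) (hp2 : p ≤ 2) (w v : M → ℝ) (hw : ∀ μ, 0 < w μ)
    (hS : (av fun μ => w μ ^ p) = 1) :
    (p - 1) * 2 ^ (2 / p - 1) * (N2 p (pp v) + N2 p (np v)) ≤ HS p w v := by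
  have hp0 : 0 < p := by linarith
  obtain ⟨hP1, hP2⟩ := HesP_blk hp1 hp2 w (pp v) hw (pp_nonneg v) (fun μ => 0 ≤ v μ)
    (fun μ h => max_eq_right (not_le.1 h).le) hS
  obtain ⟨hN1, hN2⟩ := HesP_blk hp1 hp2 w (np v) hw (np_nonneg v) (fun μ => ¬ 0 ≤ v μ)
    (fun μ h => max_eq_right (by have := not_not.1 h; linarith)) hS
  have hWW := HesP_W_add p w (fun μ => 0 ≤ v μ)
  rw [hS] at hWW
  have hα : (av fun μ => w μ ^ (p - 2) * v μ ^ 2) =
      (av fun μ => w μ ^ (p - 2) * pp v μ ^ 2) + av fun μ => w μ ^ (p - 2) * np v μ ^ 2 := by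
    rw [← av_add]
    refine av_congr fun μ => ?_
    unfold pp np
    rcases le_total 0 (v μ) with h | h
    · rw [max_eq_left h, max_eq_right (by linarith)]; ring
    · rw [max_eq_right h, max_eq_left (by linarith)]; ring
  have hX : (av fun μ => w μ ^ (p - 1) * v μ) =
      (av fun μ => w μ ^ (p - 1) * pp v μ) - av fun μ => w μ ^ (p - 1) * np v μ := by
    rw [← av_sub]
    refine av_congr fun μ => ?_
    unfold pp np
    rcases le_total 0 (v μ) with h | h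
    · rw [max_eq_left h, max_eq_right (by linarith)]; ring
    · rw [max_eq_right h, max_eq_left (by linarith)]; ring
  have hW0 := HesP_W_nonneg p w hw (fun μ => 0 ≤ v μ)
  have hW0' := HesP_W_nonneg p w hw (fun μ => ¬ 0 ≤ v μ)
  unfold HS
  rw [hS, Real.one_rpow, Real.one_rpow, hα, hX]
  generalize (av fun μ => w μ ^ (p - 2) * pp v μ ^ 2) = α₁ at *
  generalize (av fun μ => w μ ^ (p - 2) * np v μ ^ 2) = α₂ at *
  generalize (av fun μ => w μ ^ (p - 1) * pp v μ) = X₁ at *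
  generalize (av fun μ => w μ ^ (p - 1) * np v μ) = X₂ at *
  generalize HesP_W p w (fun μ => 0 ≤ v μ) = W₁ at *
  generalize HesP_W p w (fun μ => ¬ 0 ≤ v μ) = W₂ at *
  generalize N2 p (pp v) = Q₁ at *
  generalize N2 p (np v) = Q₂ at *
  have hZ : X₁ ^ 2 * (2 - 1 / W₁) + X₂ ^ 2 * (2 - 1 / W₂) ≤ (X₁ - X₂) ^ 2 := by
    rcases hW0.eq_or_lt with h1 | h1
    · have e1 := hP2 h1.symm
      have e2 : W₂ = 1 := by linarith
      rw [e1, e2]
      norm_num
    · rcases hW0'.eq_or_lt with h2 | h2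
      · have e1 := hN2 h2.symm
        have e2 : W₁ = 1 := by linarith
        rw [e1, e2]
        norm_num
      · have e : (X₁ - X₂) ^ 2 - (X₁ ^ 2 * (2 - 1 / W₁) + X₂ ^ 2 * (2 - 1 / W₂)) =
            (W₂ * X₁ - W₁ * X₂) ^ 2 / (W₁ * W₂) := by
          have hW₂ : W₂ = 1 - W₁ := by linarith
          have h3 : W₁ ≠ 0 := h1.ne'
          have h4 : W₂ ≠ 0 := h2.ne'
          rw [eq_div_iff (mul_ne_zero h3 h4)]
          have e5 : 1 / W₁ * W₁ = 1 := by field_simp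
          have e6 : 1 / W₂ * W₂ = 1 := by field_simp
          have : ((X₁ - X₂) ^ 2 - (X₁ ^ 2 * (2 - 1 / W₁) + X₂ ^ 2 * (2 - 1 / W₂))) * (W₁ * W₂) =
              (X₁ - X₂) ^ 2 * (W₁ * W₂) - (X₁ ^ 2 * (2 * W₁ * W₂ - (1 / W₁ * W₁) * W₂) +
                X₂ ^ 2 * (2 * W₁ * W₂ - (1 / W₂ * W₂) * W₁)) := by ring
          rw [this, e5, e6, hW₂]
          ring
        have h5 : 0 ≤ (W₂ * X₁ - W₁ * X₂) ^ 2 / (W₁ * W₂) := by positivity
        linarith
  have hb0 : 0 ≤ 2 / p - 1 := by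
    rw [sub_nonneg, le_div_iff₀ hp0]; linarith
  have hsum : 2 ^ (2 / p - 1) * (Q₁ + Q₂) - (2 / p - 1) * (X₁ - X₂) ^ 2 ≤ α₁ + α₂ := by
    have := mul_le_mul_of_nonneg_left hZ hb0
    nlinarith [hP1, hN1]
  have hm := mul_le_mul_of_nonneg_left hsum (show 0 ≤ p - 1 by linarith)
  have hbp : (p - 1) * (2 / p - 1) ≤ 2 - p := by
    have e : (p - 1) * (2 / p - 1) = (2 - p) * ((p - 1) / p) := by field_simp
    rw [e]
    have h6 : (p - 1) / p ≤ 1 := by rw [div_le_one hp0]; linarith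
    nlinarith
  have := mul_le_mul_of_nonneg_right hbp (sq_nonneg (X₁ - X₂))
  nlinarith

omit [Nonempty M] in
private lemma HesP_scale {p : ℝ} (hp1 : 1 < p) (w v : M → ℝ) (hw : ∀ μ, 0 < w μ)
    {c : ℝ} (hc : 0 < c) (hcS : (av fun μ => w μ ^ p) = c ^ p) :
    (av fun μ => (w μ / c) ^ p) = 1 ∧ HS p (fun μ => w μ / c) v = HS p w v := by
  have hp0 : p ≠ 0 := by linarith
  have h1 : (av fun μ => (w μ / c) ^ p) = 1 := by
    have : (av fun μ => (w μ / c) ^ p) = (av fun μ => w μ ^ p) / c ^ p := by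
      rw [← av_div]
      exact av_congr fun μ => Real.div_rpow (hw μ).le hc.le _
    rw [this, hcS, div_self (Real.rpow_pos_of_pos hc p).ne']
  refine ⟨h1, ?_⟩
  have h2 : (av fun μ => (w μ / c) ^ (p - 2) * v μ ^ 2) =
      (av fun μ => w μ ^ (p - 2) * v μ ^ 2) / c ^ (p - 2) := by
    rw [← av_div]
    exact av_congr fun μ => by rw [Real.div_rpow (hw μ).le hc.le]; ring
  have h3 : (av fun μ => (w μ / c) ^ (p - 1) * v μ) =
      (av fun μ => w μ ^ (p - 1) * v μ) / c ^ (p - 1) := by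
    rw [← av_div]
    exact av_congr fun μ => by rw [Real.div_rpow (hw μ).le hc.le]; ring
  unfold HS
  rw [h1, Real.one_rpow, Real.one_rpow, h2, h3, hcS]
  have e1 : (c ^ p) ^ (2 / p - 1) = (c ^ (p - 2))⁻¹ := by
    rw [← Real.rpow_mul hc.le, ← Real.rpow_neg hc.le]
    congr 1
    field_simp
    ring
  have e2 : (c ^ p) ^ (2 / p - 2) = ((c ^ (p - 1))⁻¹) ^ 2 := by
    rw [← Real.rpow_mul hc.le, ← Real.rpow_neg hc.le, ← Real.rpow_natCast,
      ← Real.rpow_mul hc.le]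
    congr 1
    push_cast
    field_simp
    ring
  rw [e1, e2]
  ring

theorem hesP {p : ℝ} (hp1 : 1 < p) (hp2 : p ≤ 2) (w v : M → ℝ) (hw : ∀ μ, 0 < w μ) :
    (p - 1) * 2 ^ (2 / p - 1) * (N2 p (pp v) + N2 p (np v)) ≤ HS p w v := by
  have hS : 0 < av fun μ => w μ ^ p := av_pos fun μ => Real.rpow_pos_of_pos (hw μ) _
  have hc : 0 < (av fun μ => w μ ^ p) ^ (1 / p) := Real.rpow_pos_of_pos hS _
  have hcS : (av fun μ => w μ ^ p) = ((av fun μ => w μ ^ p) ^ (1 / p)) ^ p := by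
    rw [← Real.rpow_mul hS.le, one_div, inv_mul_cancel₀ (by linarith), Real.rpow_one]
  obtain ⟨h1, h2⟩ := HesP_scale hp1 w v hw hc hcS
  rw [← h2]
  exact HesP_norm hp1 hp2 _ v (fun μ => div_pos (hw μ) hc) h1

end

end Pool.Agent.H90.DG
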