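import Pool.Agent.H90.DG.Hol
import Pool.Agent.H90.DG.Blk

/-!
MODULE HesS (about 130 lines). The Hessian of the square of the `L ^ s` norm, `s ≥ 2`, from above.

NORMALISED CASE `av (w ^ s) = 1`. Let `β = 1 - 2/s` (so `0 ≤ β < 1`, `1 + β = 2 - 2/s =
2 (s-1)/s`, `1/(1+β) = s/(2(s-1))`, `β/(1+β) = (s-2)/(2(s-1))`). For the block `+` take
`B = {v ≥ 0}`, function `pp v`; for the block `-` take `B = {v < 0}`, function `np v`. Put
`α_b = av (w^(s-2) v_b^2)`, `X_b = av (w^(s-1) v_b)`, `Q_b = N2 s v_b`,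
`W_b = av (1_B w^s)`; `W₊ + W₋ = 1`, `α = α₊ + α₋`, `X = X₊ - X₋`.
If `W_b > 0`, then `holS1`, `hol2` and `blkS` give
`α_b ≤ 2^(-β) Q_b + β X_b^2 (2 - 1/W_b)`; if `W_b = 0` the block is empty (`w > 0`) and
`α_b = X_b = Q_b = 0`, so the inequality holds too (`1/0 = 0`, `Q_b ≥ 0`).
Sum: `α ≤ 2^(-β) (Q₊ + Q₋) + β Z` with `Z = Σ X_b^2 (2 - 1/W_b)`. Because `W₊ + W₋ = 1`:
`(X₊ - X₋)^2 - Z = X₊^2 (1/W₊ - 1) + X₋^2 (1/W₋ - 1) - 2 X₊ X₋
 = X₊^2 W₋/W₊ + X₋^2 W₊/W₋ - 2 X₊ X₋ ≥ 0` (if both are positive; if one block is empty,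
say `W₋ = 0`, `W₊ = 1`, then `X₋ = 0`, `Z = X₊^2` and equality holds).
Hence `(1+β) Z ≤ 2 X^2` (if `Z ≤ 0` clear, else `(1+β) Z ≤ 2 Z ≤ 2 X^2`), so
`β Z ≤ (2β/(1+β)) X^2 = ((s-2)/(s-1)) X^2`, and multiplying by `s - 1`:
`HS s w v = (s-1) α + (2-s) X^2 ≤ (s-1) 2^(-β) (Q₊ + Q₋)`.
GENERAL CASE: `c = (av (w^s))^(1/s) > 0`, `HS s w v = HS s (w / c) v` because
`av ((w/c)^(s-2) v^2) = c^(-(s-2)) α = S^(2/s-1) α` and
`(av ((w/c)^(s-1) v))^2 = c^(-2(s-1)) X^2 = S^(2/s-2) X^2`.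
-/

namespace Pool.Agent.H90.DG

open Finset
open scoped Classical

noncomputable section

variable {M : Type} [Fintype M] [Nonempty M]

private theorem hesS_av0 {f : M → ℝ} (h : ∀ μ, 0 ≤ f μ) (h0 : av f = 0) : ∀ μ, f μ = 0 := by
  intro μ
  have hc : (0 : ℝ) < Fintype.card M := card_pos'
  have hs : ∑ i, f i = 0 := by
    rw [av, div_eq_zero_iff] at h0
    rcases h0 with h1 | h1
    · exact h1
    · exact absurd h1 hc.ne'
  exact (Finset.sum_eq_zero_iff_of_nonneg (fun i _ => h i)).mp hs μ (Finset.mem_univ _)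

private theorem hesS_empty {s : ℝ} {w v : M → ℝ} (hw : ∀ μ, 0 < w μ)
    {B : M → Prop} (hB : ∀ μ, ¬ B μ → v μ = 0)
    (hW : (av fun μ => if B μ then w μ ^ s else 0) = 0) : ∀ μ, v μ = 0 := by
  intro μ
  have h1 := hesS_av0 (f := fun μ => if B μ then w μ ^ s else 0)
    (fun μ => by
      split_ifs
      · exact Real.rpow_nonneg (hw μ).le _
      · exact le_rfl) hW μ
  by_cases hb : B μ
  · rw [if_pos hb] at h1
    exact absurd h1 (Real.rpow_pos_of_pos (hw μ) s).ne'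
  · exact hB μ hb

private theorem hesS_block {s : ℝ} (hs : 2 ≤ s) (w v : M → ℝ) (hw : ∀ μ, 0 < w μ)
    (hv : ∀ μ, 0 ≤ v μ) (B : M → Prop) (hB : ∀ μ, ¬ B μ → v μ = 0)
    (hW1 : (av fun μ => if B μ then w μ ^ s else 0) ≤ 1) :
    (av fun μ => w μ ^ (s - 2) * v μ ^ 2) ≤ 2 ^ (-(1 - 2 / s)) * N2 s v +
      (1 - 2 / s) * (av fun μ => w μ ^ (s - 1) * v μ) ^ 2 *
        (2 - 1 / (av fun μ => if B μ then w μ ^ s else 0)) := by
  have hs0 : (0 : ℝ) < s := by linarith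
  have h2s : 2 / s ≤ 1 := by rw [div_le_one hs0]; exact hs
  have h2s0 : 0 < 2 / s := by positivity
  have hWn : 0 ≤ av fun μ => if B μ then w μ ^ s else 0 := av_nonneg fun μ => by
    split_ifs
    · exact Real.rpow_nonneg (hw μ).le _
    · exact le_rfl
  rcases eq_or_lt_of_le hWn with h0 | h0
  · have hv0 := hesS_empty hw hB h0.symm
    have e1 : (av fun μ => w μ ^ (s - 2) * v μ ^ 2) = 0 := by
      rw [av_congr (g := fun _ => (0 : ℝ)) fun μ => by rw [hv0 μ]; ring]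
      exact av_zero
    have e2 : (av fun μ => w μ ^ (s - 1) * v μ) = 0 := by
      rw [av_congr (g := fun _ => (0 : ℝ)) fun μ => by rw [hv0 μ]; ring]
      exact av_zero
    rw [e1, e2]
    have h3 : 0 ≤ (2 : ℝ) ^ (-(1 - 2 / s)) * N2 s v :=
      mul_nonneg (by positivity) (N2_nonneg s v hv)
    have h4 : (1 - 2 / s) * (0 : ℝ) ^ 2 * (2 - 1 / (av fun μ => if B μ then w μ ^ s else 0)) = 0 := by
      ring
    rw [h4]
    linarith
  · have hs1 : s - 1 ≠ 0 := by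
      have : 0 < s - 1 := by linarith
      exact this.ne'
    have e0 : 1 + (1 - 2 / s) = 2 * (s - 1) / s := by
      field_simp
      ring
    have e1 : 1 - 2 / s = (s - 2) / s := by
      field_simp
    have a1 : 1 / (1 + (1 - 2 / s)) = s / (2 * (s - 1)) := by
      rw [e0, one_div_div]
    have a2 : (1 - 2 / s) / (1 + (1 - 2 / s)) = (s - 2) / (2 * (s - 1)) := by
      rw [e0, e1, div_div_div_cancel_right₀ hs0.ne']
    have a3 : 2 - 2 / s = 1 + (1 - 2 / s) := by ring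
    refine blkS (β := 1 - 2 / s) (by linarith) (by linarith) h0 hW1 (N2_nonneg s v hv) ?_ ?_
    · rw [a1, a2]
      exact holS1 hs w v hw hv
    · rw [← a3]
      exact hol2 (by linarith) w v hw hv B hB

private theorem hesS_alg {s a b A B Z1 Z2 P Q1 Q2 αp αm : ℝ} (hs : 2 ≤ s) (hab : a + b = 1)
    (ha : 0 ≤ a) (hb : 0 ≤ b) (ha0 : a = 0 → A = 0) (hb0 : b = 0 → B = 0)
    (hZ1 : Z1 = A ^ 2 * (2 - 1 / a)) (hZ2 : Z2 = B ^ 2 * (2 - 1 / b))
    (h1 : αp ≤ P * Q1 + (1 - 2 / s) * Z1) (h2 : αm ≤ P * Q2 + (1 - 2 / s) * Z2) :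
    (s - 1) * (αp + αm) + (2 - s) * (A - B) ^ 2 ≤ (s - 1) * P * (Q1 + Q2) := by
  have hs0 : (0 : ℝ) < s := by linarith
  have hZ : Z1 + Z2 ≤ (A - B) ^ 2 := by
    rcases eq_or_lt_of_le ha with h | h
    · have hA := ha0 h.symm
      have hb1 : b = 1 := by linarith
      rw [hZ1, hZ2, hA, hb1]
      norm_num
    rcases eq_or_lt_of_le hb with h' | h'
    · have hB := hb0 h'.symm
      have ha1 : a = 1 := by linarith
      rw [hZ1, hZ2, hB, ha1]
      norm_num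
    have e : (A - B) ^ 2 - (Z1 + Z2) = (A * b - B * a) ^ 2 / (a * b) := by
      rw [hZ1, hZ2]
      have hb' : b = 1 - a := by linarith
      have h3 : (1 - a) ≠ 0 := by rw [← hb']; exact h'.ne'
      have h4 : a ≠ 0 := h.ne'
      rw [hb']
      field_simp
      ring
    have : 0 ≤ (A * b - B * a) ^ 2 / (a * b) := by positivity
    linarith
  have hβ : (s - 1) * (1 - 2 / s) = (s - 2) * (1 - 1 / s) := by
    field_simp
  have h5 : 0 ≤ 1 - 1 / s := by
    rw [sub_nonneg, div_le_one hs0]; linarith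
  have h6 : 1 - 1 / s ≤ 1 := by
    have : 0 ≤ 1 / s := by positivity
    linarith
  have h7 : (1 - 1 / s) * (Z1 + Z2) ≤ (A - B) ^ 2 := by
    calc (1 - 1 / s) * (Z1 + Z2) ≤ (1 - 1 / s) * (A - B) ^ 2 := mul_le_mul_of_nonneg_left hZ h5
      _ ≤ 1 * (A - B) ^ 2 := mul_le_mul_of_nonneg_right h6 (sq_nonneg _)
      _ = (A - B) ^ 2 := one_mul _
  have h8 : (s - 1) * (αp + αm) ≤ (s - 1) * (P * (Q1 + Q2) + (1 - 2 / s) * (Z1 + Z2)) :=
    mul_le_mul_of_nonneg_left (by linarith) (by linarith)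
  have h9 : (s - 1) * ((1 - 2 / s) * (Z1 + Z2)) = (s - 2) * ((1 - 1 / s) * (Z1 + Z2)) := by
    rw [← mul_assoc, hβ]; ring
  have h10 : (s - 2) * ((1 - 1 / s) * (Z1 + Z2)) ≤ (s - 2) * (A - B) ^ 2 :=
    mul_le_mul_of_nonneg_left h7 (by linarith)
  nlinarith

private theorem hesS_norm {s : ℝ} (hs : 2 ≤ s) (w v : M → ℝ) (hw : ∀ μ, 0 < w μ)
    (h1 : (av fun μ => w μ ^ s) = 1) :
    HS s w v ≤ (s - 1) * 2 ^ (2 / s - 1) * (N2 s (pp v) + N2 s (np v)) := by
  rw [HS, h1, Real.one_rpow, Real.one_rpow, mul_one, mul_one]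
  have hα : (av fun μ => w μ ^ (s - 2) * v μ ^ 2) =
      (av fun μ => w μ ^ (s - 2) * pp v μ ^ 2) + av fun μ => w μ ^ (s - 2) * np v μ ^ 2 := by
    rw [← av_add]
    refine av_congr fun μ => ?_
    rw [← mul_add]
    congr 1
    rcases le_total 0 (v μ) with h | h
    · simp only [pp, np]
      rw [max_eq_left h, max_eq_right (by linarith)]
      ring
    · simp only [pp, np]
      rw [max_eq_right h, max_eq_left (by linarith)]
      ring
  have hX : (av fun μ => w μ ^ (s - 1) * v μ) =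
      (av fun μ => w μ ^ (s - 1) * pp v μ) - av fun μ => w μ ^ (s - 1) * np v μ := by
    rw [← av_sub]
    refine av_congr fun μ => ?_
    rw [← mul_sub]
    congr 1
    rcases le_total 0 (v μ) with h | h
    · simp only [pp, np]
      rw [max_eq_left h, max_eq_right (by linarith)]
      ring
    · simp only [pp, np]
      rw [max_eq_right h, max_eq_left (by linarith)]
      ring
  obtain ⟨P, hP⟩ : ∃ P : M → Prop, ∀ μ, P μ ↔ 0 ≤ v μ := ⟨fun μ => 0 ≤ v μ, fun _ => Iff.rfl⟩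
  obtain ⟨R, hR⟩ : ∃ R : M → Prop, ∀ μ, R μ ↔ ¬ 0 ≤ v μ := ⟨fun μ => ¬ 0 ≤ v μ, fun _ => Iff.rfl⟩
  have hBp : ∀ μ, ¬ P μ → pp v μ = 0 := fun μ h => by
    rw [hP] at h
    simp only [pp]
    exact max_eq_right (not_le.mp h).le
  have hBm : ∀ μ, ¬ R μ → np v μ = 0 := fun μ h => by
    rw [hR] at h
    simp only [np]
    exact max_eq_right (by linarith [not_not.mp h])
  have hWs : (av fun μ => if P μ then w μ ^ s else 0) +
      (av fun μ => if R μ then w μ ^ s else 0) = 1 := by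
    rw [← av_add, ← h1]
    refine av_congr fun μ => ?_
    by_cases h : 0 ≤ v μ
    · rw [if_pos ((hP μ).mpr h), if_neg (fun h' => (hR μ).mp h' h), add_zero]
    · rw [if_neg (fun h' => h ((hP μ).mp h')), if_pos ((hR μ).mpr h), zero_add]
  have hWg : ∀ B : M → Prop, 0 ≤ av fun μ => if B μ then w μ ^ s else 0 := fun B =>
    av_nonneg fun μ => by
      by_cases hb : B μ
      · simp only [hb, if_true]
        exact Real.rpow_nonneg (hw μ).le _
      · simp only [hb, if_false]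
        exact le_rfl
  have hWp := hWg P
  have hWm := hWg R
  have hb1 := hesS_block hs w (pp v) hw (pp_nonneg v) P hBp (by linarith)
  have hb2 := hesS_block hs w (np v) hw (np_nonneg v) R hBm (by linarith)
  have hz1 : (av fun μ => if P μ then w μ ^ s else 0) = 0 →
      (av fun μ => w μ ^ (s - 1) * pp v μ) = 0 := fun h => by
    have hv0 := hesS_empty hw hBp h
    rw [av_congr (g := fun _ => (0 : ℝ)) fun μ => by rw [hv0 μ]; ring]
    exact av_zero
  have hz2 : (av fun μ => if R μ then w μ ^ s else 0) = 0 →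
      (av fun μ => w μ ^ (s - 1) * np v μ) = 0 := fun h => by
    have hv0 := hesS_empty hw hBm h
    rw [av_congr (g := fun _ => (0 : ℝ)) fun μ => by rw [hv0 μ]; ring]
    exact av_zero
  rw [hα, hX]
  have e : (2 : ℝ) / s - 1 = -(1 - 2 / s) := by ring
  rw [e]
  rw [mul_assoc] at hb1 hb2
  exact hesS_alg hs hWs hWp hWm hz1 hz2 rfl rfl hb1 hb2

theorem hesS {s : ℝ} (hs : 2 ≤ s) (w v : M → ℝ) (hw : ∀ μ, 0 < w μ) :
    HS s w v ≤ (s - 1) * 2 ^ (2 / s - 1) * (N2 s (pp v) + N2 s (np v)) := by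
  have hs0 : (0 : ℝ) < s := by linarith
  obtain ⟨S, hS⟩ : ∃ S, S = av fun μ => w μ ^ s := ⟨_, rfl⟩
  have hS0 : 0 < S := by rw [hS]; exact av_pos fun μ => Real.rpow_pos_of_pos (hw μ) s
  obtain ⟨c, hc⟩ : ∃ c, c = S ^ (1 / s) := ⟨_, rfl⟩
  have hc0 : 0 < c := by rw [hc]; exact Real.rpow_pos_of_pos hS0 _
  have hcp : ∀ t : ℝ, c ^ t = S ^ (t / s) := fun t => by
    rw [hc, ← Real.rpow_mul hS0.le]
    congr 1
    ring
  have hcs : c ^ s = S := by rw [hcp, div_self hs0.ne', Real.rpow_one]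
  have hdiv : ∀ (t : ℝ) (μ : M), (w μ / c) ^ t = (S ^ (t / s))⁻¹ * w μ ^ t := fun t μ => by
    rw [Real.div_rpow (hw μ).le hc0.le, hcp, div_eq_mul_inv, mul_comm]
  have hn : (av fun μ => (w μ / c) ^ s) = 1 := by
    rw [av_congr (g := fun μ => (S ^ (s / s))⁻¹ * w μ ^ s) fun μ => hdiv s μ, av_mul_left, ← hS,
      div_self hs0.ne', Real.rpow_one]
    exact inv_mul_cancel₀ hS0.ne'
  have key : HS s (fun μ => w μ / c) v = HS s w v := by
    have e1 : (av fun μ => (w μ / c) ^ (s - 2) * v μ ^ 2) =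
        S ^ (2 / s - 1) * av fun μ => w μ ^ (s - 2) * v μ ^ 2 := by
      rw [← av_mul_left]
      refine av_congr fun μ => ?_
      rw [hdiv, ← Real.rpow_neg hS0.le, mul_assoc]
      congr 2
      field_simp
      ring
    have e2 : (av fun μ => (w μ / c) ^ (s - 1) * v μ) =
        S ^ (1 / s - 1) * av fun μ => w μ ^ (s - 1) * v μ := by
      rw [← av_mul_left]
      refine av_congr fun μ => ?_
      rw [hdiv, ← Real.rpow_neg hS0.le, mul_assoc]
      congr 2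
      field_simp
      ring
    have e3 : (S ^ (1 / s - 1)) ^ 2 = S ^ (2 / s - 2) := by
      rw [← Real.rpow_natCast, ← Real.rpow_mul hS0.le]
      congr 1
      push_cast
      ring
    rw [HS, HS, hn, Real.one_rpow, Real.one_rpow, mul_one, mul_one, e1, e2, ← hS, mul_pow, e3]
    ring
  rw [← key]
  exact hesS_norm hs (fun μ => w μ / c) v (fun μ => div_pos (hw μ) hc0) hn

end

end Pool.Agent.H90.DG
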