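import Pool.Agent.H90.DG.Av

/-!
MODULE Hol (about 130 lines). Hölder inequalities on the support of `v`.

All functions on a finite type, `w > 0`, `v ≥ 0`, `v` vanishes outside `B`.
Hölder: `Real.inner_le_Lp_mul_Lq_of_nonneg` (sums), then divide by the cardinality; or in the form
`av (f g) ≤ (av (f ^ p)) ^ (1/p) (av (g ^ q)) ^ (1/q)`.

`holS1` (`s > 2`; for `s = 2` both sides are `av (v ^ 2)`): `w^(s-2) v^2 =
 (v^s) ^ (1/(s-1)) (w^(s-1) v) ^ ((s-2)/(s-1))`, Hölder with exponents `s-1`, `(s-1)/(s-2)`: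
 `av (w^(s-2) v^2) ≤ (av v^s)^(1/(s-1)) (av (w^(s-1) v))^((s-2)/(s-1))`, and
 `(N2 s v)^(s/(2(s-1))) = (av v^s)^(1/(s-1))`, `(X^2)^((s-2)/(2(s-1))) = X^((s-2)/(s-1))`.
`holS2` and `holP2` (any `r > 1`): `w^(r-1) v = (1_B w^(r-1)) v` with exponents `r/(r-1)`, `r`:
 `X ≤ (av (1_B w^r))^((r-1)/r) (av v^r)^(1/r)`; square it.
`holP1` (`1 < p < 2`; `p = 2` trivial): `v^p = (w^(p-2) v^2)^(p-1) (w^(p-1) v)^(2-p)` with exponents
 `1/(p-1)`, `1/(2-p)`: `av v^p ≤ (av (w^(p-2) v^2))^(p-1) X^(2-p)`; power `2/p`.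
-/

namespace Pool.Agent.H90.DG

open Finset
open scoped Classical

noncomputable section

variable {M : Type} [Fintype M] [Nonempty M]

private lemma hol_av {θ : ℝ} (h0 : 0 ≤ θ) (h1 : θ ≤ 1) (f g : M → ℝ) (hf : ∀ i, 0 ≤ f i)
    (hg : ∀ i, 0 ≤ g i) :
    (av fun i => f i ^ θ * g i ^ (1 - θ)) ≤ (av f) ^ θ * (av g) ^ (1 - θ) := by
  rcases h0.eq_or_lt with h | h0'
  · subst h
    simp
  rcases h1.eq_or_lt with h | h1'
  · subst h
    simp
  have hpq : (1 / θ).HolderConjugate (1 / (1 - θ)) := by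
    refine Real.holderConjugate_iff.2 ⟨?_, ?_⟩
    · rw [lt_div_iff₀ h0']; linarith
    · have : 1 - θ ≠ 0 := by linarith
      field_simp
      ring
  have hF : ∀ i, (f i ^ θ) ^ (1 / θ) = f i := fun i => by
    rw [← Real.rpow_mul (hf i), mul_one_div_cancel h0'.ne', Real.rpow_one]
  have hG : ∀ i, (g i ^ (1 - θ)) ^ (1 / (1 - θ)) = g i := fun i => by
    rw [← Real.rpow_mul (hg i), mul_one_div_cancel (by linarith : (1 - θ) ≠ 0), Real.rpow_one]
  have key := Real.inner_le_Lp_mul_Lq_of_nonneg (s := (Finset.univ : Finset M)) hpq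
    (f := fun i => f i ^ θ) (g := fun i => g i ^ (1 - θ))
    (fun i _ => Real.rpow_nonneg (hf i) _) (fun i _ => Real.rpow_nonneg (hg i) _)
  simp only [hF, hG, one_div_one_div] at key
  have hc := card_pos' (α := M)
  have hsf : 0 ≤ ∑ i, f i := Finset.sum_nonneg fun i _ => hf i
  have hsg : 0 ≤ ∑ i, g i := Finset.sum_nonneg fun i _ => hg i
  unfold av
  rw [Real.div_rpow hsf hc.le, Real.div_rpow hsg hc.le, div_mul_div_comm,
    ← Real.rpow_add hc, add_sub_cancel, Real.rpow_one]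
  exact div_le_div_of_nonneg_right key hc.le

theorem holS1 {s : ℝ} (hs : 2 ≤ s) (w v : M → ℝ) (hw : ∀ μ, 0 < w μ) (hv : ∀ μ, 0 ≤ v μ) :
    (av fun μ => w μ ^ (s - 2) * v μ ^ 2) ≤
      (N2 s v) ^ (s / (2 * (s - 1))) *
        ((av fun μ => w μ ^ (s - 1) * v μ) ^ 2) ^ ((s - 2) / (2 * (s - 1))) := by
  have hs1 : 0 < s - 1 := by linarith
  have hA : ∀ μ, w μ ^ (s - 2) * v μ ^ 2 =
      (v μ ^ s) ^ (1 / (s - 1)) * (w μ ^ (s - 1) * v μ) ^ (1 - 1 / (s - 1)) := by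
    intro μ
    rcases (hv μ).eq_or_lt with h | h
    · rw [← h, Real.zero_rpow (by linarith : s ≠ 0), Real.zero_rpow (by positivity)]
      ring
    · have hw1 := hw μ
      rw [Real.mul_rpow (Real.rpow_nonneg hw1.le _) h.le, ← Real.rpow_mul h.le,
        ← Real.rpow_mul hw1.le]
      have e1 : (s - 1) * (1 - 1 / (s - 1)) = s - 2 := by field_simp; ring
      rw [e1]
      have e2 : v μ ^ (s * (1 / (s - 1))) * (w μ ^ (s - 2) * v μ ^ (1 - 1 / (s - 1))) =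
          w μ ^ (s - 2) * (v μ ^ (s * (1 / (s - 1))) * v μ ^ (1 - 1 / (s - 1))) := by ring
      rw [e2, ← Real.rpow_add h]
      have e3 : s * (1 / (s - 1)) + (1 - 1 / (s - 1)) = 2 := by field_simp; ring
      rw [e3, Real.rpow_two]
  rw [av_congr hA]
  have h1 : 1 / (s - 1) ≤ 1 := by rw [div_le_one hs1]; linarith
  refine (hol_av (by positivity) h1 (fun μ => v μ ^ s) (fun μ => w μ ^ (s - 1) * v μ)
    (fun μ => Real.rpow_nonneg (hv μ) _)
    (fun μ => mul_nonneg (Real.rpow_nonneg (hw μ).le _) (hv μ))).trans (le_of_eq ?_)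
  have hX : 0 ≤ av fun μ => w μ ^ (s - 1) * v μ :=
    av_nonneg fun μ => mul_nonneg (Real.rpow_nonneg (hw μ).le _) (hv μ)
  have hV : 0 ≤ av fun μ => v μ ^ s := av_nonneg fun μ => Real.rpow_nonneg (hv μ) _
  unfold N2
  rw [← Real.rpow_mul hV, ← Real.rpow_two, ← Real.rpow_mul hX]
  have e1 : 2 / s * (s / (2 * (s - 1))) = 1 / (s - 1) := by
    have : s ≠ 0 := by linarith
    field_simp
  have e2 : 2 * ((s - 2) / (2 * (s - 1))) = 1 - 1 / (s - 1) := by field_simp; ring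
  rw [e1, e2]

theorem hol2 {r : ℝ} (hr : 1 < r) (w v : M → ℝ) (hw : ∀ μ, 0 < w μ) (hv : ∀ μ, 0 ≤ v μ)
    (B : M → Prop) (hB : ∀ μ, ¬ B μ → v μ = 0) :
    (av fun μ => w μ ^ (r - 1) * v μ) ^ 2 ≤
      (av fun μ => if B μ then w μ ^ r else 0) ^ (2 - 2 / r) * N2 r v := by
  have hr0 : 0 < r := by linarith
  have hA : ∀ μ, w μ ^ (r - 1) * v μ =
      (if B μ then w μ ^ r else 0) ^ (1 - 1 / r) * (v μ ^ r) ^ (1 - (1 - 1 / r)) := by
    intro μ
    have e0 : 1 - (1 - 1 / r) = 1 / r := by ring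
    rw [e0, ← Real.rpow_mul (hv μ), mul_one_div_cancel hr0.ne', Real.rpow_one]
    by_cases hb : B μ
    · rw [if_pos hb, ← Real.rpow_mul (hw μ).le]
      congr 2
      field_simp
    · rw [hB μ hb]
      ring
  have h1 : 0 ≤ 1 - 1 / r := by
    rw [sub_nonneg, div_le_one hr0]; exact hr.le
  have h2 : 1 - 1 / r ≤ 1 := by
    have : 0 ≤ 1 / r := by positivity
    linarith
  have hF : ∀ μ, 0 ≤ (if B μ then w μ ^ r else 0) := by
    intro μ
    split_ifs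
    · exact Real.rpow_nonneg (hw μ).le _
    · exact le_rfl
  have key := hol_av h1 h2 (fun μ => if B μ then w μ ^ r else 0) (fun μ => v μ ^ r) hF
    (fun μ => Real.rpow_nonneg (hv μ) _)
  have hX : 0 ≤ av fun μ => w μ ^ (r - 1) * v μ :=
    av_nonneg fun μ => mul_nonneg (Real.rpow_nonneg (hw μ).le _) (hv μ)
  have hV : 0 ≤ av fun μ => v μ ^ r := av_nonneg fun μ => Real.rpow_nonneg (hv μ) _
  have hY : 0 ≤ av fun μ => if B μ then w μ ^ r else 0 := av_nonneg hF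
  rw [← av_congr hA] at key
  have h3 := pow_le_pow_left₀ hX key 2
  refine h3.trans (le_of_eq ?_)
  unfold N2
  rw [mul_pow, ← Real.rpow_two, ← Real.rpow_two, ← Real.rpow_mul hY, ← Real.rpow_mul hV]
  congr 2 <;> ring

theorem holP1 {p : ℝ} (hp1 : 1 < p) (hp2 : p ≤ 2) (w v : M → ℝ) (hw : ∀ μ, 0 < w μ)
    (hv : ∀ μ, 0 ≤ v μ) :
    N2 p v ≤ (av fun μ => w μ ^ (p - 2) * v μ ^ 2) ^ (2 - 2 / p) *
      ((av fun μ => w μ ^ (p - 1) * v μ) ^ 2) ^ (2 / p - 1) := by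
  have hA : ∀ μ, v μ ^ p =
      (w μ ^ (p - 2) * v μ ^ 2) ^ (p - 1) * (w μ ^ (p - 1) * v μ) ^ (1 - (p - 1)) := by
    intro μ
    rcases (hv μ).eq_or_lt with h | h
    · rw [← h, Real.zero_rpow (by linarith : p ≠ 0)]
      have : w μ ^ (p - 2) * (0 : ℝ) ^ 2 = 0 := by ring
      rw [this, Real.zero_rpow (by linarith : p - 1 ≠ 0), zero_mul]
    · have hw1 := hw μ
      rw [← Real.rpow_two, Real.mul_rpow (Real.rpow_nonneg hw1.le _) (Real.rpow_nonneg h.le _),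
        Real.mul_rpow (Real.rpow_nonneg hw1.le _) h.le, ← Real.rpow_mul h.le,
        ← Real.rpow_mul hw1.le, ← Real.rpow_mul hw1.le]
      have e2 : w μ ^ ((p - 2) * (p - 1)) * v μ ^ (2 * (p - 1)) *
          (w μ ^ ((p - 1) * (1 - (p - 1))) * v μ ^ (1 - (p - 1))) =
          (w μ ^ ((p - 2) * (p - 1)) * w μ ^ ((p - 1) * (1 - (p - 1)))) *
          (v μ ^ (2 * (p - 1)) * v μ ^ (1 - (p - 1))) := by ring
      rw [e2, ← Real.rpow_add hw1, ← Real.rpow_add h]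
      have e3 : (p - 2) * (p - 1) + (p - 1) * (1 - (p - 1)) = 0 := by ring
      have e4 : 2 * (p - 1) + (1 - (p - 1)) = p := by ring
      rw [e3, e4, Real.rpow_zero, one_mul]
  have key := hol_av (by linarith : 0 ≤ p - 1) (by linarith : p - 1 ≤ 1)
    (fun μ => w μ ^ (p - 2) * v μ ^ 2) (fun μ => w μ ^ (p - 1) * v μ)
    (fun μ => mul_nonneg (Real.rpow_nonneg (hw μ).le _) (sq_nonneg _))
    (fun μ => mul_nonneg (Real.rpow_nonneg (hw μ).le _) (hv μ))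
  rw [← av_congr hA] at key
  have hX : 0 ≤ av fun μ => w μ ^ (p - 1) * v μ :=
    av_nonneg fun μ => mul_nonneg (Real.rpow_nonneg (hw μ).le _) (hv μ)
  have hY : 0 ≤ av fun μ => w μ ^ (p - 2) * v μ ^ 2 :=
    av_nonneg fun μ => mul_nonneg (Real.rpow_nonneg (hw μ).le _) (sq_nonneg _)
  have hV : 0 ≤ av fun μ => v μ ^ p := av_nonneg fun μ => Real.rpow_nonneg (hv μ) _
  have hp0 : 0 < p := by linarith
  unfold N2
  refine (Real.rpow_le_rpow hV key (by positivity)).trans (le_of_eq ?_)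
  rw [Real.mul_rpow (Real.rpow_nonneg hY _) (Real.rpow_nonneg hX _), ← Real.rpow_mul hY,
    ← Real.rpow_mul hX, ← Real.rpow_two (av fun μ => w μ ^ (p - 1) * v μ), ← Real.rpow_mul hX]
  congr 2 <;> field_simp <;> ring

end

end Pool.Agent.H90.DG
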