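import Pool.Agent.H90.DG.Av

/-!
MODULE Law (about 130 lines). The law of the twists conditioned on keeping the first coordinate.

`law_av`: let `φ = (fst e).comp i : M' → F2`, `φ ν = 1`. The condition
`fst e (tw i b c j) = fst e (b j) + φ (c j) = 0` means `φ (c j) = fst e (b j)` (characteristic 2),
i.e. `c j = fst e (b j) • ν + c' j` with `c' j` in `ker φ`; then
`tw i b c j = b j + fst e (b j) • i ν + i (c' j) = (tw (kI e i) (kB e i b ν h) c' j : M)`.
So `c' ↦ c` is a bijection from `Fin m → ker φ` onto the set of the `c` with the condition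
(`Finset.sum_bij` or an `Equiv` to the subtype), and `card (Fin m → M') = 2^m card (Fin m → ker φ)`
because `card M' = 2 card (ker φ)` (`card_split` of `Pool/Agent/H18/DTO/Orb.lean`, or the
bijection `F2 × ker φ → M'`, or `av_split`-like argument).
`inj_law`: let `x` be a functional on `ker (fst e)` with `x ∘ kI = 0` and `x (kB j) = 0`. Extend it
to a functional `x'` on `M` (`LinearMap.exists_extend`, `Submodule`). `x' ∘ i` vanishes on `ker φ`,
so `x' (i μ) = x' (i ν) * φ μ` for all `μ` (`μ - φ μ • ν` is in `ker φ`). Put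
`z = x' - x' (i ν) • fst e`: then `z (i μ) = 0` for all `μ`, and
`z (b j) = z (b j + fst e (b j) • i ν) = x (kB j) - x' (i ν) * fst e (kB j) = 0`. By `Inj`, `z = 0`,
and on `ker (fst e)` `x = x' = z = 0`.
`kept_none`: if `fst e ∘ i = 0`, then `fst e (tw i b c j) = fst e (b j)`, which is not zero for
some `j` (else `Inj` gives `fst e = 0`).
-/

namespace Pool.Agent.H90.DG

open Finset
open scoped Classical

noncomputable section

variable {M M' : Type} [AddCommGroup M] [Module F2 M] [Fintype M]
  [AddCommGroup M'] [Module F2 M'] [Fintype M'] {m n : ℕ}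

/-- a vector is a multiple of `ν` plus a vector in the kernel -/
private def lawEquiv (φ : M' →ₗ[F2] F2) (ν : M') (h : φ ν = 1) :
    F2 × LinearMap.ker φ ≃ M' where
  toFun p := p.1 • ν + p.2.1
  invFun x := (φ x, ⟨x - φ x • ν, by
    rw [LinearMap.mem_ker, map_sub, map_smul, h, smul_eq_mul, mul_one, sub_self]⟩)
  left_inv p := by
    obtain ⟨t, k⟩ := p
    have hk : φ k.1 = 0 := LinearMap.mem_ker.1 k.2
    have e1 : φ (t • ν + k.1) = t := by
      rw [map_add, map_smul, h, hk, smul_eq_mul, mul_one, add_zero]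
    refine Prod.ext e1 (Subtype.ext ?_)
    show t • ν + k.1 - φ (t • ν + k.1) • ν = k.1
    rw [e1, add_sub_cancel_left]
  right_inv x := by
    show φ x • ν + (x - φ x • ν) = x
    rw [add_sub_cancel]

private def lawSigma (φ : M' →ₗ[F2] F2) (ν : M') (h : φ ν = 1) (m : ℕ) :
    (Fin m → F2) × (Fin m → LinearMap.ker φ) ≃ (Fin m → M') :=
  (Equiv.arrowProdEquivProdArrow (Fin m) (fun _ => F2) (fun _ => LinearMap.ker φ)).symm.trans
    (Equiv.piCongrRight fun _ => lawEquiv φ ν h)

private lemma lawSigma_apply (φ : M' →ₗ[F2] F2) (ν : M') (h : φ ν = 1) (m : ℕ)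
    (p : (Fin m → F2) × (Fin m → LinearMap.ker φ)) (j : Fin m) :
    lawSigma φ ν h m p j = p.1 j • ν + (p.2 j).1 := rfl

theorem law_av (e : M →ₗ[F2] (Fin (n + 1) → F2)) (i : M' →ₗ[F2] M) (b : Fin m → M) (ν : M')
    (h : fst e (i ν) = 1) (Φ : (Fin m → M) → ℝ) :
    (av fun c : Fin m → M' => if ∀ j, fst e (tw i b c j) = 0 then Φ (tw i b c) else 0) =
      (1 / 2 ^ m) * av fun c : Fin m → LinearMap.ker ((fst e).comp i) =>
        Φ fun j => (tw (kI e i) (kB e i b ν h) c j).1 := by
  have hφ : ((fst e).comp i) ν = 1 := h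
  set X : ℝ := av fun c : Fin m → LinearMap.ker ((fst e).comp i) =>
        Φ fun j => (tw (kI e i) (kB e i b ν h) c j).1 with hX
  set t₀ : Fin m → F2 := fun j => fst e (b j) with ht₀
  -- the first coordinate of a twist
  have hfst : ∀ (t : Fin m → F2) (c : Fin m → LinearMap.ker ((fst e).comp i)) (j : Fin m),
      fst e (tw i b (lawSigma ((fst e).comp i) ν hφ m (t, c)) j) = t₀ j + t j := by
    intro t c j
    have hk : fst e (i (c j).1) = 0 := LinearMap.mem_ker.1 (c j).2
    show fst e (b j + i (lawSigma ((fst e).comp i) ν hφ m (t, c) j)) = t₀ j + t j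
    rw [lawSigma_apply, map_add, map_add, map_smul, map_add, map_smul, hk, h, smul_eq_mul,
      mul_one, add_zero]
  have hz : ∀ a b : F2, a + b = 0 ↔ b = a := by decide
  have hin : ∀ t : Fin m → F2, (av fun c : Fin m → LinearMap.ker ((fst e).comp i) =>
      if ∀ j, fst e (tw i b (lawSigma ((fst e).comp i) ν hφ m (t, c)) j) = 0 then
        Φ (tw i b (lawSigma ((fst e).comp i) ν hφ m (t, c))) else 0) =
      if t = t₀ then X else 0 := by
    intro t
    by_cases ht : t = t₀
    · subst ht
      rw [if_pos rfl, hX]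
      refine av_congr fun c => ?_
      rw [if_pos]
      · congr 1
        funext j
        show b j + i (lawSigma ((fst e).comp i) ν hφ m (t₀, c) j) =
          b j + fst e (b j) • i ν + i (c j).1
        rw [lawSigma_apply, map_add, map_smul, add_assoc]
      · intro j
        rw [hfst]
        exact CharTwo.add_self_eq_zero _
    · rw [if_neg ht]
      have h0 : ∀ c : Fin m → LinearMap.ker ((fst e).comp i),
          (if ∀ j, fst e (tw i b (lawSigma ((fst e).comp i) ν hφ m (t, c)) j) = 0 then
            Φ (tw i b (lawSigma ((fst e).comp i) ν hφ m (t, c))) else 0) = 0 := by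
        intro c
        rw [if_neg]
        intro hall
        refine ht (funext fun j => ?_)
        have := hall j
        rw [hfst] at this
        exact (hz _ _).1 this
      rw [av_congr h0, av_zero]
  rw [← av_equiv (lawSigma ((fst e).comp i) ν hφ m), av_prod, av_congr hin]
  unfold av
  rw [Finset.sum_ite_eq' Finset.univ t₀ fun _ => X, if_pos (Finset.mem_univ _)]
  have hc : (Fintype.card (Fin m → F2) : ℝ) = 2 ^ m := by
    rw [Fintype.card_fun, ZMod.card, Fintype.card_fin]
    norm_num
  rw [hc]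
  ring

theorem inj_law (e : M →ₗ[F2] (Fin (n + 1) → F2)) (i : M' →ₗ[F2] M) (b : Fin m → M) (ν : M')
    (h : fst e (i ν) = 1) (hi : Inj i b) : Inj (kI e i) (kB e i b ν h) := by
  intro x hx hxb
  obtain ⟨x', hx'⟩ := LinearMap.exists_extend (p := LinearMap.ker (fst e)) x
  have hr : ∀ y : LinearMap.ker (fst e), x' y.1 = x y := fun y => by
    rw [← hx']; rfl
  -- `x' ∘ i` is a multiple of `fst e ∘ i`
  have h1 : ∀ μ, x' (i μ) = x' (i ν) * fst e (i μ) := by
    intro μ
    have hk : fst e (i (μ - fst e (i μ) • ν)) = 0 := by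
      rw [map_sub, map_sub, map_smul, map_smul, h, smul_eq_mul, mul_one, sub_self]
    have h2 := hx ⟨μ - fst e (i μ) • ν, LinearMap.mem_ker.2 hk⟩
    rw [← hr] at h2
    have h3 : x' (i (μ - fst e (i μ) • ν)) = 0 := h2
    rw [map_sub, map_sub, map_smul, map_smul, smul_eq_mul, sub_eq_zero] at h3
    rw [h3, mul_comm]
  have hz : x' - x' (i ν) • fst e = 0 := by
    refine hi _ (fun μ => ?_) (fun j => ?_)
    · rw [LinearMap.sub_apply, LinearMap.smul_apply, smul_eq_mul, h1 μ, sub_self]
    · have h2 := hxb j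
      rw [← hr] at h2
      have h3 : x' (b j + fst e (b j) • i ν) = 0 := h2
      rw [map_add, map_smul, smul_eq_mul] at h3
      rw [LinearMap.sub_apply, LinearMap.smul_apply, smul_eq_mul]
      have h4 : x' (b j) = -(fst e (b j) * x' (i ν)) := eq_neg_of_add_eq_zero_left h3
      rw [h4, mul_comm (x' (i ν))]
      have h5 : ∀ a : F2, -a - a = 0 := by decide
      exact h5 _
  refine LinearMap.ext fun y => ?_
  have hy : fst e y.1 = 0 := LinearMap.mem_ker.1 y.2
  have h6 := congrArg (fun f : M →ₗ[F2] F2 => f y.1) hz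
  simp only [LinearMap.sub_apply, LinearMap.smul_apply, hy, smul_eq_mul, mul_zero, sub_zero,
    LinearMap.zero_apply] at h6
  rw [← hr, h6]
  rfl

theorem kept_none (e : M →ₗ[F2] (Fin (n + 1) → F2)) (i : M' →ₗ[F2] M) (b : Fin m → M)
    (he : ¬ ∀ μ, fst e μ = 0) (h : ∀ ν, fst e (i ν) = 0) (hi : Inj i b) (c : Fin m → M') :
    ¬ ∀ j, fst e (tw i b c j) = 0 := by
  intro hall
  apply he
  have h0 : fst e = 0 := by
    refine hi _ h fun j => ?_
    have h1 : fst e (b j + i (c j)) = 0 := hall j
    rwa [map_add, h, add_zero] at h1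
  intro μ
  rw [h0]
  rfl

end

end Pool.Agent.H90.DG
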