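import Pool.Agent.H90.DG.Cvx
import Pool.Agent.H90.DG.HesS
import Pool.Agent.H90.DG.HesP

/-!
MODULE Loc (about 80 lines). The local inequalities.

For `u > 0` this is `cvx_upper` with `hesS` (`w = u + t v > 0` for `|t| < 1`), resp. `cvx_lower`
with `hesP`. In general replace `u` by `u + ε`, `ε > 0` (the right hand term with `v` does not
change), and let `ε → 0+`: `ε ↦ N2 s (u + ε + v)` is continuous (`s > 0`, `2/s > 0`:
`Real.continuous_rpow_const`, `Continuous.rpow_const`), `le_of_tendsto_of_tendsto'` or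
`ge_of_tendsto` along `𝓝[>] 0`.
-/

namespace Pool.Agent.H90.DG

open Finset
open scoped Classical

noncomputable section

variable {M : Type} [Fintype M] [Nonempty M]

omit [Nonempty M] in
private lemma continuous_N2_add {s : ℝ} (hs : 0 < s) (f : M → ℝ) :
    Continuous fun ε : ℝ => N2 s fun μ => f μ + ε := by
  unfold N2 av
  have h1 : Continuous fun ε : ℝ => (∑ μ, (f μ + ε) ^ s) / (Fintype.card M : ℝ) := by
    refine Continuous.div_const ?_ _
    refine continuous_finsetSum _ fun μ _ => ?_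
    exact (continuous_const.add continuous_id).rpow_const fun _ => Or.inr hs.le
  exact h1.rpow_const fun _ => Or.inr (div_pos two_pos hs).le

omit [Fintype M] [Nonempty M] in
private lemma pos_add {u v : M → ℝ} (hv : ∀ μ, |v μ| ≤ u μ) {ε t : ℝ} (hε : 0 < ε)
    (ht : |t| < 1) (μ : M) : 0 < u μ + ε + t * v μ := by
  have h1 : |t * v μ| ≤ |v μ| := by
    rw [abs_mul]
    exact mul_le_of_le_one_left (abs_nonneg _) ht.le
  have h2 := neg_abs_le (t * v μ)
  have h3 := hv μ
  linarith

theorem locS {s : ℝ} (hs : 2 ≤ s) (u v : M → ℝ) (hv : ∀ μ, |v μ| ≤ u μ) :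
    ((N2 s fun μ => u μ + v μ) + N2 s fun μ => u μ - v μ) / 2 ≤
      N2 s u + (s - 1) * 2 ^ (2 / s - 1) * (N2 s (pp v) + N2 s (np v)) := by
  have hs0 : 0 < s := by linarith
  have key : ∀ ε : ℝ, 0 < ε →
      ((N2 s fun μ => (u μ + v μ) + ε) + N2 s fun μ => (u μ - v μ) + ε) / 2 ≤
        (N2 s fun μ => u μ + ε) + (s - 1) * 2 ^ (2 / s - 1) * (N2 s (pp v) + N2 s (np v)) := by
    intro ε hε
    have h := cvx_upper (r := s) (by linarith) (fun μ => u μ + ε) v
      (fun μ => by have := (abs_nonneg (v μ)).trans (hv μ); linarith)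
      (fun μ => (hv μ).trans (by linarith)) _
      (fun t ht => hesS hs (fun μ => u μ + ε + t * v μ) v (pos_add hv hε ht))
    have e1 : (fun μ => (u μ + v μ) + ε) = fun μ => u μ + ε + v μ := by funext μ; ring
    have e2 : (fun μ => (u μ - v μ) + ε) = fun μ => u μ + ε - v μ := by funext μ; ring
    rw [e1, e2]
    exact h
  have hL : Filter.Tendsto (fun ε : ℝ =>
      ((N2 s fun μ => (u μ + v μ) + ε) + N2 s fun μ => (u μ - v μ) + ε) / 2)
      (nhdsWithin 0 (Set.Ioi 0))
      (nhds (((N2 s fun μ => (u μ + v μ) + 0) + N2 s fun μ => (u μ - v μ) + 0) / 2)) :=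
    ((((continuous_N2_add hs0 _).add (continuous_N2_add hs0 _)).div_const 2).tendsto 0).mono_left
      nhdsWithin_le_nhds
  have hR : Filter.Tendsto (fun ε : ℝ =>
      (N2 s fun μ => u μ + ε) + (s - 1) * 2 ^ (2 / s - 1) * (N2 s (pp v) + N2 s (np v)))
      (nhdsWithin 0 (Set.Ioi 0))
      (nhds ((N2 s fun μ => u μ + 0) +
        (s - 1) * 2 ^ (2 / s - 1) * (N2 s (pp v) + N2 s (np v)))) :=
    (((continuous_N2_add hs0 u).add continuous_const).tendsto 0).mono_left nhdsWithin_le_nhds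
  have := le_of_tendsto_of_tendsto hL hR
    (Filter.eventually_of_mem self_mem_nhdsWithin fun ε hε => key ε hε)
  simpa only [add_zero] using this

theorem locP {p : ℝ} (hp1 : 1 < p) (hp2 : p ≤ 2) (u v : M → ℝ) (hv : ∀ μ, |v μ| ≤ u μ) :
    N2 p u + (p - 1) * 2 ^ (2 / p - 1) * (N2 p (pp v) + N2 p (np v)) ≤
      ((N2 p fun μ => u μ + v μ) + N2 p fun μ => u μ - v μ) / 2 := by
  have hs0 : 0 < p := by linarith
  have key : ∀ ε : ℝ, 0 < ε →
      (N2 p fun μ => u μ + ε) + (p - 1) * 2 ^ (2 / p - 1) * (N2 p (pp v) + N2 p (np v)) ≤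
      ((N2 p fun μ => (u μ + v μ) + ε) + N2 p fun μ => (u μ - v μ) + ε) / 2 := by
    intro ε hε
    have h := cvx_lower (r := p) hp1 (fun μ => u μ + ε) v
      (fun μ => by have := (abs_nonneg (v μ)).trans (hv μ); linarith)
      (fun μ => (hv μ).trans (by linarith)) _
      (fun t ht => hesP hp1 hp2 (fun μ => u μ + ε + t * v μ) v (pos_add hv hε ht))
    have e1 : (fun μ => (u μ + v μ) + ε) = fun μ => u μ + ε + v μ := by funext μ; ring
    have e2 : (fun μ => (u μ - v μ) + ε) = fun μ => u μ + ε - v μ := by funext μ; ring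
    rw [e1, e2]
    exact h
  have hL : Filter.Tendsto (fun ε : ℝ =>
      ((N2 p fun μ => (u μ + v μ) + ε) + N2 p fun μ => (u μ - v μ) + ε) / 2)
      (nhdsWithin 0 (Set.Ioi 0))
      (nhds (((N2 p fun μ => (u μ + v μ) + 0) + N2 p fun μ => (u μ - v μ) + 0) / 2)) :=
    ((((continuous_N2_add hs0 _).add (continuous_N2_add hs0 _)).div_const 2).tendsto 0).mono_left
      nhdsWithin_le_nhds
  have hR : Filter.Tendsto (fun ε : ℝ =>
      (N2 p fun μ => u μ + ε) + (p - 1) * 2 ^ (2 / p - 1) * (N2 p (pp v) + N2 p (np v)))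
      (nhdsWithin 0 (Set.Ioi 0))
      (nhds ((N2 p fun μ => u μ + 0) +
        (p - 1) * 2 ^ (2 / p - 1) * (N2 p (pp v) + N2 p (np v)))) :=
    (((continuous_N2_add hs0 u).add continuous_const).tendsto 0).mono_left nhdsWithin_le_nhds
  have := le_of_tendsto_of_tendsto hR hL
    (Filter.eventually_of_mem self_mem_nhdsWithin fun ε hε => key ε hε)
  simpa only [add_zero] using this

end

end Pool.Agent.H90.DG
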