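import Mathlib

/-!
MODULE Num (about 80 lines, Mathlib only). The parameters.

`s = 1 + √D`, `p = 1 + 1/√D`, `D = 2 ^ m ≥ 1`, so `√D ≥ 1`, `√D ^ 2 = D`.
`num_fin`: with `R = 2 ^ k > 0`, `N = D R`: `R⁻¹ R^(1/s) N^(1/s) = D^(1/s) R^(2/s - 1)`, and
`2/s - 1 = -((√D - 1)/(√D + 1))`; `D^(1/s) ≤ 2` because `D^(1/s) = 2^(m/s)` and `m ≤ s = 1 + √D`,
i.e. `(m - 1)^2 ≤ 2^m` for `m ≥ 1` (induction; check `m ≤ 6` by `decide` or `norm_num`).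
-/

namespace Pool.Agent.H90.DG

noncomputable section

private lemma nu_ge (m : ℕ) : 1 ≤ √((2 : ℝ) ^ m) :=
  Real.one_le_sqrt.2 (one_le_pow₀ (by norm_num))

private lemma nu_sq (m : ℕ) : √((2 : ℝ) ^ m) ^ 2 = 2 ^ m := Real.sq_sqrt (by positivity)

theorem num_s (m : ℕ) : 2 ≤ 1 + √((2 : ℝ) ^ m) := by
  linarith [nu_ge m]

theorem num_p1 (m : ℕ) : 1 < 1 + 1 / √((2 : ℝ) ^ m) := by
  have h := nu_ge m
  have h2 : 0 < 1 / √((2 : ℝ) ^ m) := by positivity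
  linarith

theorem num_p2 (m : ℕ) : 1 + 1 / √((2 : ℝ) ^ m) ≤ 2 := by
  have h := nu_ge m
  have h2 : 1 / √((2 : ℝ) ^ m) ≤ 1 := by
    rw [div_le_one (by linarith)]
    exact h
  linarith

theorem num_sp (m : ℕ) :
    (1 + √((2 : ℝ) ^ m) - 1) * (1 / 2 ^ m) = 1 + 1 / √((2 : ℝ) ^ m) - 1 := by
  have h := nu_ge m
  have h2 := nu_sq m
  have e : (1 : ℝ) / 2 ^ m = 1 / √((2 : ℝ) ^ m) ^ 2 := by rw [h2]
  rw [e]
  generalize √((2 : ℝ) ^ m) = r at *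
  have h3 : r ≠ 0 := by linarith
  field_simp
  ring

theorem num_conj (m : ℕ) :
    1 / (1 + √((2 : ℝ) ^ m)) + 1 / (1 + 1 / √((2 : ℝ) ^ m)) = 1 := by
  have h := nu_ge m
  generalize √((2 : ℝ) ^ m) = r at *
  have h3 : r ≠ 0 := by linarith
  have h4 : 1 + r ≠ 0 := by linarith
  have h5 : 1 + 1 / r ≠ 0 := by positivity
  have h6 : r + 1 ≠ 0 := by linarith
  field_simp
  ring

theorem num_fin (m k : ℕ) :
    ((2 : ℝ) ^ k)⁻¹ * ((2 : ℝ) ^ k) ^ (1 / (1 + √((2 : ℝ) ^ m))) *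
        ((2 : ℝ) ^ m * 2 ^ k) ^ (1 / (1 + √((2 : ℝ) ^ m))) ≤
      2 * ((2 : ℝ) ^ k) ^ (-((√((2 : ℝ) ^ m) - 1) / (√((2 : ℝ) ^ m) + 1))) := by
  have h := nu_ge m
  have hsq := nu_sq m
  have hm : (m : ℝ) ≤ 1 + √((2 : ℝ) ^ m) := by
    have h1 : ((m : ℝ) - 1) ^ 2 ≤ 2 ^ m := by
      have h2 : ∀ k : ℕ, (k : ℤ) ^ 2 ≤ 2 ^ (k + 1) := by
        intro k
        rcases Nat.lt_or_ge k 4 with hk | hk
        · interval_cases k <;> norm_num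
        · induction k, hk using Nat.le_induction with
          | base => norm_num
          | succ k hk ih =>
            have hk' : (4 : ℤ) ≤ k := by exact_mod_cast hk
            have : ((k + 1 : ℕ) : ℤ) ^ 2 ≤ 2 * (k : ℤ) ^ 2 := by
              push_cast
              nlinarith
            calc ((k + 1 : ℕ) : ℤ) ^ 2 ≤ 2 * (k : ℤ) ^ 2 := this
              _ ≤ 2 * 2 ^ (k + 1) := by linarith
              _ = 2 ^ (k + 1 + 1) := by ring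
      rcases m with _ | k
      · norm_num
      · have h3 : ((k : ℝ)) ^ 2 ≤ 2 ^ (k + 1) := by exact_mod_cast h2 k
        push_cast
        rw [add_sub_cancel_right]
        exact h3
    have h2 : (m : ℝ) - 1 ≤ √((2 : ℝ) ^ m) := by
      refine (le_abs_self _).trans ?_
      rw [← Real.sqrt_sq_eq_abs]
      exact Real.sqrt_le_sqrt h1
    linarith
  set r := √((2 : ℝ) ^ m) with hr
  have hs0 : 0 < 1 + r := by linarith
  have hR : (0 : ℝ) < 2 ^ k := by positivity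
  have h2D : ((2 : ℝ) ^ m) ^ (1 / (1 + r)) ≤ 2 := by
    rw [← Real.rpow_natCast, ← Real.rpow_mul (by norm_num)]
    calc (2 : ℝ) ^ ((m : ℝ) * (1 / (1 + r))) ≤ 2 ^ (1 : ℝ) := by
          apply Real.rpow_le_rpow_of_exponent_le (by norm_num)
          rw [mul_one_div, div_le_one hs0]
          exact hm
      _ = 2 := Real.rpow_one 2
  rw [Real.mul_rpow (by positivity) hR.le]
  have hexp : ((2 : ℝ) ^ k)⁻¹ * ((2 : ℝ) ^ k) ^ (1 / (1 + r)) * ((2 : ℝ) ^ k) ^ (1 / (1 + r)) =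
      ((2 : ℝ) ^ k) ^ (-((r - 1) / (r + 1))) := by
    rw [← Real.rpow_neg_one, ← Real.rpow_add hR, ← Real.rpow_add hR]
    congr 1
    have h4 : 1 + r ≠ 0 := hs0.ne'
    have h5 : r + 1 ≠ 0 := by linarith
    field_simp
    ring
  calc ((2 : ℝ) ^ k)⁻¹ * ((2 : ℝ) ^ k) ^ (1 / (1 + r)) *
        (((2 : ℝ) ^ m) ^ (1 / (1 + r)) * ((2 : ℝ) ^ k) ^ (1 / (1 + r)))
      = ((2 : ℝ) ^ m) ^ (1 / (1 + r)) * (((2 : ℝ) ^ k)⁻¹ * ((2 : ℝ) ^ k) ^ (1 / (1 + r)) *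
        ((2 : ℝ) ^ k) ^ (1 / (1 + r))) := by ring
    _ = ((2 : ℝ) ^ m) ^ (1 / (1 + r)) * ((2 : ℝ) ^ k) ^ (-((r - 1) / (r + 1))) := by rw [hexp]
    _ ≤ _ := mul_le_mul_of_nonneg_right h2D (Real.rpow_nonneg hR.le _)

end

end Pool.Agent.H90.DG
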