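import Pool.Agent.H90.DG.ThB

/-!
MODULE Rix (about 90 lines). The main inequality for an arbitrary finite set of coordinates.

Take `σ : X ≃ Fin (card X)` (`Fintype.equivFin`), `e' μ j = e μ (σ.symm j)`
(`(LinearMap.funLeft F2 F2 σ.symm).comp e`), `a' f = a (f ∘ σ)`. The bijection
`f ↦ f ∘ σ` of `Fin (card X) → F2` with `X → F2` (`Equiv.arrowCongr`, or
`Equiv.piCongrLeft`) carries `orb`, `blur` and `kept` of `(e', a')` to those of `(e, a)`:
`orb r e' (h') = orb r e h` if `h' f = h (f ∘ σ)`;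
`blur (fun j => S (σ.symm j)) a' f = blur S a (f ∘ σ)`. Then `thmB_aux`.
-/

namespace Pool.Agent.H90.DG

open Finset
open scoped Classical

noncomputable section

section

variable {X Y M : Type} [Fintype X] [Fintype Y] [AddCommGroup M] [Module F2 M] [Fintype M]

private lemma rix_orb (σ : X ≃ Y) (r : ℝ) (e : M →ₗ[F2] (X → F2)) (h : (X → F2) → ℝ) :
    orb r ((LinearMap.funLeft F2 F2 σ.symm).comp e) (fun f => h (f ∘ σ)) = orb r e h := by
  simp only [orb]
  rw [← av_equiv (Equiv.arrowCongr σ (Equiv.refl F2))]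
  refine av_congr fun f => ?_
  have h1 : ∀ μ : M, ((Equiv.arrowCongr σ (Equiv.refl F2)) f +
      ((LinearMap.funLeft F2 F2 σ.symm).comp e) μ) ∘ σ = f + e μ := by
    intro μ
    funext x
    simp [LinearMap.funLeft_apply]
  simp only [h1]

private lemma rix_blur (σ : X ≃ Y) (S : X → Prop) (a : (X → F2) → ℝ) :
    blur (fun j => S (σ.symm j)) (fun f => a (f ∘ σ)) = fun f => blur S a (f ∘ σ) := by
  funext f
  simp only [blur]
  rw [← av_equiv (Equiv.arrowCongr σ (Equiv.refl F2))]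
  refine av_congr fun g => ?_
  congr 1
  funext x
  simp

end

theorem thmB {s p : ℝ} (hs2 : 2 ≤ s) (hp1 : 1 < p) (hp2 : p ≤ 2) {m : ℕ}
    (hsp : (s - 1) * (1 / 2 ^ m) = p - 1) (X M M' : Type) [Fintype X]
    [AddCommGroup M] [Module F2 M] [Fintype M] [AddCommGroup M'] [Module F2 M'] [Fintype M']
    (e : M →ₗ[F2] (X → F2)) (i : M' →ₗ[F2] M) (b : Fin m → M) (hi : Inj i b)
    (a : (X → F2) → ℝ) (ha : ∀ f, 0 ≤ a f) : Psi s e i b a ≤ orb p e a := by
  set σ := Fintype.equivFin X with hσ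
  have key := thmB_aux hs2 hp1 hp2 hsp (Fintype.card X) M M'
    ((LinearMap.funLeft F2 F2 σ.symm).comp e) i b hi (fun f => a (f ∘ σ)) (fun _ => ha _)
  rw [rix_orb σ p e a] at key
  refine le_trans (le_of_eq ?_) key
  simp only [Psi]
  refine av_congr fun c => ?_
  have h1 : kept ((LinearMap.funLeft F2 F2 σ.symm).comp e) (tw i b c) =
      fun j => kept e (tw i b c) (σ.symm j) := rfl
  rw [h1, rix_blur σ (kept e (tw i b c)) a, rix_orb σ s e]

end

end Pool.Agent.H90.DG
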