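import Pool.Agent.H90.DG.Edg
import Pool.Agent.H90.DG.Avg
import Pool.Agent.H90.DG.Rix
import Pool.Agent.H90.DG.Num

/-!
MODULE Snd (about 130 lines). Soundness of the instance.

Put `s = 1 + √(2 ^ m)`, `p = 1 + 1/√(2 ^ m)`, `R = card (AA k) = 2 ^ k`,
`N = card (AA m × AA k) = 2 ^ m 2 ^ k`, `a = cnt code T ≥ 0`, `H c = cnt codeB (F (c, ·)) ≥ 0`,
`K c = kept code (tw iB bB c)`.
`snd_c`: for every `c`: by `av_blur` (`h g = H c (res c g)`, `res_congr`) and `av_orbit` (for
`code`), `av_g a(g) H c (res c g) = av_g av_μ blur a (g + code μ) * H c (res c (g + code μ))`,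
and `res c (g + code μ) = res c g + codeB (μ.2 + tr c μ.1)` (`res_code`). `av_holder` bounds the
inner average by `√(N2 s (μ ↦ blur a (g + code μ))) * √(N2 p (μ ↦ H c (res c g + codeB ..)))`; by
`av_tr` and `cnt_pow`, `N2 p (..) = (av_β H c (res c g + codeB β)^p)^(2/p) ≤ (R^(p-1))^(2/p)`, so its
square root is at most `R^((p-1)/p) = R^(1/s)`. Finally `av_sqrt_le`:
`av_g √(N2 s ..) ≤ √(orb s code (blur (K c) a))`.
`snd`: average over `c` (`av_sqrt_le` again): at most `R^(1/s) √(Psi s code iB bB a)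
≤ R^(1/s) √(orb p code a)` by `thmB`, and `orb p code a = av_g (av_μ a(g + code μ)^p)^(2/p)
≤ (N^(p-1))^(2/p)` by `cnt_pow`; `√((N^(p-1))^(2/p)) = N^((p-1)/p) = N^(1/s)`.
`frac_le`: `frac = (number of satisfied edges)/|E| ≤ (1/R) av_c av_g a(g) H c (res c g)` by `sat`,
`card_E` (with `F v = labV (Fl v)`, `T g = labW (Gl g)`; `(labV k).symm x = y ↔ x = labV k y`),
then `snd` and `num_fin`.
-/

namespace Pool.Agent.H90.DG

open Finset Pool.Agent.H76.DTO
open scoped Classical

noncomputable section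

variable {m k : ℕ}

private lemma Snd_card (k : ℕ) : (Fintype.card (AA k) : ℝ) = 2 ^ k := by
  rw [Fintype.card_fun, ZMod.card, Fintype.card_fin]
  push_cast
  ring

private lemma Snd_sqrt {s p R : ℝ} (hR : 0 ≤ R) (hp : 1 < p) (hsp : 1 / s + 1 / p = 1) :
    √((R ^ (p - 1)) ^ (2 / p)) = R ^ (1 / s) := by
  have hp0 : p ≠ 0 := by linarith
  rw [← Real.rpow_mul hR, Real.sqrt_eq_rpow, ← Real.rpow_mul hR]
  congr 1
  have h1 : 1 / s = 1 - 1 / p := by linarith
  rw [h1]
  field_simp

private lemma Snd_blur_nonneg {X : Type} [Fintype X] (S : X → Prop) (a : (X → F2) → ℝ)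
    (ha : ∀ f, 0 ≤ a f) (f : X → F2) : 0 ≤ blur S a f := av_nonneg fun _ => ha _

private lemma Snd_av {α : Type} (i₁ i₂ : Fintype α) (f : α → ℝ) : @av α i₁ f = @av α i₂ f := by
  rw [Subsingleton.elim i₁ i₂]

private lemma Snd_orb {M X : Type} [AddCommGroup M] [Module F2 M] [Fintype M] [Fintype X]
    (s : ℝ) (e : M →ₗ[F2] (X → F2)) (h : (X → F2) → ℝ) :
    orb s e h = av fun f : X → F2 => N2 s fun μ : M => h (f + e μ) := rfl

theorem snd_c {s p : ℝ} (hs : 1 < s) (hp : 1 < p) (hsp : 1 / s + 1 / p = 1)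
    (F : VV m k → AA k) (T : WW m k → AA m × AA k) (c : CC m k) :
    (av fun g : WW m k => cnt (code m k) T g * cnt (codeB k) (fun f => F (c, f)) (res c g)) ≤
      ((2 : ℝ) ^ k) ^ (1 / s) *
        √(orb s (code m k) (blur (kept (code m k) (tw (iB m k) (bB m k) c))
          (cnt (code m k) T))) := by
  have hR : (0 : ℝ) ≤ 2 ^ k := by positivity
  have e1 := av_blur (kept (code m k) (tw (iB m k) (bB m k) c)) (cnt (code m k) T)
    (fun g => cnt (codeB k) (fun f => F (c, f)) (res c g)) (fun g g' h => by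
      show cnt (codeB k) (fun f => F (c, f)) (res c g) = cnt (codeB k) (fun f => F (c, f)) (res c g')
      rw [res_congr c g g' h])
  have e3 := av_orbit (code m k) (fun g =>
    blur (kept (code m k) (tw (iB m k) (bB m k) c)) (cnt (code m k) T) g *
      cnt (codeB k) (fun f => F (c, f)) (res c g))
  have e4 := e1.trans e3
  clear e1 e3
  set a' := blur (kept (code m k) (tw (iB m k) (bB m k) c)) (cnt (code m k) T) with ha'
  have ha0 : ∀ f, 0 ≤ a' f := Snd_blur_nonneg _ _ (cnt_nonneg _ _)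
  have h1 : ∀ g : WW m k, (av fun μ : AA m × AA k => a' (g + code m k μ) *
      cnt (codeB k) (fun f => F (c, f)) (res c (g + code m k μ))) ≤
      √(N2 s fun μ : AA m × AA k => a' (g + code m k μ)) * ((2 : ℝ) ^ k) ^ (1 / s) := by
    intro g
    refine (av_holder hs hsp _ _ (fun μ => ha0 _) (fun μ => cnt_nonneg _ _ _)).trans ?_
    refine mul_le_mul_of_nonneg_left ?_ (Real.sqrt_nonneg _)
    rw [← Snd_sqrt hR hp hsp]
    apply Real.sqrt_le_sqrt
    unfold N2
    have e2 : (av fun μ : AA m × AA k =>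
        cnt (codeB k) (fun f => F (c, f)) (res c (g + code m k μ)) ^ p) =
        av fun β : AA k => cnt (codeB k) (fun f => F (c, f)) (res c g + codeB k β) ^ p := by
      rw [← av_tr c]
      exact av_congr fun μ => by rw [res_code]
    rw [e2]
    have h3 := cnt_pow (codeB k) (codeB_inj k) (fun f => F (c, f)) (res c g) hp
    rw [Snd_card] at h3
    exact Real.rpow_le_rpow (av_nonneg fun _ => Real.rpow_nonneg (cnt_nonneg _ _ _) _) h3
      (by positivity)
  have e5 : (av fun g : WW m k => cnt (code m k) T g *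
      cnt (codeB k) (fun f => F (c, f)) (res c g)) = av fun g : WW m k =>
        av fun μ : AA m × AA k => a' (g + code m k μ) *
          cnt (codeB k) (fun f => F (c, f)) (res c (g + code m k μ)) :=
    (Snd_av _ _ _).trans (e4.trans (Snd_av _ _ _))
  have e6 : orb s (code m k) a' = av fun g : WW m k => N2 s fun μ : AA m × AA k =>
      a' (g + code m k μ) := (Snd_orb s (code m k) a').trans (Snd_av _ _ _)
  rw [e5, e6, mul_comm]
  refine (av_mono h1).trans ?_
  rw [av_mul_right]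
  refine mul_le_mul_of_nonneg_right ?_ (Real.rpow_nonneg hR _)
  exact av_sqrt_le _ fun g => N2_nonneg _ _ fun μ => ha0 _

theorem snd {s p : ℝ} (hs2 : 2 ≤ s) (hp1 : 1 < p) (hp2 : p ≤ 2)
    (hsp : (s - 1) * (1 / 2 ^ m) = p - 1) (hc : 1 / s + 1 / p = 1)
    (F : VV m k → AA k) (T : WW m k → AA m × AA k) :
    (av fun c : CC m k => av fun g : WW m k =>
      cnt (code m k) T g * cnt (codeB k) (fun f => F (c, f)) (res c g)) ≤
      ((2 : ℝ) ^ k) ^ (1 / s) * ((2 : ℝ) ^ m * 2 ^ k) ^ (1 / s) := by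
  have hR : (0 : ℝ) ≤ 2 ^ k := by positivity
  have hN : (0 : ℝ) ≤ 2 ^ m * 2 ^ k := by positivity
  refine (av_mono fun c => snd_c (by linarith) hp1 hc F T c).trans ?_
  rw [av_mul_left]
  refine mul_le_mul_of_nonneg_left ?_ (Real.rpow_nonneg hR _)
  refine (av_sqrt_le _ fun c => orb_nonneg _ _ (Snd_blur_nonneg _ _ (cnt_nonneg _ _))).trans ?_
  rw [← Snd_sqrt hN hp1 hc]
  apply Real.sqrt_le_sqrt
  have h1 := thmB hs2 hp1 hp2 hsp (XG m k) (AA m × AA k) (AA k) (code m k) (iB m k) (bB m k)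
    (inj_code m k) (cnt (code m k) T) (cnt_nonneg _ _)
  refine h1.trans ?_
  have h2 : ∀ g : WW m k, (N2 p fun μ : AA m × AA k => cnt (code m k) T (g + code m k μ)) ≤
      (((2 : ℝ) ^ m * 2 ^ k) ^ (p - 1)) ^ (2 / p) := by
    intro g
    unfold N2
    have h3 := cnt_pow (code m k) (code_inj m k) T g hp1
    rw [Fintype.card_prod, Nat.cast_mul, Snd_card, Snd_card] at h3
    exact Real.rpow_le_rpow (av_nonneg fun _ => Real.rpow_nonneg (cnt_nonneg _ _ _) _) h3
      (by positivity)
  have e6 : orb p (code m k) (cnt (code m k) T) = av fun g : WW m k =>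
      N2 p fun μ : AA m × AA k => cnt (code m k) T (g + code m k μ) :=
    (Snd_orb p (code m k) _).trans (Snd_av _ _ _)
  rw [e6]
  exact (av_mono h2).trans (av_const _).le

theorem frac_le (Fl : VV m k → Fin (2 ^ k)) (Gl : WW m k → Fin (2 ^ m * 2 ^ k)) :
    (inst m k).frac Fl Gl ≤
      2 * ((2 : ℝ) ^ k) ^ (-((√((2 : ℝ) ^ m) - 1) / (√((2 : ℝ) ^ m) + 1))) := by
  refine le_trans ?_ (num_fin m k)
  have h1 := snd (m := m) (k := k) (num_s m) (num_p1 m) (num_p2 m) (num_sp m) (num_conj m)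
    (fun v => labV k (Fl v)) (fun g => labW m k (Gl g))
  have h2 := sat (m := m) (k := k) (fun v => labV k (Fl v)) (fun g => labW m k (Gl g))
  have h3 : ((inst m k).E.filter fun e => (inst m k).π e (Gl e.2) = Fl e.1) =
      (inst m k).E.filter fun e => pj e.1 e.2 (labW m k (Gl e.2)) = labV k (Fl e.1) := by
    refine Finset.filter_congr fun e _ => ?_
    rw [inst_pi, Equiv.symm_apply_eq]
  have hC : (0 : ℝ) < Fintype.card (CC m k) := by
    exact_mod_cast Fintype.card_pos
  have hW : (0 : ℝ) < Fintype.card (WW m k) := by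
    exact_mod_cast Fintype.card_pos
  have hR : (0 : ℝ) < 2 ^ k := by positivity
  have h4 : (∑ c : CC m k, ∑ g : WW m k,
        cnt (code m k) (fun g => labW m k (Gl g)) g *
          cnt (codeB k) (fun f => labV k (Fl (c, f))) (res c g)) =
      (Fintype.card (CC m k) : ℝ) * Fintype.card (WW m k) * (av fun c : CC m k =>
        av fun g : WW m k => cnt (code m k) (fun g => labW m k (Gl g)) g *
          cnt (codeB k) (fun f => labV k (Fl (c, f))) (res c g)) := by
    simp only [av]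
    rw [← Finset.sum_div]
    field_simp
  unfold LabelCover.frac
  have h5 : ((inst m k).E.filter fun e => (inst m k).π e (Gl e.2) = Fl e.1).card =
      ((inst m k).E.filter fun e =>
        pj e.1 e.2 (labW m k (Gl e.2)) = labV k (Fl e.1)).card := by rw [h3]
  rw [card_E, Snd_card, div_le_iff₀ (by positivity)]
  have h6 : (((inst m k).E.filter fun e => (inst m k).π e (Gl e.2) = Fl e.1).card : ℝ) ≤
      (Fintype.card (CC m k) : ℝ) * Fintype.card (WW m k) *
      (((2 : ℝ) ^ k) ^ (1 / (1 + √((2 : ℝ) ^ m))) *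
        ((2 : ℝ) ^ m * 2 ^ k) ^ (1 / (1 + √((2 : ℝ) ^ m)))) := by
    rw [h5]
    refine h2.trans ?_
    rw [h4]
    exact mul_le_mul_of_nonneg_left h1 (by positivity)
  refine le_trans ?_ (h6.trans ?_)
  · apply le_of_eq
    congr 2
  · apply le_of_eq
    field_simp

end

end Pool.Agent.H90.DG
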