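import Pool.Agent.H90.DG.Chr
import Pool.Agent.H90.DG.Geo

/-!
The vectors of the solution of the basic semidefinite relaxation of the instance.
-/

namespace Pool.Agent.H90.DG

open Finset Pool.Agent.H76.DTO
open scoped Classical

noncomputable section

variable {m k : ℕ}

/-- extension of a function on the nonzero points by the value zero at zero -/
def ex {G : Type} [Zero G] (g : {z : G // z ≠ 0} → F2) (z : G) : F2 :=
  if h : z = 0 then 0 else g ⟨z, h⟩

/-- the vectors of the right labels -/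
def yv (g : WW m k) (b : Fin (2 ^ m * 2 ^ k)) : EuclideanSpace ℝ (Fin (2 ^ m * 2 ^ k)) :=
  WithLp.toLp 2 fun i => 1 / ((2 : ℝ) ^ m * 2 ^ k) *
    chi (ex g (labW m k i) + ((labW m k b).1 ⬝ᵥ (labW m k i).1 +
      (labW m k b).2 ⬝ᵥ (labW m k i).2))

/-- the vectors of the left labels -/
def xv (v : VV m k) (a : Fin (2 ^ k)) : EuclideanSpace ℝ (Fin (2 ^ m * 2 ^ k)) :=
  WithLp.toLp 2 fun i => if (labW m k i).1 = ap v.1 (labW m k i).2 then
    1 / (2 : ℝ) ^ k * chi (ex v.2 (labW m k i).2 + labV k a ⬝ᵥ (labW m k i).2) else 0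

end

end Pool.Agent.H90.DG
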