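import Pool.Agent.H90.DG.SolD

/-!
MODULE SolX (about 120 lines). The vectors of the left labels are sums of vectors of right labels.

Let `(v, g)` be an edge, `v = (c, f)`, `γ₀ = gam v g`, so `res c g = f + codeB γ₀` (`gam_spec`), and
`z = labW m k i = (y, x)`. The right labels over `a` correspond (via `labW`) to the pairs
`(α, labV k a + tr c α + γ₀)`, `α` in `AA m` (characteristic two). So the coordinate `i` of the sum is
`(1/(2^m 2^k)) chi (ex g z) Σ_α chi (α ⬝ᵥ y + (labV a + tr c α + γ₀) ⬝ᵥ x)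
= (1/(2^m 2^k)) chi (ex g z) chi ((labV a + γ₀) ⬝ᵥ x) Σ_α chi (α ⬝ᵥ (y + ap c x))`
(`tr c α ⬝ᵥ x = α ⬝ᵥ ap c x`), which by `sum_chi` is `0` if `y ≠ ap c x` and
`(1/2^k) chi (ex g z + (labV a + γ₀) ⬝ᵥ x)` if `y = ap c x`. In the second case
`ex g z = ex f x + γ₀ ⬝ᵥ x`: for `x = 0` also `y = 0`, both sides are `0`; for `x ≠ 0`
`z = up c x`, and this is `res c g x = f x + codeB γ₀ x`. So the value is
`(1/2^k) chi (ex f x + labV a ⬝ᵥ x)`.
`edge_ex`: given `v = (c, f)`, put `g z = f x` for `z = (y, x)` with `x ≠ 0`, `0` otherwise; `γ = 0`.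
-/

namespace Pool.Agent.H90.DG

open Finset Pool.Agent.H76.DTO
open scoped Classical

noncomputable section

variable {m k : ℕ}

private lemma ex_edge {c : CC m k} {f : XB k → F2} {g : WW m k} {γ : AA k}
    (h : res c g = f + codeB k γ) (x : AA k) :
    ex g (ap c x, x) = ex f x + γ ⬝ᵥ x := by
  by_cases hx : x = 0
  · subst hx
    have h1 : ((ap c 0, 0) : AA m × AA k) = 0 := by
      refine Prod.ext ?_ rfl
      funext j
      simp [ap]
    rw [ex, ex, dif_pos h1, dif_pos rfl]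
    simp
  · have h1 : ((ap c x, x) : AA m × AA k) ≠ 0 := fun h0 => hx (congrArg Prod.snd h0)
    rw [ex, ex, dif_neg h1, dif_neg hx]
    have h2 := congrFun h ⟨x, hx⟩
    exact h2

private lemma sum_chi_AA (y : AA m) :
    ∑ α : AA m, chi (α ⬝ᵥ y) = if y = 0 then (2 : ℝ) ^ m else 0 := by
  have h := sum_chi (X := Fin m) y
  simp only [Fintype.card_eq_nat_card, Nat.card_fun, Nat.card_zmod, Nat.card_fin,
    Nat.cast_pow, Nat.cast_ofNat] at h
  rw [← h]
  exact Finset.sum_congr (by ext; simp) fun _ _ => rfl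

private lemma dot_tr (c : CC m k) (α : AA m) (x : AA k) : tr c α ⬝ᵥ x = α ⬝ᵥ ap c x := by
  simp only [ap, tr, dotProduct, Finset.sum_apply, Pi.smul_apply, smul_eq_mul,
    Finset.mul_sum, Finset.sum_mul]
  rw [Finset.sum_comm]
  refine Finset.sum_congr rfl fun i _ => Finset.sum_congr rfl fun j _ => ?_
  ring

theorem xv_eq (e : VV m k × WW m k) (he : e ∈ (inst m k).E) (a : Fin (2 ^ k)) :
    xv e.1 a = ∑ b ∈ Finset.univ.filter (fun b => (inst m k).π e b = a), yv e.2 b := by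
  obtain ⟨⟨c, f⟩, g⟩ := e
  rw [mem_inst] at he
  have hγ : res c g = f + codeB k (gam (c, f) g) := gam_spec he
  obtain ⟨γ, hg⟩ : ∃ γ, γ = gam (c, f) g := ⟨_, rfl⟩
  rw [← hg] at hγ
  have hcond : ∀ b, (inst m k).π ((c, f), g) b = a ↔
      (labW m k b).2 = labV k a + tr c (labW m k b).1 + γ := by
    intro b
    rw [inst_pi, Equiv.symm_apply_eq]
    show (labW m k b).2 + tr c (labW m k b).1 + gam (c, f) g = labV k a ↔ _
    rw [← hg]
    constructor
    · intro h
      rw [← h]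
      have h1 : ∀ u : AA k, u + u = 0 := fun u => by
        funext j
        exact CharTwo.add_self_eq_zero _
      calc (labW m k b).2 = (labW m k b).2 + (tr c (labW m k b).1 + tr c (labW m k b).1) +
            (γ + γ) := by rw [h1, h1, add_zero, add_zero]
        _ = _ := by abel
    · intro h
      rw [h]
      have h1 : ∀ u : AA k, u + u = 0 := fun u => by
        funext j
        exact CharTwo.add_self_eq_zero _
      calc labV k a + tr c (labW m k b).1 + γ + tr c (labW m k b).1 + γ =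
            labV k a + (tr c (labW m k b).1 + tr c (labW m k b).1) + (γ + γ) := by abel
        _ = _ := by rw [h1, h1, add_zero, add_zero]
  ext i
  obtain ⟨⟨y, x⟩, hz⟩ : ∃ z, z = labW m k i := ⟨_, rfl⟩
  -- the sum
  have hsum : (∑ b ∈ Finset.univ.filter (fun b => (inst m k).π ((c, f), g) b = a), yv g b) i =
      ∑ α : AA m, 1 / ((2 : ℝ) ^ m * 2 ^ k) *
        chi (ex g (y, x) + (α ⬝ᵥ y + (labV k a + tr c α + γ) ⬝ᵥ x)) := by
    have h1 : (∑ b ∈ Finset.univ.filter (fun b => (inst m k).π ((c, f), g) b = a), yv g b) i =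
        ∑ b ∈ Finset.univ.filter (fun b => (inst m k).π ((c, f), g) b = a), yv g b i := by
      rw [WithLp.ofLp_sum, Finset.sum_apply]
    rw [h1]
    refine Finset.sum_bij' (fun b _ => (labW m k b).1)
      (fun α _ => (labW m k).symm (α, labV k a + tr c α + γ)) ?_ ?_ ?_ ?_ ?_
    · intro b _
      exact Finset.mem_univ _
    · intro α _
      rw [Finset.mem_filter, hcond]
      simp
    · intro b hb
      rw [Finset.mem_filter, hcond] at hb
      rw [← hb.2]
      simp
    · intro α _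
      simp
    · intro b hb
      rw [Finset.mem_filter, hcond] at hb
      show 1 / ((2 : ℝ) ^ m * 2 ^ k) *
        chi (ex g (labW m k i) + ((labW m k b).1 ⬝ᵥ (labW m k i).1 +
          (labW m k b).2 ⬝ᵥ (labW m k i).2)) = _
      rw [hb.2, ← hz]
  have hterm : ∀ α : AA m, 1 / ((2 : ℝ) ^ m * 2 ^ k) *
      chi (ex g (y, x) + (α ⬝ᵥ y + (labV k a + tr c α + γ) ⬝ᵥ x)) =
      1 / ((2 : ℝ) ^ m * 2 ^ k) * chi (ex g (y, x) + (labV k a + γ) ⬝ᵥ x) *
        chi (α ⬝ᵥ (y + ap c x)) := by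
    intro α
    rw [mul_assoc, ← chi_add]
    congr 2
    rw [add_dotProduct, add_dotProduct, add_dotProduct, dotProduct_add, dot_tr]
    ring
  show (if (labW m k i).1 = ap c (labW m k i).2 then
    1 / (2 : ℝ) ^ k * chi (ex f (labW m k i).2 + labV k a ⬝ᵥ (labW m k i).2) else 0) = _
  rw [hsum, ← hz, Finset.sum_congr rfl fun α _ => hterm α, ← Finset.mul_sum, sum_chi_AA]
  show (if y = ap c x then 1 / (2 : ℝ) ^ k * chi (ex f x + labV k a ⬝ᵥ x) else 0) = _
  have hiff : y + ap c x = 0 ↔ y = ap c x := by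
    constructor
    · intro h
      funext j
      exact CharTwo.add_eq_zero.1 (congrFun h j)
    · intro h
      funext j
      exact CharTwo.add_eq_zero.2 (congrFun h j)
  by_cases hy : y = ap c x
  · rw [if_pos hy, if_pos (hiff.2 hy)]
    rw [hy, ex_edge hγ x]
    have h3 : ex f x + γ ⬝ᵥ x + (labV k a + γ) ⬝ᵥ x = ex f x + labV k a ⬝ᵥ x := by
      rw [add_dotProduct]
      have h4 : γ ⬝ᵥ x + γ ⬝ᵥ x = 0 := CharTwo.add_self_eq_zero _
      calc ex f x + γ ⬝ᵥ x + (labV k a ⬝ᵥ x + γ ⬝ᵥ x) =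
            ex f x + labV k a ⬝ᵥ x + (γ ⬝ᵥ x + γ ⬝ᵥ x) := by ring
        _ = _ := by rw [h4, add_zero]
    rw [h3]
    field_simp
  · rw [if_neg hy, if_neg (fun h => hy (hiff.1 h)), mul_zero]

theorem edge_ex (v : VV m k) : ∃ g, (v, g) ∈ (inst m k).E := by
  obtain ⟨c, f⟩ := v
  refine ⟨fun z => if h : z.1.2 = 0 then 0 else f ⟨z.1.2, h⟩, ?_⟩
  rw [mem_inst]
  refine ⟨0, ?_⟩
  funext x
  show (if h : x.1 = 0 then 0 else f ⟨x.1, h⟩) = f x + codeB k 0 x
  rw [dif_neg x.2, map_zero]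
  simp

end

end Pool.Agent.H90.DG
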