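import Pool.Agent.H90.DG.Loc
import Pool.Agent.H90.DG.Cos

/-!
MODULE Stp (about 80 lines). Deletion and contraction of the first coordinate for the orbit norms.

By `av_cons` and `cons_add_code`, `orb s e h` is the average over `y` of the mean of
`N2 s (μ ↦ h (cons (fst e μ) (y + del e μ)))` and
`N2 s (μ ↦ h (cons (1 + fst e μ) (y + del e μ)))`. Put `u μ = hs h (y + del e μ)`,
`v = sg e (hd h) y`. Since `fst e μ` is `0` or `1`, `h (cons (fst e μ) z) = hs h z ± hd h z`
(`+` if `fst e μ = 0`), i.e. the first function is `u + v` and the second `u - v`; `|v| ≤ u`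
because `h ≥ 0`. Apply `locS` and `cosS`, resp. `locP` and `cosP`.
-/

namespace Pool.Agent.H90.DG

open Finset
open scoped Classical

noncomputable section

variable {M : Type} [AddCommGroup M] [Module F2 M] [Fintype M] {n : ℕ}

/-- the two fibres as sum and difference -/
private lemma stp_plus (e : M →ₗ[F2] (Fin (n + 1) → F2)) (h : (Fin (n + 1) → F2) → ℝ)
    (y : Fin n → F2) (μ : M) :
    h ((Fin.cons 0 y : Fin (n + 1) → F2) + e μ) =
      hs h (y + del e μ) + sg e (hd h) y μ := by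
  rw [cons_add_code, zero_add]
  have h01 : ∀ a : F2, a = 0 ∨ a = 1 := by decide
  unfold sg hs hd
  rcases h01 (fst e μ) with h0 | h1
  · rw [if_pos h0, h0]; ring
  · rw [if_neg (by rw [h1]; decide), h1]; ring

private lemma stp_minus (e : M →ₗ[F2] (Fin (n + 1) → F2)) (h : (Fin (n + 1) → F2) → ℝ)
    (y : Fin n → F2) (μ : M) :
    h ((Fin.cons 1 y : Fin (n + 1) → F2) + e μ) =
      hs h (y + del e μ) - sg e (hd h) y μ := by
  rw [cons_add_code]
  have h01 : ∀ a : F2, a = 0 ∨ a = 1 := by decide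
  unfold sg hs hd
  rcases h01 (fst e μ) with h0 | h1
  · rw [if_pos h0, h0, add_zero]; ring
  · have e2 : (1 : F2) + 1 = 0 := by decide
    rw [if_neg (by rw [h1]; decide), h1, e2]; ring

private lemma stp_abs (e : M →ₗ[F2] (Fin (n + 1) → F2)) (h : (Fin (n + 1) → F2) → ℝ)
    (hh : ∀ f, 0 ≤ h f) (y : Fin n → F2) (μ : M) :
    |sg e (hd h) y μ| ≤ hs h (y + del e μ) := by
  have h0 := hh (Fin.cons 0 (y + del e μ))
  have h1 := hh (Fin.cons 1 (y + del e μ))
  have h2 : |hd h (y + del e μ)| ≤ hs h (y + del e μ) := by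
    unfold hd hs
    rw [abs_le]
    constructor <;> linarith
  unfold sg
  split_ifs
  · exact h2
  · rw [abs_neg]; exact h2

private lemma stp_inst {α : Type} (I J : Fintype α) (f : α → ℝ) : @av α I f = @av α J f := by
  rw [Subsingleton.elim I J]

private lemma stp_orb_fin (s : ℝ) (e : M →ₗ[F2] (Fin n → F2)) (h : (Fin n → F2) → ℝ) :
    orb s e h = av fun f : Fin n → F2 => N2 s fun μ => h (f + e μ) := by
  unfold orb
  exact stp_inst _ _ _

/-- the orbit norm as an average over the deleted vectors -/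
private lemma stp_orb (s : ℝ) (e : M →ₗ[F2] (Fin (n + 1) → F2)) (h : (Fin (n + 1) → F2) → ℝ) :
    orb s e h = av fun y : Fin n → F2 =>
      ((N2 s fun μ => hs h (y + del e μ) + sg e (hd h) y μ) +
        N2 s fun μ => hs h (y + del e μ) - sg e (hd h) y μ) / 2 := by
  rw [stp_orb_fin, av_cons, av_div, av_add]
  simp only [stp_plus, stp_minus]

theorem stpS {s : ℝ} (hs2 : 2 ≤ s) (e : M →ₗ[F2] (Fin (n + 1) → F2)) (μ₁ : M)
    (h₁ : fst e μ₁ = 1) (h : (Fin (n + 1) → F2) → ℝ) (hh : ∀ f, 0 ≤ h f) :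
    orb s e h ≤ orb s (del e) (hs h) +
      (s - 1) * (orb s (con e) (pp (hd h)) + orb s (con e) (np (hd h))) := by
  rw [stp_orb]
  have h1 : (av fun y : Fin n → F2 =>
      ((N2 s fun μ => hs h (y + del e μ) + sg e (hd h) y μ) +
        N2 s fun μ => hs h (y + del e μ) - sg e (hd h) y μ) / 2) ≤
      av fun y : Fin n → F2 => (N2 s fun μ => hs h (y + del e μ)) +
        (s - 1) * (2 ^ (2 / s - 1) * (N2 s (pp (sg e (hd h) y)) + N2 s (np (sg e (hd h) y)))) :=
    av_mono fun y => by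
      have := locS hs2 (fun μ => hs h (y + del e μ)) (sg e (hd h) y) (stp_abs e h hh y)
      rwa [mul_assoc] at this
  refine h1.trans ?_
  rw [av_add, av_mul_left]
  have h2 : (av fun y : Fin n → F2 => N2 s fun μ => hs h (y + del e μ)) =
      orb s (del e) (hs h) := (stp_orb_fin s (del e) (hs h)).symm
  rw [h2]
  have h3 := cosS hs2 e μ₁ h₁ (hd h)
  have h4 : 0 ≤ s - 1 := by linarith
  have := mul_le_mul_of_nonneg_left h3 h4
  linarith

theorem stpP {p : ℝ} (hp1 : 1 < p) (hp2 : p ≤ 2) (e : M →ₗ[F2] (Fin (n + 1) → F2)) (μ₁ : M)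
    (h₁ : fst e μ₁ = 1) (h : (Fin (n + 1) → F2) → ℝ) (hh : ∀ f, 0 ≤ h f) :
    orb p (del e) (hs h) + (p - 1) * (orb p (con e) (pp (hd h)) + orb p (con e) (np (hd h))) ≤
      orb p e h := by
  rw [stp_orb]
  have h1 : (av fun y : Fin n → F2 => (N2 p fun μ => hs h (y + del e μ)) +
        (p - 1) * (2 ^ (2 / p - 1) * (N2 p (pp (sg e (hd h) y)) + N2 p (np (sg e (hd h) y))))) ≤
      av fun y : Fin n → F2 =>
      ((N2 p fun μ => hs h (y + del e μ) + sg e (hd h) y μ) +
        N2 p fun μ => hs h (y + del e μ) - sg e (hd h) y μ) / 2 :=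
    av_mono fun y => by
      have := locP hp1 hp2 (fun μ => hs h (y + del e μ)) (sg e (hd h) y) (stp_abs e h hh y)
      rwa [mul_assoc] at this
  refine le_trans ?_ h1
  rw [av_add, av_mul_left]
  have h2 : (av fun y : Fin n → F2 => N2 p fun μ => hs h (y + del e μ)) =
      orb p (del e) (hs h) := (stp_orb_fin p (del e) (hs h)).symm
  rw [h2]
  have h3 := cosP hp1 hp2 e μ₁ h₁ (hd h)
  have h4 : 0 ≤ p - 1 := by linarith
  have := mul_le_mul_of_nonneg_left h3 h4
  linarith

end

end Pool.Agent.H90.DG
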