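import Pool.Agent.H90.DG.Blu
import Pool.Agent.H90.DG.Law

/-!
The main inequality, by induction on the number of coordinates.
-/

namespace Pool.Agent.H90.DG

open Finset
open scoped Classical

noncomputable section

set_option linter.unusedSectionVars false

lemma F2_ne {x : F2} (h : x ≠ 0) : x = 1 := by
  revert h
  revert x
  decide

theorem thmB_zero {s p : ℝ} (hs0 : s ≠ 0) (hp0 : p ≠ 0) {m : ℕ} (M M' : Type)
    [AddCommGroup M] [Module F2 M] [Fintype M] [AddCommGroup M'] [Module F2 M'] [Fintype M']
    (e : M →ₗ[F2] (Fin 0 → F2)) (i : M' →ₗ[F2] M) (b : Fin m → M) (a : (Fin 0 → F2) → ℝ)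
    (ha : ∀ f, 0 ≤ a f) : Psi s e i b a ≤ orb p e a := by
  have h1 : ∀ f : Fin 0 → F2, a f = a 0 := fun f => by rw [Subsingleton.elim f 0]
  have h2 : ∀ (r : ℝ), r ≠ 0 → ∀ h : (Fin 0 → F2) → ℝ, (∀ f, h f = a 0) → orb r e h = a 0 ^ 2 := by
    intro r hr h hh
    simp only [orb, hh]
    rw [N2_const hr (ha 0), av_const]
  have h3 : ∀ S : Fin 0 → Prop, ∀ f, blur S a f = a 0 := by
    intro S f
    simp only [blur, h1]
    exact av_const _
  simp only [Psi]
  rw [h2 p hp0 a h1]
  have h4 : ∀ c : Fin m → M', orb s e (blur (kept e (tw i b c)) a) = a 0 ^ 2 :=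
    fun c => h2 s hs0 _ (h3 _)
  rw [av_congr h4, av_const]

theorem thmB_aux {s p : ℝ} (hs2 : 2 ≤ s) (hp1 : 1 < p) (hp2 : p ≤ 2) {m : ℕ}
    (hsp : (s - 1) * (1 / 2 ^ m) = p - 1) : ∀ (n : ℕ) (M M' : Type)
    [AddCommGroup M] [Module F2 M] [Fintype M] [AddCommGroup M'] [Module F2 M'] [Fintype M']
    (e : M →ₗ[F2] (Fin n → F2)) (i : M' →ₗ[F2] M) (b : Fin m → M), Inj i b →
    ∀ a : (Fin n → F2) → ℝ, (∀ f, 0 ≤ a f) → Psi s e i b a ≤ orb p e a := by
  intro n
  induction n with
  | zero =>
    intro M M' _ _ _ _ _ _ e i b _ a ha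
    exact thmB_zero (by linarith) (by linarith) M M' e i b a ha
  | succ n ih =>
    intro M M' _ _ _ _ _ _ e i b hi a ha
    have hhs : ∀ f, 0 ≤ hs a f := fun f => by
      simp only [hs]
      have h1 := ha (Fin.cons 0 f)
      have h2 := ha (Fin.cons 1 f)
      linarith
    by_cases he : ∀ μ, fst e μ = 0
    · have h0 : ∀ c : Fin m → M', kept e (tw i b c) 0 := fun c j => he _
      have h1 : ∀ c : Fin m → M', orb s e (blur (kept e (tw i b c)) a) =
          (orb s (del e) (blur (kept (del e) (tw i b c)) (fun y => a (Fin.cons 0 y))) +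
            orb s (del e) (blur (kept (del e) (tw i b c)) (fun y => a (Fin.cons 1 y)))) / 2 := by
        intro c
        rw [orb_loop s e he]
        simp only [blur_kept _ (h0 c)]
        rfl
      have h2 : Psi s e i b a = (Psi s (del e) i b (fun y => a (Fin.cons 0 y)) +
          Psi s (del e) i b (fun y => a (Fin.cons 1 y))) / 2 := by
        simp only [Psi]
        rw [av_congr h1, av_div, av_add]
      rw [h2, orb_loop p e he]
      have h3 := ih M M' (del e) i b hi (fun y => a (Fin.cons 0 y)) (fun _ => ha _)
      have h4 := ih M M' (del e) i b hi (fun y => a (Fin.cons 1 y)) (fun _ => ha _)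
      linarith
    · have he' := he
      push Not at he'
      obtain ⟨μ₁, hμ₁⟩ := he'
      have h₁ := F2_ne hμ₁
      have hP := stpP hp1 hp2 e μ₁ h₁ a ha
      have hI := ih M M' (del e) i b hi (hs a) hhs
      by_cases hν : ∀ ν, fst e (i ν) = 0
      · have h1 : Psi s e i b a = Psi s (del e) i b (hs a) := by
          simp only [Psi]
          refine av_congr fun c => ?_
          rw [orb_lost s e (kept e (tw i b c)) (kept_none e i b he hν hi c) a]
          rfl
        rw [h1]
        have h2 : 0 ≤ (p - 1) * (orb p (con e) (pp (hd a)) + orb p (con e) (np (hd a))) :=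
          mul_nonneg (by linarith) (add_nonneg (orb_nonneg p (con e) (pp_nonneg (hd a)))
            (orb_nonneg p (con e) (np_nonneg (hd a))))
        linarith
      · push Not at hν
        obtain ⟨ν, hν⟩ := hν
        have h := F2_ne hν
        set Φ : (Fin m → M) → ℝ := fun θ =>
          orb s (con e) (blur (kept (del e) θ) (pp (hd a))) +
            orb s (con e) (blur (kept (del e) θ) (np (hd a))) with hΦ
        have h1 : ∀ c : Fin m → M', orb s e (blur (kept e (tw i b c)) a) ≤
            orb s (del e) (blur (kept (del e) (tw i b c)) (hs a)) +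
              (s - 1) * (if ∀ j, fst e (tw i b c j) = 0 then Φ (tw i b c) else 0) := by
          intro c
          split_ifs with hc
          · exact orb_kept hs2 e μ₁ h₁ (kept e (tw i b c)) hc a ha
          · rw [orb_lost s e (kept e (tw i b c)) hc a, mul_zero, add_zero]
            exact le_refl _
        have h2 : Psi s e i b a ≤ Psi s (del e) i b (hs a) + (s - 1) * ((1 / 2 ^ m) *
            av fun c : Fin m → LinearMap.ker ((fst e).comp i) =>
              Φ fun j => (tw (kI e i) (kB e i b ν h) c j).1) := by
          rw [← law_av e i b ν h Φ, ← av_mul_left]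
          simp only [Psi]
          rw [← av_add]
          exact av_mono h1
        have h3 : (av fun c : Fin m → LinearMap.ker ((fst e).comp i) =>
              Φ fun j => (tw (kI e i) (kB e i b ν h) c j).1) =
            Psi s (con e) (kI e i) (kB e i b ν h) (pp (hd a)) +
              Psi s (con e) (kI e i) (kB e i b ν h) (np (hd a)) := by
          simp only [Psi]
          rw [← av_add]
          rfl
        have h4 := ih _ _ (con e) (kI e i) (kB e i b ν h) (inj_law e i b ν h hi) (pp (hd a))
          (pp_nonneg (hd a))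
        have h5 := ih _ _ (con e) (kI e i) (kB e i b ν h) (inj_law e i b ν h hi) (np (hd a))
          (np_nonneg (hd a))
        rw [h3, ← mul_assoc, hsp] at h2
        have h6 : 0 < p - 1 := by linarith
        nlinarith

end

end Pool.Agent.H90.DG
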